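import Pool.Agent.MP_84d7a8_al.Mg.Obstruction
import Pool.Agent.MP_84d7a8_al.Defs

/-!
No smooth faithful action on the interval or the circle for groups containing the configuration.
-/

namespace Pool.Agent.MP_84d7a8_al

open Set Filter Topology
open scoped ContDiff

theorem two_le_infty : (2 : WithTop ℕ∞) ≤ ∞ := by
  have : ((2 : ℕ∞) : WithTop ℕ∞) ≤ ((⊤ : ℕ∞) : WithTop ℕ∞) := by exact_mod_cast le_top
  exact this

theorem lip_of_contDiffOn {F : ℝ → ℝ} {α β : ℝ} (hF : ContDiffOn ℝ 1 F (Icc α β)) :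
    ∃ L : ℝ, 0 ≤ L ∧ ∀ x ∈ Icc α β, ∀ y ∈ Icc α β, |F y - F x| ≤ L * |y - x| := by
  obtain ⟨K, hK⟩ := hF.exists_lipschitzOnWith one_ne_zero (convex_Icc α β) isCompact_Icc
  refine ⟨K, K.2, fun x hx y hy => ?_⟩
  simpa [Real.dist_eq] using hK.dist_le_mul y hy x hx

theorem hasDist_of_contDiffOn {F : ℝ → ℝ} {α β L : ℝ} (hF : ContDiffOn ℝ 2 F (Icc α β))
    (hL0 : 0 ≤ L) (hL : ∀ x y, α ≤ x → x ≤ y → y ≤ β → y - x ≤ L * (F y - F x)) :
    HasDist F α β := by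
  rcases le_or_gt β α with hab | hab
  · refine ⟨0, le_rfl, fun c d h1 h2 h3 x y x' y' a1 a2 a3 a4 a5 a6 => ?_⟩
    have : x = y := by linarith
    subst this
    simp
  have hU : UniqueDiffOn ℝ (Icc α β) := uniqueDiffOn_Icc hab
  obtain ⟨B, hB0, hB⟩ := lip_of_contDiffOn (hF.derivWithin hU (m := 1) (by norm_num))
  have hmvt : ∀ x y, α ≤ x → x < y → y ≤ β →
      ∃ ξ ∈ Ioo x y, derivWithin F (Icc α β) ξ * (y - x) = F y - F x := by
    intro x y h1 h2 h3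
    have hsub : Icc x y ⊆ Icc α β := Icc_subset_Icc h1 h3
    obtain ⟨ξ, hξ, hξ'⟩ := exists_deriv_eq_slope F h2 (hF.continuousOn.mono hsub)
      ((hF.differentiableOn two_ne_zero).mono (Ioo_subset_Icc_self.trans hsub))
    refine ⟨ξ, hξ, ?_⟩
    rw [derivWithin_of_mem_nhds (Icc_mem_nhds (h1.trans_lt hξ.1) (hξ.2.trans_le h3)), hξ',
      div_mul_cancel₀ _ (sub_pos.2 h2).ne']
  refine ⟨B * L, mul_nonneg hB0 hL0, fun c d h1 h2 h3 x y x' y' a1 a2 a3 a4 a5 a6 => ?_⟩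
  rcases a2.eq_or_lt with rfl | a2'
  · simp
  rcases a5.eq_or_lt with rfl | a5'
  · simp
  obtain ⟨ξ, hξ, e1⟩ := hmvt x y (h1.trans a1) a2' (a3.trans h3)
  obtain ⟨η, hη, e2⟩ := hmvt x' y' (h1.trans a4) a5' (a6.trans h3)
  set u := derivWithin F (Icc α β) ξ
  set w := derivWithin F (Icc α β) η
  have k1 : 1 ≤ L * w := by
    have := hL x' y' (h1.trans a4) a5 (a6.trans h3)
    rw [← e2] at this
    apply le_of_mul_le_mul_right _ (sub_pos.2 a5')
    linarith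
  have hw : 0 ≤ w := by
    by_contra hcon
    push Not at hcon
    nlinarith
  have k2 : u - w ≤ B * (d - c) := by
    have := hB η ⟨by linarith [hη.1], by linarith [hη.2]⟩ ξ ⟨by linarith [hξ.1], by linarith [hξ.2]⟩
    refine (le_abs_self _).trans (this.trans (mul_le_mul_of_nonneg_left ?_ hB0))
    rw [abs_le]
    constructor <;> linarith [hξ.1, hξ.2, hη.1, hη.2]
  have hdc : 0 ≤ B * (d - c) := mul_nonneg hB0 (sub_nonneg.2 h2)
  have k3 : u ≤ Real.exp (B * L * (d - c)) * w := by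
    have := Real.add_one_le_exp (B * L * (d - c))
    calc u ≤ w + B * (d - c) * 1 := by linarith
      _ ≤ w + B * (d - c) * (L * w) := by gcongr
      _ = (B * L * (d - c) + 1) * w := by ring
      _ ≤ _ := mul_le_mul_of_nonneg_right this hw
  rw [← e1, ← e2]
  have hp : 0 ≤ (y - x) * (y' - x') := mul_nonneg (sub_nonneg.2 a2) (sub_nonneg.2 a5)
  calc u * (y - x) * (y' - x') = u * ((y - x) * (y' - x')) := by ring
    _ ≤ (Real.exp (B * L * (d - c)) * w) * ((y - x) * (y' - x')) :=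
        mul_le_mul_of_nonneg_right k3 hp
    _ = _ := by ring

theorem HasDist.congr {f g : ℝ → ℝ} {α β : ℝ} (h : HasDist f α β)
    (hfg : ∀ x, α ≤ x → x ≤ β → g x = f x) : HasDist g α β := by
  obtain ⟨K, hK, h⟩ := h
  refine ⟨K, hK, fun c d h1 h2 h3 x y x' y' a1 a2 a3 a4 a5 a6 => ?_⟩
  rw [hfg x (by linarith) (by linarith), hfg y (by linarith) (by linarith),
    hfg x' (by linarith) (by linarith), hfg y' (by linarith) (by linarith)]
  exact h c d h1 h2 h3 x y x' y' a1 a2 a3 a4 a5 a6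

/-- The algebraic configuration that obstructs smooth actions on an interval. -/
structure Config (Γ : Type*) [Group Γ] where
  A : Subgroup Γ
  M : Subgroup Γ
  a : Γ
  t : Γ
  s : Γ
  g : Γ
  v : Γ
  u : Γ
  hA : ∀ e ∈ A, ∀ e' ∈ A, Commute e e'
  hM : ∀ e ∈ M, ∀ e' ∈ M, Commute e e'
  ha : a ∈ A
  ht : t ∈ Subgroup.normalizer (A : Set Γ)
  hsA : s ∈ Subgroup.normalizer (A : Set Γ)
  hts : Commute t s
  hta : t * a * t⁻¹ = a ^ 2
  hg : g ∈ M
  hsM : s ∈ Subgroup.normalizer (M : Set Γ)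
  hv : v ∈ Subgroup.normalizer (M : Set Γ)
  hu : u ∈ Subgroup.normalizer (M : Set Γ)
  huv : Commute v u
  havg : ∀ e ∈ M, e ^ 2 = (v * e * v⁻¹) * (u * e * u⁻¹)
  hrel : (s⁻¹ * g * s) * (s * g * s⁻¹) * (v * g ^ 3 * v⁻¹) = 1
  hne : a * g ≠ g * a

theorem Config.action {Γ : Type*} [Group Γ] (C : Config Γ) (Λ : Γ →* Equiv.Perm ℝ) {α β : ℝ}
    (hmono : ∀ γ, StrictMono (Λ γ)) (hdist : ∀ γ, HasDist (Λ γ) α β)
    (hα : ∀ γ, Λ γ α = α) (hβ : ∀ γ, Λ γ β = β)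
    (hsm : ∀ γ, ContDiffOn ℝ ∞ (Λ γ) (Ioo α β)) {x : ℝ} (h1 : α ≤ x) (h2 : x ≤ β) :
    Λ (C.a * C.g) x = Λ (C.g * C.a) x := by
  let _ : MulAction Γ ℝ := MulAction.compHom ℝ Λ
  have H : NiceFix Γ α β := ⟨⟨hmono, hdist⟩, hα, hβ⟩
  exact obstruction H hsm C.hA C.hM C.ha C.ht C.hsA C.hts C.hta C.hg C.hsM C.hv C.hu C.huv C.havg
    C.hrel h1 h2

theorem Config.no_interval {Γ : Type*} [Group Γ] (C : Config Γ) :
    ¬ ∃ φ : Γ →* DiffInterval ⊤, Function.Injective φ := by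
  classical
  rintro ⟨φ, hφ⟩
  let Λ : Γ →* Equiv.Perm ℝ := Equiv.Perm.ofSubtype.comp ((DiffInterval ⊤).subtype.comp φ)
  have hin : ∀ γ (x : ℝ) (hx : x ∈ Icc (0 : ℝ) 1), Λ γ x = ((φ γ).1 ⟨x, hx⟩ : ℝ) := fun γ x hx =>
    Equiv.Perm.ofSubtype_apply_of_mem _ hx
  have hout : ∀ γ (x : ℝ), x ∉ Icc (0 : ℝ) 1 → Λ γ x = x := fun γ x hx =>
    Equiv.Perm.ofSubtype_apply_of_not_mem _ hx
  have hmono : ∀ γ, StrictMono (Λ γ) := by
    intro γ x y hxy
    by_cases hx : x ∈ Icc (0 : ℝ) 1 <;> by_cases hy : y ∈ Icc (0 : ℝ) 1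
    · rw [hin γ x hx, hin γ y hy]
      exact (φ γ).2.1 (show (⟨x, hx⟩ : Icc (0 : ℝ) 1) < ⟨y, hy⟩ from hxy)
    · rw [hin γ x hx, hout γ y hy]
      refine ((φ γ).1 ⟨x, hx⟩).2.2.trans_lt ?_
      by_contra hcon
      exact hy ⟨hx.1.trans hxy.le, not_lt.1 hcon⟩
    · rw [hout γ x hx, hin γ y hy]
      refine lt_of_lt_of_le ?_ ((φ γ).1 ⟨y, hy⟩).2.1
      by_contra hcon
      exact hx ⟨not_lt.1 hcon, hxy.le.trans hy.2⟩
    · rw [hout γ x hx, hout γ y hy]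
      exact hxy
  have hmem : ∀ γ x, x ∈ Icc (0 : ℝ) 1 → Λ γ x ∈ Icc (0 : ℝ) 1 := by
    intro γ x hx
    rw [hin γ x hx]
    exact ((φ γ).1 ⟨x, hx⟩).2
  have hinv : ∀ γ x, Λ γ (Λ γ⁻¹ x) = x := by
    intro γ x
    rw [← Equiv.Perm.mul_apply, ← map_mul, mul_inv_cancel, map_one, Equiv.Perm.one_apply]
  have h0 : ∀ γ, Λ γ 0 = 0 := by
    intro γ
    refine le_antisymm ?_ (hmem γ 0 ⟨le_rfl, zero_le_one⟩).1
    conv_rhs => rw [← hinv γ 0]
    exact (hmono γ).monotone (hmem γ⁻¹ 0 ⟨le_rfl, zero_le_one⟩).1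
  have h1 : ∀ γ, Λ γ 1 = 1 := by
    intro γ
    refine le_antisymm (hmem γ 1 ⟨zero_le_one, le_rfl⟩).2 ?_
    conv_lhs => rw [← hinv γ 1]
    exact (hmono γ).monotone (hmem γ⁻¹ 1 ⟨zero_le_one, le_rfl⟩).2
  have hsm : ∀ γ, ContDiffOn ℝ ∞ (Λ γ) (Icc 0 1) := by
    intro γ
    obtain ⟨F, hF, hF'⟩ := (φ γ).2.2.1
    refine hF.congr fun x hx => ?_
    rw [hin γ x hx, ← hF' ⟨x, hx⟩]
  have hdist : ∀ γ, HasDist (Λ γ) 0 1 := by
    intro γ
    obtain ⟨L, hL0, hL⟩ := lip_of_contDiffOn ((hsm γ⁻¹).of_le (by exact_mod_cast le_top))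
    refine hasDist_of_contDiffOn ((hsm γ).of_le two_le_infty) hL0
      fun x y a1 a2 a3 => ?_
    have := hL _ (hmem γ x ⟨a1, a2.trans a3⟩) _ (hmem γ y ⟨a1.trans a2, a3⟩)
    have e : ∀ x, Λ γ⁻¹ (Λ γ x) = x := fun x => by simp
    rwa [e, e, abs_of_nonneg (sub_nonneg.2 a2),
      abs_of_nonneg (sub_nonneg.2 ((hmono γ).monotone a2))] at this
  apply C.hne
  apply hφ
  apply Subtype.ext
  ext ⟨x, hx⟩
  have := C.action Λ hmono hdist h0 h1 (fun γ => (hsm γ).mono Ioo_subset_Icc_self) hx.1 hx.2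
  rwa [hin _ x hx, hin _ x hx] at this

/-- The group of smooth lifts. -/
def Lifts : Subgroup (Equiv.Perm ℝ) where
  carrier := {F | StrictMono F ∧ ContDiff ℝ ∞ F ∧ ContDiff ℝ ∞ F.symm ∧
    ∀ x : ℝ, F (x + 1) = F x + 1}
  mul_mem' := by
    rintro F G ⟨hF, hF1, hF2, hF3⟩ ⟨hG, hG1, hG2, hG3⟩
    refine ⟨hF.comp hG, hF1.comp hG1, hG2.comp hF2, ?_⟩
    intro x
    simp only [Equiv.Perm.mul_apply, hG3, hF3]
  one_mem' := ⟨strictMono_id, contDiff_id, contDiff_id, fun _ => rfl⟩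
  inv_mem' := by
    rintro F ⟨hF, hF1, hF2, hF3⟩
    refine ⟨?_, hF2, hF1, ?_⟩
    · intro x y hxy
      apply hF.lt_iff_lt.mp
      simpa using hxy
    · intro x
      apply F.injective
      rw [hF3]
      simp

/-- `F` is a lift of `f`. -/
def IsLift (f : Equiv.Perm (AddCircle (1 : ℝ))) (F : Lifts) : Prop :=
  ∀ x : ℝ, f (x : AddCircle (1 : ℝ)) = ((F.1 x : ℝ) : AddCircle (1 : ℝ))

theorem exists_isLift (f : DiffCircle ⊤) : ∃ F, IsLift f.1 F := by
  obtain ⟨F, h1, h2, h3, h4, h5⟩ := f.2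
  exact ⟨⟨F, h1, h2, h3, h4⟩, h5⟩

theorem IsLift.mul {f g : Equiv.Perm (AddCircle (1 : ℝ))} {F G : Lifts} (hF : IsLift f F)
    (hG : IsLift g G) : IsLift (f * g) (F * G) := by
  intro x
  rw [Equiv.Perm.mul_apply, hG, hF]
  rfl

theorem IsLift.one : IsLift 1 1 := fun _ => rfl

theorem IsLift.inv {f : Equiv.Perm (AddCircle (1 : ℝ))} {F : Lifts} (hF : IsLift f F) :
    IsLift f⁻¹ F⁻¹ := by
  intro x
  apply f.injective
  rw [hF]
  simp

theorem IsLift.pow {f : Equiv.Perm (AddCircle (1 : ℝ))} {F : Lifts} (hF : IsLift f F) (n : ℕ) :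
    IsLift (f ^ n) (F ^ n) := by
  induction n with
  | zero => simpa using IsLift.one
  | succ n ih => rw [pow_succ, pow_succ]; exact ih.mul hF

/-- The lift as a degree one map. -/
def toCDL : Lifts →* CircleDeg1Lift where
  toFun F := ⟨⟨F.1, F.2.1.monotone⟩, F.2.2.2.2⟩
  map_one' := rfl
  map_mul' _ _ := rfl

theorem Lifts.add_int (F : Lifts) (x : ℝ) (n : ℤ) : F.1 (x + n) = F.1 x + n :=
  (toCDL F).map_add_int x n

/-- Integer translations. -/
def transl (n : ℤ) : Lifts :=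
  ⟨Equiv.addRight (n : ℝ), fun _ _ h => by simpa using h, contDiff_id.add contDiff_const,
    contDiff_id.add contDiff_const, fun x => by simp; ring⟩

theorem transl_apply (n : ℤ) (x : ℝ) : (transl n).1 x = x + n := rfl

theorem coe_add_int (x : ℝ) (n : ℤ) : ((x + n : ℝ) : AddCircle (1 : ℝ)) = x := by
  rw [AddCircle.coe_add, add_eq_left, AddCircle.coe_eq_zero_iff]
  exact ⟨n, by simp⟩

theorem exists_int_of_coe_eq {x y : ℝ} (h : (x : AddCircle (1 : ℝ)) = y) : ∃ n : ℤ, x = y + n := by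
  rw [← sub_eq_zero, ← AddCircle.coe_sub, AddCircle.coe_eq_zero_iff] at h
  obtain ⟨n, hn⟩ := h
  exact ⟨n, by simp at hn; linarith⟩

theorem isLift_transl (n : ℤ) : IsLift 1 (transl n) := fun x => (coe_add_int x n).symm

theorem transl_commute (n : ℤ) (F : Lifts) : Commute (transl n) F := by
  apply Subtype.ext
  ext x
  exact (Lifts.add_int F x n).symm

theorem IsLift.eq_of_eq {f : Equiv.Perm (AddCircle (1 : ℝ))} {F G : Lifts} (hF : IsLift f F)
    (hG : IsLift f G) {c : ℝ} (h : F.1 c = G.1 c) : F = G := by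
  have : Fact ((0 : ℝ) < 1) := ⟨one_pos⟩
  have key : ∀ x ∈ Ico c (c + 1), F.1 x = G.1 x := by
    intro x hx
    apply (AddCircle.coe_eq_coe_iff_of_mem_Ico (p := (1 : ℝ)) (a := F.1 c) ?_ ?_).1
    · rw [← hF, hG]
    · exact ⟨F.2.1.monotone hx.1, by rw [← F.2.2.2.2]; exact F.2.1 hx.2⟩
    · rw [h]
      exact ⟨G.2.1.monotone hx.1, by rw [← G.2.2.2.2]; exact G.2.1 hx.2⟩
  apply Subtype.ext
  ext x
  have h1 := key (x - ⌊x - c⌋) ⟨by linarith [Int.floor_le (x - c)],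
    by linarith [Int.lt_floor_add_one (x - c)]⟩
  have e : x = (x - ⌊x - c⌋) + (⌊x - c⌋ : ℤ) := by ring
  rw [e, Lifts.add_int, Lifts.add_int, h1]

theorem IsLift.exists_transl {f : Equiv.Perm (AddCircle (1 : ℝ))} {F G : Lifts} (hF : IsLift f F)
    (hG : IsLift f G) : ∃ n : ℤ, F = transl n * G := by
  obtain ⟨n, hn⟩ := exists_int_of_coe_eq ((hF 0).symm.trans (hG 0))
  refine ⟨n, hF.eq_of_eq (c := 0) ?_ hn⟩
  simpa using (isLift_transl n).mul hG

/-- Translation number of a lift. -/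
noncomputable def rot (F : Lifts) : ℝ := (toCDL F).translationNumber

theorem rot_mul {F G : Lifts} (h : Commute F G) : rot (F * G) = rot F + rot G := by
  simp only [rot, map_mul]
  exact CircleDeg1Lift.translationNumber_mul_of_commute (h.map toCDL)

theorem rot_conj (F G : Lifts) : rot (G * F * G⁻¹) = rot F := by
  symm
  apply CircleDeg1Lift.translationNumber_eq_of_semiconjBy (f := toCDL G)
  apply SemiconjBy.map
  simp [SemiconjBy]

theorem rot_transl (n : ℤ) : rot (transl n) = n :=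
  CircleDeg1Lift.translationNumber_of_eq_add_int _ (x := 0) rfl

theorem rot_pow (F : Lifts) (n : ℕ) : rot (F ^ n) = n * rot F := by
  simp only [rot, map_pow]
  exact CircleDeg1Lift.translationNumber_pow _ n

theorem rot_inv (F : Lifts) : rot F⁻¹ = - rot F := by
  have := rot_mul (Commute.refl F).inv_right
  rw [mul_inv_cancel, ← pow_zero F, rot_pow] at this
  simp only [Nat.cast_zero, zero_mul] at this
  linarith

theorem IsLift.rot_sub {f : Equiv.Perm (AddCircle (1 : ℝ))} {F G : Lifts} (hF : IsLift f F)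
    (hG : IsLift f G) : ∃ n : ℤ, rot F = n + rot G := by
  obtain ⟨n, rfl⟩ := hF.exists_transl hG
  exact ⟨n, by rw [rot_mul (transl_commute n G), rot_transl]⟩

theorem IsLift.commute {f g : Equiv.Perm (AddCircle (1 : ℝ))} {F G : Lifts} (hF : IsLift f F)
    (hG : IsLift g G) (h : Commute f g) : Commute F G := by
  have h1 : IsLift g (F * G * F⁻¹) := by
    have := (hF.mul hG).mul hF.inv
    rwa [h.eq, mul_inv_cancel_right] at this
  obtain ⟨n, hn⟩ := h1.exists_transl hG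
  have h2 := rot_conj G F
  rw [hn, rot_mul (transl_commute n G), rot_transl] at h2
  have h3 : n = 0 := by exact_mod_cast (by linarith : (n : ℝ) = 0)
  have h4 : transl 0 = 1 := by
    apply Subtype.ext
    ext x
    simp [transl_apply]
  rw [h3, h4, one_mul, mul_inv_eq_iff_eq_mul] at hn
  exact hn

/-- A lift with integer translation number can be normalised to have a fixed point. -/
theorem IsLift.exists_fixed {f : Equiv.Perm (AddCircle (1 : ℝ))} {F : Lifts} (hF : IsLift f F)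
    {n : ℤ} (hn : rot F = n) : ∃ G : Lifts, IsLift f G ∧ ∃ x, G.1 x = x := by
  obtain ⟨x, hx⟩ := (CircleDeg1Lift.translationNumber_eq_int_iff (toCDL F)
    F.2.2.1.continuous).1 hn
  refine ⟨transl (-n) * F, by simpa using (isLift_transl (-n)).mul hF, x, ?_⟩
  have hx' : F.1 x = x + n := hx
  change F.1 x + ((-n : ℤ) : ℝ) = x
  rw [hx']
  simp

/-- `f` has a lift with a fixed point. -/
def HasFix (f : DiffCircle ⊤) : Prop := ∃ G : Lifts, IsLift f.1 G ∧ ∃ x, G.1 x = x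

theorem hasFix_of_sq {a t : DiffCircle ⊤} (h : t * a * t⁻¹ = a ^ 2) : HasFix a := by
  obtain ⟨A, hA⟩ := exists_isLift a
  obtain ⟨T, hT⟩ := exists_isLift t
  have h1 := (hT.mul hA).mul hT.inv
  have h2 := hA.pow 2
  have e : t.1 * a.1 * t.1⁻¹ = a.1 ^ 2 := congrArg Subtype.val h
  rw [e] at h1
  obtain ⟨n, hn⟩ := h1.rot_sub h2
  rw [rot_conj, rot_pow] at hn
  refine hA.exists_fixed (n := -n) ?_
  push_cast at hn ⊢
  linarith

theorem hasFix_of_conj {x t : DiffCircle ⊤} (h : Commute x (t * x * t⁻¹)) :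
    HasFix (x * (t * x * t⁻¹)⁻¹) := by
  obtain ⟨X, hX⟩ := exists_isLift x
  obtain ⟨T, hT⟩ := exists_isLift t
  have h1 := (hT.mul hX).mul hT.inv
  have h2 := hX.commute h1 (h.map (DiffCircle ⊤).subtype)
  refine (hX.mul h1.inv).exists_fixed (n := 0) ?_
  rw [rot_mul h2.inv_right, rot_inv, rot_conj]
  simp

theorem hasFix_of_rel {g s v : DiffCircle ⊤} (h12 : Commute (s⁻¹ * g * s) (s * g * s⁻¹))
    (h3 : Commute ((s⁻¹ * g * s) * (s * g * s⁻¹)) (v * g ^ 3 * v⁻¹))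
    (hrel : (s⁻¹ * g * s) * (s * g * s⁻¹) * (v * g ^ 3 * v⁻¹) = 1) : HasFix (g ^ 5) := by
  obtain ⟨G, hG⟩ := exists_isLift g
  obtain ⟨S, hS⟩ := exists_isLift s
  obtain ⟨V, hV⟩ := exists_isLift v
  have h1 := (hS.inv.mul hG).mul hS
  have h2 := (hS.mul hG).mul hS.inv
  have h4 := (hV.mul (hG.pow 3)).mul hV.inv
  have c1 := h1.commute h2 (h12.map (DiffCircle ⊤).subtype)
  have c2 := (h1.mul h2).commute h4 (h3.map (DiffCircle ⊤).subtype)
  have h5 := (h1.mul h2).mul h4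
  have e : (s.1⁻¹ * g.1 * s.1) * (s.1 * g.1 * s.1⁻¹) * (v.1 * g.1 ^ 3 * v.1⁻¹) = 1 :=
    congrArg Subtype.val hrel
  rw [e] at h5
  obtain ⟨n, hn⟩ := h5.rot_sub (isLift_transl 0)
  have e2 : rot (S⁻¹ * G * S) = rot G := by simpa using rot_conj G S⁻¹
  rw [rot_mul c2, rot_mul c1, e2, rot_conj, rot_conj, rot_pow, rot_transl] at hn
  refine (hG.pow 5).exists_fixed (n := n) ?_
  rw [rot_pow]
  push_cast at hn ⊢
  linarith

theorem Lifts.hasDist (F : Lifts) (α β : ℝ) : HasDist F.1 α β := by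
  obtain ⟨L, hL0, hL⟩ := lip_of_contDiffOn (α := F.1 α) (β := F.1 β)
    (F.2.2.2.1.of_le (by exact_mod_cast le_top)).contDiffOn
  refine hasDist_of_contDiffOn (F.2.2.1.of_le two_le_infty).contDiffOn hL0
    fun x y a1 a2 a3 => ?_
  have hm := F.2.1.monotone
  have := hL _ ⟨hm a1, hm (a2.trans a3)⟩ _ ⟨hm (a1.trans a2), hm a3⟩
  rwa [Equiv.symm_apply_apply, Equiv.symm_apply_apply, abs_of_nonneg (sub_nonneg.2 a2),
    abs_of_nonneg (sub_nonneg.2 (hm a2))] at this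

theorem Lifts.nice (α β : ℝ) : Nice Lifts α β := ⟨fun F => F.2.1, fun F => Lifts.hasDist F α β⟩

theorem Lifts.exists_fixed_le {F : Lifts} {x : ℝ} (hx : F.1 x = x) (y : ℝ) :
    ∃ z, z ≤ y ∧ F.1 z = z :=
  ⟨x + (⌊y - x⌋ : ℤ), by linarith [Int.floor_le (y - x)], by rw [Lifts.add_int, hx]⟩

theorem Lifts.exists_fixed_ge {F : Lifts} {x : ℝ} (hx : F.1 x = x) (y : ℝ) :
    ∃ z, y ≤ z ∧ F.1 z = z :=
  ⟨x + (⌈y - x⌉ : ℤ), by linarith [Int.le_ceil (y - x)], by rw [Lifts.add_int, hx]⟩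

/-- All elements with a fixed point that commute with a nontrivial element with a fixed point have a
common fixed point. -/
theorem common_fixed {z : DiffCircle ⊤} (hz : z ≠ 1) (hz' : HasFix z) :
    ∃ c : ℝ, ∀ x : DiffCircle ⊤, HasFix x → Commute x z → x.1 (c : AddCircle (1 : ℝ)) = c := by
  obtain ⟨Z, hZ, z₀, hz₀⟩ := hz'
  obtain ⟨x₀, hx₀⟩ : ∃ x₀, Z.1 x₀ ≠ x₀ := by
    by_contra hcon
    push Not at hcon
    apply hz
    apply Subtype.ext
    ext y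
    induction y using QuotientAddGroup.induction_on with
    | H y => exact (hZ y).trans (by rw [hcon]; rfl)
  obtain ⟨Z', hZ', hpos⟩ := (Lifts.nice 0 0).exists_pos_dir (f := Z) hx₀
  have hZ'fix : Z'.1 z₀ = z₀ := by
    rcases hZ' with rfl | rfl
    · exact hz₀
    · exact Nice.inv_fixed (e := Z) hz₀
  obtain ⟨c₀, hc₀, hc₀'⟩ := Lifts.exists_fixed_le hZ'fix x₀
  obtain ⟨d₀, hd₀, hd₀'⟩ := Lifts.exists_fixed_ge hZ'fix x₀
  obtain ⟨c, d, -, hc2, hd1, -, hc, -, hpos'⟩ :=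
    (Lifts.nice 0 0).exists_comp (e := Z') hc₀' hd₀' hc₀ hd₀ hpos
  refine ⟨c, ?_⟩
  rintro x ⟨X, hX, y₀, hy₀⟩ hcomm
  have hXZ : Commute X Z := hX.commute hZ (hcomm.map (DiffCircle ⊤).subtype)
  suffices h : X.1 c = c by rw [hX, h]
  by_contra hne
  obtain ⟨X', hX', hlt⟩ := (Lifts.nice 0 0).exists_pos_dir (f := X) hne
  have hX'fix : X'.1 y₀ = y₀ := by
    rcases hX' with rfl | rfl
    · exact hy₀
    · exact Nice.inv_fixed (e := X) hy₀
  have hcomm' : Commute X' Z' := by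
    rcases hX' with rfl | rfl <;> rcases hZ' with rfl | rfl
    · exact hXZ
    · exact hXZ.inv_right
    · exact hXZ.inv_left
    · exact hXZ.inv_inv
  obtain ⟨y₁, hy₁, hy₁'⟩ := Lifts.exists_fixed_le hX'fix c
  have hm : c < min (X' • c) x₀ := lt_min hlt hc2
  have := (Lifts.nice y₁ (X' • c)).kopell (f := X') (h := Z') le_rfl hy₁' hy₁ hlt le_rfl hcomm' hc
    hm.le (min_le_left _ _)
  have h3 := hpos' _ hm ((min_le_right _ _).trans_lt hd1)
  rw [this] at h3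
  exact lt_irrefl _ h3

theorem Config.no_circle_of_fixed {Γ : Type*} [Group Γ] (C : Config Γ) (φ : Γ →* DiffCircle ⊤)
    (hφ : Function.Injective φ) (c : ℝ) (hc : ∀ γ, (φ γ).1 (c : AddCircle (1 : ℝ)) = c) : False := by
  have hex : ∀ γ, ∃ F : Lifts, IsLift (φ γ).1 F ∧ F.1 c = c := by
    intro γ
    obtain ⟨F, hF⟩ := exists_isLift (φ γ)
    obtain ⟨n, hn⟩ := exists_int_of_coe_eq ((hF c).symm.trans (hc γ))
    refine ⟨transl (-n) * F, by simpa using (isLift_transl (-n)).mul hF, ?_⟩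
    change F.1 c + ((-n : ℤ) : ℝ) = c
    rw [hn]
    simp
  choose L hL hLc using hex
  let Λ₀ : Γ →* Lifts := MonoidHom.mk' L (by
    intro γ δ
    refine (hL (γ * δ)).eq_of_eq (c := c) ?_ ?_
    · rw [map_mul]
      exact (hL γ).mul (hL δ)
    · rw [hLc]
      change c = (L γ).1 ((L δ).1 c)
      rw [hLc, hLc])
  let Λ : Γ →* Equiv.Perm ℝ := Lifts.subtype.comp Λ₀
  have hact := fun x h1 h2 => C.action Λ (α := c) (β := c + 1) (fun γ => (L γ).2.1)
    (fun γ => Lifts.hasDist (L γ) _ _) hLc (fun γ => ((L γ).2.2.2.2 c).trans (by rw [hLc]))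
    (fun γ => (L γ).2.2.1.contDiffOn) (x := x) h1 h2
  apply C.hne
  apply hφ
  apply Subtype.ext
  ext y
  induction y using QuotientAddGroup.induction_on with
  | H y =>
    have e : y = (y - ⌊y - c⌋) + (⌊y - c⌋ : ℤ) := by ring
    have h1 := hact (y - ⌊y - c⌋) (by linarith [Int.floor_le (y - c)])
      (by linarith [Int.lt_floor_add_one (y - c)])
    rw [e]
    refine (hL _ _).trans (Eq.trans ?_ (hL _ _).symm)
    rw [Lifts.add_int, Lifts.add_int]
    exact congrArg (fun w : ℝ => ((w + (⌊y - c⌋ : ℤ) : ℝ) : AddCircle (1 : ℝ))) h1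

end Pool.Agent.MP_84d7a8_al
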