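import Mathlib
import Pool.Agent.MP_84d7a8_al.Generic
import Pool.Agent.MP_84d7a8_al.Mg.NoSmooth
import Pool.Agent.MP_84d7a8_al.Series
import Pool.Agent.MP_84d7a8_al.Pert

-- part MP_84d7a8_al.Chart
section

/-!
A chart of the line onto `(0,1)` making maps with good ends flat at the endpoints.
-/

namespace Pool.Agent.MP_84d7a8_al

open Set Filter Topology Real
open scoped ContDiff

/-- The chart from the line to `(0,1)`. -/
noncomputable def psi (x : ℝ) : ℝ := 1 / 2 + arctan (arsinh (arsinh x)) / π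

/-- The inverse chart. -/
noncomputable def psiInv (u : ℝ) : ℝ := sinh (sinh (tan (π * (u - 1 / 2))))

theorem psi_mem (x : ℝ) : psi x ∈ Ioo (0 : ℝ) 1 := by
  have h := arctan_mem_Ioo (arsinh (arsinh x))
  have h1 : -(1 / 2) < arctan (arsinh (arsinh x)) / π := by
    rw [lt_div_iff₀ pi_pos]; linarith [h.1]
  have h2 : arctan (arsinh (arsinh x)) / π < 1 / 2 := by
    rw [div_lt_iff₀ pi_pos]; linarith [h.2]
  unfold psi
  constructor <;> linarith

theorem psiInv_psi (x : ℝ) : psiInv (psi x) = x := by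
  unfold psi psiInv
  rw [add_sub_cancel_left, mul_div_cancel₀ _ pi_pos.ne', tan_arctan, sinh_arsinh, sinh_arsinh]

theorem psi_psiInv {u : ℝ} (hu : u ∈ Ioo (0 : ℝ) 1) : psi (psiInv u) = u := by
  unfold psi psiInv
  rw [arsinh_sinh, arsinh_sinh, arctan_tan, mul_div_cancel_left₀ _ pi_pos.ne']
  · ring
  · nlinarith [hu.1, pi_pos]
  · nlinarith [hu.2, pi_pos]

theorem psi_strictMono : StrictMono psi := by
  intro x y h
  unfold psi
  have := arctan_strictMono (arsinh_strictMono (arsinh_strictMono h))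
  have := div_lt_div_of_pos_right this pi_pos
  linarith

theorem psiInv_lt {u w : ℝ} (hu : u ∈ Ioo (0 : ℝ) 1) (hw : w ∈ Ioo (0 : ℝ) 1) (h : u < w) :
    psiInv u < psiInv w := by
  rwa [← psi_strictMono.lt_iff_lt, psi_psiInv hu, psi_psiInv hw]

theorem psi_neg (x : ℝ) : psi (-x) = 1 - psi x := by
  unfold psi
  rw [arsinh_neg, arsinh_neg, arctan_neg]
  ring

theorem psiInv_one_sub (u : ℝ) : psiInv (1 - u) = -psiInv u := by
  unfold psiInv
  rw [← sinh_neg, ← sinh_neg, ← tan_neg]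
  congr 3
  ring

/-- The chart as an equivalence. -/
noncomputable def psiEquiv : ℝ ≃ {u : ℝ // u ∈ Ioo (0 : ℝ) 1} where
  toFun x := ⟨psi x, psi_mem x⟩
  invFun u := psiInv u
  left_inv := psiInv_psi
  right_inv u := Subtype.ext (psi_psiInv u.2)

open Classical in
/-- Transport of a map of the line to `(0,1)`, extended by the identity. -/
noncomputable def extFun (f : ℝ → ℝ) (u : ℝ) : ℝ :=
  if u ∈ Ioo (0 : ℝ) 1 then psi (f (psiInv u)) else u

open Classical in
/-- Transport as a group homomorphism. -/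
noncomputable def ext : Equiv.Perm ℝ →* Equiv.Perm ℝ := Equiv.Perm.extendDomainHom psiEquiv

theorem ext_injective : Function.Injective ext := by
  classical
  exact Equiv.Perm.extendDomainHom_injective psiEquiv

theorem ext_apply (f : Equiv.Perm ℝ) (u : ℝ) : ext f u = extFun f u := by
  classical
  unfold extFun
  split_ifs with h
  · exact Equiv.Perm.extendDomain_apply_subtype f psiEquiv h
  · exact Equiv.Perm.extendDomain_apply_not_subtype f psiEquiv h

theorem extFun_of_mem (f : ℝ → ℝ) {u : ℝ} (h : u ∈ Ioo (0 : ℝ) 1) :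
    extFun f u = psi (f (psiInv u)) := if_pos h

theorem extFun_of_not_mem (f : ℝ → ℝ) {u : ℝ} (h : u ∉ Ioo (0 : ℝ) 1) : extFun f u = u := if_neg h

theorem extFun_strictMono {f : ℝ → ℝ} (hf : StrictMono f) : StrictMono (extFun f) := by
  intro x y hxy
  by_cases hx : x ∈ Ioo (0 : ℝ) 1 <;> by_cases hy : y ∈ Ioo (0 : ℝ) 1
  · rw [extFun_of_mem f hx, extFun_of_mem f hy]
    exact psi_strictMono (hf (psiInv_lt hx hy hxy))
  · rw [extFun_of_mem f hx, extFun_of_not_mem f hy]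
    refine (psi_mem _).2.trans_le ?_
    by_contra hcon
    exact hy ⟨hx.1.trans hxy, not_le.1 hcon⟩
  · rw [extFun_of_not_mem f hx, extFun_of_mem f hy]
    refine lt_of_le_of_lt ?_ (psi_mem _).1
    by_contra hcon
    exact hx ⟨not_le.1 hcon, hxy.trans hy.2⟩
  · rw [extFun_of_not_mem f hx, extFun_of_not_mem f hy]
    exact hxy

theorem extFun_one_sub (f : ℝ → ℝ) (u : ℝ) :
    extFun f u = 1 - extFun (fun x => -f (-x)) (1 - u) := by
  by_cases h : u ∈ Ioo (0 : ℝ) 1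
  · have h' : 1 - u ∈ Ioo (0 : ℝ) 1 := ⟨by linarith [h.2], by linarith [h.1]⟩
    rw [extFun_of_mem _ h, extFun_of_mem _ h', psi_neg, psiInv_one_sub, neg_neg]
    ring
  · have h' : 1 - u ∉ Ioo (0 : ℝ) 1 := fun h' => h ⟨by linarith [h'.2], by linarith [h'.1]⟩
    rw [extFun_of_not_mem _ h, extFun_of_not_mem _ h']
    ring

variable {E : Type*} [NormedAddCommGroup E] [NormedSpace ℝ E] {N : ℕ∞}

/-- `f ε x / x` is a `C^N` function `Q` of `(ε, 1/x)` near `x = +∞`, with a positive limit. -/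
structure GoodEndWith (N : ℕ∞) (f : E → ℝ → ℝ) (ε₀ : E) (Q : E × ℝ → ℝ) : Prop where
  smooth : ContDiffAt ℝ N Q (ε₀, 0)
  pos : 0 < Q (ε₀, 0)
  eq : ∀ᶠ p in 𝓝 (ε₀, (0 : ℝ)), 0 < p.2 → f p.1 p.2⁻¹ = Q p * p.2⁻¹

theorem GoodEndWith.step {f : E → ℝ → ℝ} {ε₀ : E} {Q : E × ℝ → ℝ} (h : GoodEndWith N f ε₀ Q) :
    ∃ Q₁ : E × ℝ → ℝ, GoodEndWith N (fun ε ζ => arsinh (f ε (sinh ζ))) ε₀ Q₁ ∧
      (∀ ε, Q₁ (ε, 0) = 1) ∧ ((∀ ε, Q (ε, 0) = 1) → ∀ ε η, η ≤ 0 → Q₁ (ε, η) = 1) := by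
  let w : ℝ → ℝ := fun e => 2 * e / (1 - e ^ 2)
  let G : ℝ → ℝ := expNegInvGlue
  let m : E × ℝ → E × ℝ := fun p => (p.1, w (G p.2))
  have hG : ContDiff ℝ N G := expNegInvGlue.contDiff
  have hG0 : G 0 = 0 := expNegInvGlue.zero
  have hG2 : ContDiffAt ℝ N (fun p : E × ℝ => G p.2) (ε₀, 0) :=
    (hG.comp contDiff_snd).contDiffAt
  have hw : ContDiffAt ℝ N (fun p : E × ℝ => w (G p.2)) (ε₀, 0) := by
    apply ContDiffAt.div
    · exact contDiffAt_const.mul hG2
    · exact contDiffAt_const.sub (hG2.pow 2)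
    · simp [hG0]
  have hm : ContDiffAt ℝ N m (ε₀, 0) := contDiffAt_fst.prodMk hw
  have hm0 : m (ε₀, 0) = (ε₀, 0) := by simp [m, w, hG0]
  have hQm : ContDiffAt ℝ N (fun p => Q (m p)) (ε₀, 0) :=
    ContDiffAt.comp (ε₀, 0) (by rw [hm0]; exact h.smooth) hm
  have hQm0 : Q (m (ε₀, 0)) ≠ 0 := by rw [hm0]; exact h.pos.ne'
  let L : E × ℝ → ℝ := fun p => log ((1 - G p.2 ^ 2) / 2) + log (Q (m p)) +
    log (1 + √(1 + (w (G p.2) / Q (m p)) ^ 2))
  have hL : ContDiffAt ℝ N L (ε₀, 0) := by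
    refine ContDiffAt.add (ContDiffAt.add ?_ (hQm.log hQm0)) ?_
    · refine ContDiffAt.log ((contDiffAt_const.sub (hG2.pow 2)).div_const 2) ?_
      simp [hG0]
    · refine ContDiffAt.log (contDiffAt_const.add (ContDiffAt.sqrt
        (contDiffAt_const.add ((hw.div hQm hQm0).pow 2)) ?_)) ?_
      · positivity
      · positivity
  refine ⟨fun p => 1 + p.2 * L p, ⟨contDiffAt_const.add (contDiffAt_snd.mul hL), by simp, ?_⟩,
    fun ε => by simp, ?_⟩
  · have hmt : Tendsto m (𝓝 (ε₀, 0)) (𝓝 (ε₀, 0)) := by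
      have := hm.continuousAt.tendsto
      rwa [hm0] at this
    have hpos : ∀ᶠ p in 𝓝 (ε₀, (0 : ℝ)), 0 < Q p :=
      h.smooth.continuousAt.eventually (lt_mem_nhds h.pos)
    filter_upwards [hmt.eventually h.eq, hmt.eventually hpos] with p hp1 hp2 hp
    have he : G p.2 = exp (-p.2⁻¹) := by simp [G, expNegInvGlue, not_le.2 hp]
    set e := G p.2 with hedef
    have he0 : 0 < e := by rw [he]; exact exp_pos _
    have he1 : e < 1 := by
      rw [he]
      exact exp_lt_one_iff.2 (by simpa using hp)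
    have h1e : 0 < 1 - e ^ 2 := by nlinarith
    have hw0 : 0 < w e := by simp only [w]; positivity
    have hs : sinh p.2⁻¹ = (w e)⁻¹ := by
      have e1 : exp p.2⁻¹ = e⁻¹ := by rw [he, exp_neg, inv_inv]
      rw [sinh_eq, ← he, e1]
      simp only [w]
      field_simp
    have hf : f p.1 (w e)⁻¹ = Q (p.1, w e) * (w e)⁻¹ := hp1 hw0
    replace hp2 : 0 < Q (p.1, w e) := hp2
    simp only [hs, hf, L, m, ← hedef]
    clear hp1
    set q := Q (p.1, w e)
    have hX : 0 < q * (w e)⁻¹ := by positivity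
    have e2 : q * (w e)⁻¹ + √(1 + (q * (w e)⁻¹) ^ 2) =
        (q * (w e)⁻¹) * (1 + √(1 + (w e / q) ^ 2)) := by
      have : 1 + (q * (w e)⁻¹) ^ 2 = (q * (w e)⁻¹) ^ 2 * (1 + (w e / q) ^ 2) := by
        field_simp
        ring
      rw [this, sqrt_mul (sq_nonneg _), sqrt_sq hX.le]
      ring
    have e3 : (w e)⁻¹ = ((1 - e ^ 2) / 2) * e⁻¹ := by
      simp only [w]
      field_simp
    have e4 : log e⁻¹ = p.2⁻¹ := by rw [log_inv, he, log_exp, neg_neg]
    rw [arsinh, e2, log_mul hX.ne' (by positivity), log_mul hp2.ne' (by positivity), e3,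
      log_mul (by positivity) (by positivity), e4]
    field_simp
    ring
  · intro hQ ε η hη
    have hG' : G η = 0 := expNegInvGlue.zero_of_nonpos hη
    have : L (ε, η) = 0 := by
      simp only [L, m, w, hG']
      norm_num
      rw [show (1 / 2 : ℝ) = 2⁻¹ by norm_num, log_inv, hQ]
      simp
    simp [this]

theorem GoodEndWith.contDiffAt_extFun {f : E → ℝ → ℝ} {ε₀ : E} {Q : E × ℝ → ℝ}
    (h : GoodEndWith N f ε₀ Q) :
    ContDiffAt ℝ N (fun p : E × ℝ => extFun (f p.1) p.2) (ε₀, 1) := by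
  obtain ⟨Q₁, h₁, hQ₁, -⟩ := h.step
  obtain ⟨Q₂, h₂, hQ₂, hQ₂'⟩ := h₁.step
  replace hQ₂' := hQ₂' hQ₁
  let η : ℝ → ℝ := fun u => tan (π * (1 - u))
  let m : E × ℝ → E × ℝ := fun p => (p.1, η p.2)
  have hη : ContDiffAt ℝ N (fun p : E × ℝ => η p.2) (ε₀, 1) := by
    refine ContDiffAt.comp (g := tan) (ε₀, 1) (contDiffAt_tan.2 (by simp)) ?_
    exact contDiffAt_const.mul (contDiffAt_const.sub contDiffAt_snd)
  have hm : ContDiffAt ℝ N m (ε₀, 1) := contDiffAt_fst.prodMk hη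
  have hm0 : m (ε₀, 1) = (ε₀, 0) := by simp [m, η]
  have hQm : ContDiffAt ℝ N (fun p => Q₂ (m p)) (ε₀, 1) :=
    ContDiffAt.comp (ε₀, 1) (by rw [hm0]; exact h₂.smooth) hm
  have hQm0 : Q₂ (m (ε₀, 1)) ≠ 0 := by rw [hm0]; exact h₂.pos.ne'
  have hΞ : ContDiffAt ℝ N (fun p : E × ℝ => 1 - arctan (η p.2 / Q₂ (m p)) / π) (ε₀, 1) :=
    contDiffAt_const.sub
      ((contDiff_arctan.contDiffAt.comp (ε₀, 1) (hη.div hQm hQm0)).div_const π)
  refine hΞ.congr_of_eventuallyEq ?_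
  have hmt : Tendsto m (𝓝 (ε₀, 1)) (𝓝 (ε₀, 0)) := by
    have := hm.continuousAt.tendsto
    rwa [hm0] at this
  have hpos : ∀ᶠ p in 𝓝 (ε₀, (0 : ℝ)), 0 < Q₂ p :=
    h₂.smooth.continuousAt.eventually (lt_mem_nhds h₂.pos)
  have hI : ∀ᶠ p : E × ℝ in 𝓝 (ε₀, 1), p.2 ∈ Ioo (1 / 2 : ℝ) (3 / 2) :=
    continuousAt_snd.eventually (Ioo_mem_nhds (by norm_num) (by norm_num))
  filter_upwards [hmt.eventually h₂.eq, hmt.eventually hpos, hI] with p hp1 hp2 hp
  rcases lt_or_ge p.2 1 with hu | hu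
  · have hu' : p.2 ∈ Ioo (0 : ℝ) 1 := ⟨by linarith [hp.1], hu⟩
    have hη0 : 0 < η p.2 := tan_pos_of_pos_of_lt_pi_div_two (by nlinarith [pi_pos])
      (by nlinarith [pi_pos, hp.1])
    have ht : tan (π * (p.2 - 1 / 2)) = (η p.2)⁻¹ := by
      rw [← tan_pi_div_two_sub]
      congr 1
      ring
    have hf := hp1 hη0
    simp only [m] at hf hp2
    rw [extFun_of_mem _ hu', psi, psiInv, ht, hf]
    simp only [m]
    rw [← div_eq_mul_inv, ← inv_div (η p.2), arctan_inv_of_pos (div_pos hη0 hp2)]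
    field_simp
    ring
  · have hη0 : η p.2 ≤ 0 := tan_nonpos_of_nonpos_of_neg_pi_div_two_le (by nlinarith [pi_pos])
      (by nlinarith [pi_pos, hp.2])
    rw [extFun_of_not_mem _ (fun h' => absurd h'.2 (not_lt.2 hu))]
    simp only [m]
    rw [hQ₂' _ _ hη0, div_one, arctan_tan (by nlinarith [pi_pos, hp.2]) (by nlinarith [pi_pos]),
      mul_div_cancel_left₀ _ pi_pos.ne']
    ring

theorem contDiff_psi : ContDiff ℝ N psi :=
  contDiff_const.add
    ((contDiff_arctan.comp (contDiff_arsinh.comp contDiff_arsinh)).div_const π)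

theorem contDiffAt_psiInv {u : ℝ} (hu : u ∈ Ioo (0 : ℝ) 1) : ContDiffAt ℝ N psiInv u := by
  refine contDiff_sinh.contDiffAt.comp u (contDiff_sinh.contDiffAt.comp u ?_)
  refine ContDiffAt.comp (g := tan) u (contDiffAt_tan.2 ?_) ?_
  · exact (cos_pos_of_mem_Ioo ⟨by nlinarith [pi_pos, hu.1], by nlinarith [pi_pos, hu.2]⟩).ne'
  · exact contDiffAt_const.mul (contDiffAt_id.sub contDiffAt_const)

/-- The chart lemma, with parameters. -/
theorem contDiff_extFun {f : E → ℝ → ℝ} (hf : ContDiff ℝ N (fun p : E × ℝ => f p.1 p.2))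
    (hplus : ∀ ε₀, ∃ Q, GoodEndWith N f ε₀ Q)
    (hminus : ∀ ε₀, ∃ Q, GoodEndWith N (fun ε x => -f ε (-x)) ε₀ Q) :
    ContDiff ℝ N (fun p : E × ℝ => extFun (f p.1) p.2) := by
  rw [contDiff_iff_contDiffAt]
  rintro ⟨ε₀, u₀⟩
  have hout : ∀ s : Set ℝ, s ∈ 𝓝 u₀ → (∀ u ∈ s, u ∉ Ioo (0 : ℝ) 1) →
      ContDiffAt ℝ N (fun p : E × ℝ => extFun (f p.1) p.2) (ε₀, u₀) := by
    intro s hs hs'
    refine contDiffAt_snd.congr_of_eventuallyEq ?_
    have : ∀ᶠ p : E × ℝ in 𝓝 (ε₀, u₀), p.2 ∈ s := continuousAt_snd.eventually hs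
    filter_upwards [this] with p hp
    exact extFun_of_not_mem _ (hs' _ hp)
  rcases lt_trichotomy u₀ 0 with h0 | h0 | h0
  · exact hout (Iio 0) (Iio_mem_nhds h0) fun u hu hu' => absurd hu'.1 (not_lt.2 (le_of_lt hu))
  · subst h0
    obtain ⟨Q, hQ⟩ := hminus ε₀
    have h1 := hQ.contDiffAt_extFun
    have h2 : ContDiffAt ℝ N (fun p : E × ℝ => (p.1, 1 - p.2)) (ε₀, 0) :=
      contDiffAt_fst.prodMk (contDiffAt_const.sub contDiffAt_snd)
    have h3 := ContDiffAt.comp (ε₀, (0 : ℝ)) (by simpa using h1) h2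
    have h4 := (contDiffAt_const (c := (1 : ℝ))).sub h3
    refine h4.congr_of_eventuallyEq (Eventually.of_forall fun p => ?_)
    exact extFun_one_sub _ _
  rcases lt_trichotomy u₀ 1 with h1 | h1 | h1
  · have h2 : ContDiffAt ℝ N (fun p : E × ℝ => (p.1, psiInv p.2)) (ε₀, u₀) :=
      contDiffAt_fst.prodMk (ContDiffAt.comp (g := psiInv) (ε₀, u₀) (contDiffAt_psiInv ⟨h0, h1⟩) contDiffAt_snd)
    have h3 := contDiff_psi.contDiffAt.comp (ε₀, u₀) (hf.contDiffAt.comp (ε₀, u₀) h2)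
    refine h3.congr_of_eventuallyEq ?_
    have : ∀ᶠ p : E × ℝ in 𝓝 (ε₀, u₀), p.2 ∈ Ioo (0 : ℝ) 1 :=
      continuousAt_snd.eventually (Ioo_mem_nhds h0 h1)
    filter_upwards [this] with p hp
    exact extFun_of_mem _ hp
  · subst h1
    obtain ⟨Q, hQ⟩ := hplus ε₀
    exact hQ.contDiffAt_extFun
  · exact hout (Ioi 1) (Ioi_mem_nhds h1) fun u hu hu' => absurd hu'.2 (not_lt.2 (le_of_lt hu))

/-- The chart lemma without parameters. -/
theorem contDiff_extFun' {f : ℝ → ℝ} (hf : ContDiff ℝ N f) {Q Q' : ℝ → ℝ}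
    (hQ : ContDiffAt ℝ N Q 0) (hQ0 : 0 < Q 0) (hQe : ∀ᶠ η in 𝓝 (0 : ℝ), 0 < η → f η⁻¹ = Q η * η⁻¹)
    (hQ' : ContDiffAt ℝ N Q' 0) (hQ0' : 0 < Q' 0)
    (hQe' : ∀ᶠ η in 𝓝 (0 : ℝ), 0 < η → -f (-η⁻¹) = Q' η * η⁻¹) :
    ContDiff ℝ N (extFun f) := by
  have := contDiff_extFun (E := ℝ) (N := N) (f := fun _ => f) (hf.comp contDiff_snd)
    (fun ε₀ => ⟨fun p => Q p.2, ContDiffAt.comp (g := Q) (ε₀, (0 : ℝ)) hQ contDiffAt_snd, hQ0,
      (continuousAt_snd (p := (ε₀, (0 : ℝ)))).eventually hQe⟩)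
    (fun ε₀ => ⟨fun p => Q' p.2, ContDiffAt.comp (g := Q') (ε₀, (0 : ℝ)) hQ' contDiffAt_snd, hQ0',
      (continuousAt_snd (p := (ε₀, (0 : ℝ)))).eventually hQe'⟩)
  exact this.comp ((contDiff_const (c := (0 : ℝ))).prodMk contDiff_id)

/-- The smooth flat action of the affine group on `[0,1]`, in exponential parameters. -/
noncomputable def Phi (ε : ℝ × ℝ) (u : ℝ) : ℝ := extFun (fun x => exp ε.1 * x + ε.2) u

theorem contDiff_Phi : ContDiff ℝ N (fun p : (ℝ × ℝ) × ℝ => Phi p.1 p.2) := by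
  refine contDiff_extFun (f := fun (ε : ℝ × ℝ) x => exp ε.1 * x + ε.2) (by fun_prop)
    (fun ε₀ => ⟨fun p => exp p.1.1 + p.1.2 * p.2, by fun_prop, by simpa using exp_pos _,
      Eventually.of_forall fun p hp => ?_⟩)
    (fun ε₀ => ⟨fun p => exp p.1.1 - p.1.2 * p.2, by fun_prop, by simpa using exp_pos _,
      Eventually.of_forall fun p hp => ?_⟩)
  · field_simp
  · field_simp
    ring

theorem contDiff_extFun_affine {a : ℝ} (ha : 0 < a) (b : ℝ) :
    ContDiff ℝ N (extFun fun x => a * x + b) := by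
  have := (contDiff_Phi (N := N)).comp ((contDiff_const (c := (log a, b))).prodMk contDiff_id)
  simpa [Function.comp_def, Phi, exp_log ha] using this

end Pool.Agent.MP_84d7a8_al

end

-- part MP_84d7a8_al.Groups
section

/-!
The algebraic building blocks: affine groups, wreath products, and the solvable gadget.
-/

namespace Pool.Agent.MP_84d7a8_al

open Set Filter Topology Real Polynomial

/-- Increasing affine maps `x ↦ exp l * x + b`. -/
@[ext] structure AffP where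
  l : ℝ
  b : ℝ

noncomputable instance : Mul AffP := ⟨fun x y => ⟨x.l + y.l, exp x.l * y.b + x.b⟩⟩
instance : One AffP := ⟨⟨0, 0⟩⟩
noncomputable instance : Inv AffP := ⟨fun x => ⟨-x.l, -(exp (-x.l) * x.b)⟩⟩

@[simp] theorem AffP.mul_l (x y : AffP) : (x * y).l = x.l + y.l := rfl
@[simp] theorem AffP.mul_b (x y : AffP) : (x * y).b = exp x.l * y.b + x.b := rfl
@[simp] theorem AffP.one_l : (1 : AffP).l = 0 := rfl
@[simp] theorem AffP.one_b : (1 : AffP).b = 0 := rfl
@[simp] theorem AffP.inv_l (x : AffP) : x⁻¹.l = -x.l := rfl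
@[simp] theorem AffP.inv_b (x : AffP) : x⁻¹.b = -(exp (-x.l) * x.b) := rfl

noncomputable instance : Group AffP :=
  Group.ofLeftAxioms (fun x y z => by ext <;> simp [exp_add] <;> ring)
    (fun x => by ext <;> simp) (fun x => by ext <;> simp)

/-- The affine group acting on the line. -/
noncomputable def affPerm : AffP →* Equiv.Perm ℝ :=
  MonoidHom.toHomPerm
    { toFun := fun x y => exp x.l * y + x.b
      map_one' := by funext y; simp; rfl
      map_mul' := fun x x' => by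
        funext y
        change exp (x * x').l * y + (x * x').b = exp x.l * (exp x'.l * y + x'.b) + x.b
        simp [exp_add]
        ring }

theorem affPerm_apply (x : AffP) (y : ℝ) : affPerm x y = exp x.l * y + x.b := rfl

/-- Increasing bijections of the line supported in `(0,1)`. -/
def Unit01 : Subgroup (Equiv.Perm ℝ) where
  carrier := {F | StrictMono F ∧ ∀ u, u ∉ Ioo (0 : ℝ) 1 → F u = u}
  mul_mem' := by
    rintro F G ⟨hF, hF'⟩ ⟨hG, hG'⟩
    exact ⟨hF.comp hG, fun u hu => by rw [Equiv.Perm.mul_apply, hG' u hu, hF' u hu]⟩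
  one_mem' := ⟨strictMono_id, fun _ _ => rfl⟩
  inv_mem' := by
    rintro F ⟨hF, hF'⟩
    refine ⟨fun x y hxy => hF.lt_iff_lt.mp (by simpa using hxy), fun u hu => ?_⟩
    rw [Equiv.Perm.inv_eq_iff_eq, hF' u hu]

theorem Unit01.mem_Ico (F : Unit01) {u : ℝ} (hu : u ∈ Ico (0 : ℝ) 1) : F.1 u ∈ Ico (0 : ℝ) 1 := by
  have h0 : F.1 0 = 0 := F.2.2 0 (by simp)
  have h1 : F.1 1 = 1 := F.2.2 1 (by simp)
  exact ⟨by rw [← h0]; exact F.2.1.monotone hu.1, by rw [← h1]; exact F.2.1 hu.2⟩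

theorem ext_mem_Unit01 {f : Equiv.Perm ℝ} (hf : StrictMono f) : ext f ∈ Unit01 := by
  refine ⟨?_, fun u hu => by rw [ext_apply, extFun_of_not_mem _ hu]⟩
  have : (ext f : ℝ → ℝ) = extFun f := funext (ext_apply f)
  rw [this]
  exact extFun_strictMono hf

/-- The flat action of the affine group on `[0,1]`. -/
noncomputable def affU : AffP →* Unit01 :=
  (ext.comp affPerm).codRestrict Unit01 fun x => ext_mem_Unit01 fun y z h => by
    simp only [affPerm_apply]
    nlinarith [exp_pos x.l]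

theorem affU_apply (x : AffP) (u : ℝ) : (affU x).1 u = Phi (x.l, x.b) u := ext_apply _ _

theorem affU_fix_countable {x : AffP} (hx : x ≠ 1) :
    {u | u ∈ Ico (0 : ℝ) 1 ∧ (affU x).1 u = u}.Countable := by
  have h1 : {y : ℝ | exp x.l * y + x.b = y}.Subsingleton := by
    intro y hy z hz
    by_contra hne
    have hy' : exp x.l * y + x.b = y := hy
    have hz' : exp x.l * z + x.b = z := hz
    have h2 : exp x.l = 1 := by
      apply mul_right_cancel₀ (sub_ne_zero.2 hne)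
      linarith
    apply hx
    ext
    · simpa using h2
    · rw [h2] at hy'
      simpa using hy'
  refine ((h1.countable.image psi).insert 0).mono ?_
  rintro u ⟨hu, hu'⟩
  rcases hu.1.eq_or_lt with h | h
  · exact Or.inl h.symm
  · right
    have hm : u ∈ Ioo (0 : ℝ) 1 := ⟨h, hu.2⟩
    refine ⟨psiInv u, ?_, psi_psiInv hm⟩
    rw [affU_apply, Phi, extFun_of_mem _ hm] at hu'
    apply psi_strictMono.injective
    rw [hu', psi_psiInv hm]

/-- The unrestricted wreath product with `ℤ`. -/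
@[ext] structure Wr (P : Type) where
  m : ℤ
  f : ℤ → P

section Wr

variable {P P' : Type} [Group P] [Group P']

instance : Mul (Wr P) := ⟨fun x y => ⟨x.m + y.m, fun j => x.f (j + y.m) * y.f j⟩⟩
instance : One (Wr P) := ⟨⟨0, fun _ => 1⟩⟩
instance : Inv (Wr P) := ⟨fun x => ⟨-x.m, fun j => (x.f (j - x.m))⁻¹⟩⟩

@[simp] theorem Wr.mul_m (x y : Wr P) : (x * y).m = x.m + y.m := rfl
@[simp] theorem Wr.mul_f (x y : Wr P) (j : ℤ) : (x * y).f j = x.f (j + y.m) * y.f j := rfl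
@[simp] theorem Wr.one_m : (1 : Wr P).m = 0 := rfl
@[simp] theorem Wr.one_f (j : ℤ) : (1 : Wr P).f j = 1 := rfl
@[simp] theorem Wr.inv_m (x : Wr P) : x⁻¹.m = -x.m := rfl
@[simp] theorem Wr.inv_f (x : Wr P) (j : ℤ) : x⁻¹.f j = (x.f (j - x.m))⁻¹ := rfl

instance : Group (Wr P) :=
  Group.ofLeftAxioms
    (fun x y z => by
      ext
      · simp [add_assoc]
      · simp [mul_assoc, add_assoc, add_comm y.m])
    (fun x => by ext <;> simp) (fun x => by ext <;> simp)

/-- Functoriality. -/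
def Wr.map (φ : P →* P') : Wr P →* Wr P' where
  toFun x := ⟨x.m, fun j => φ (x.f j)⟩
  map_one' := by ext <;> simp
  map_mul' x y := by ext <;> simp

theorem Wr.map_injective {φ : P →* P'} (h : Function.Injective φ) :
    Function.Injective (Wr.map φ) := by
  intro x y hxy
  ext
  · exact congrArg (fun w : Wr P' => w.m) hxy
  · exact h (congrFun (congrArg Wr.f hxy) _)

/-- The shift. -/
def Wr.shift : Wr P := ⟨1, fun _ => 1⟩

theorem Wr.shift_zpow (n : ℤ) : (Wr.shift : Wr P) ^ n = ⟨n, fun _ => 1⟩ := by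
  induction n using Int.induction_on with
  | zero => rfl
  | succ n ih => rw [zpow_add_one, ih]; ext <;> simp [Wr.shift]
  | pred n ih => rw [zpow_sub_one, ih]; ext <;> simp [Wr.shift, sub_eq_add_neg]

/-- The copy of `P` at position `i`. -/
def Wr.single (i : ℤ) : P →* Wr P where
  toFun x := ⟨0, fun j => if j = i then x else 1⟩
  map_one' := by ext <;> simp
  map_mul' x y := by
    ext j
    · simp
    · by_cases h : j = i <;> simp [h]

theorem Wr.single_injective (i : ℤ) : Function.Injective (Wr.single i : P →* Wr P) := by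
  intro x y h
  simpa [Wr.single] using congrFun (congrArg Wr.f h) i

theorem Wr.single_commute {i j : ℤ} (h : i ≠ j) (x y : P) :
    Commute (Wr.single i x) (Wr.single j y) := by
  ext n
  · simp [Wr.single]
  · by_cases h1 : n = i
    · simp [Wr.single, h1, h]
    · simp [Wr.single, h1]

theorem Wr.shift_single (i : ℤ) (x : P) :
    Wr.shift * Wr.single i x * Wr.shift⁻¹ = Wr.single (i + 1) x := by
  ext n
  · simp [Wr.single, Wr.shift]
  · simp [Wr.single, Wr.shift, add_neg_eq_iff_eq_add]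

end Wr

theorem floor_wr (F : Unit01) (n : ℤ) (z : ℝ) : ⌊(n : ℝ) + F.1 (Int.fract z)⌋ = n := by
  have := Unit01.mem_Ico F ⟨Int.fract_nonneg z, Int.fract_lt_one z⟩
  rw [Int.floor_eq_iff]
  constructor <;> linarith [this.1, this.2]

/-- The action of the wreath product on the line. -/
noncomputable def wperm : Wr Unit01 →* Equiv.Perm ℝ :=
  MonoidHom.toHomPerm
    { toFun := fun w z => ((⌊z⌋ + w.m : ℤ) : ℝ) + (w.f ⌊z⌋).1 (Int.fract z)
      map_one' := by funext z; simp; rfl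
      map_mul' := fun x y => by
        funext z
        change (((⌊z⌋ + (x * y).m : ℤ) : ℝ) + ((x * y).f ⌊z⌋).1 (Int.fract z)) =
          ((⌊((⌊z⌋ + y.m : ℤ) : ℝ) + (y.f ⌊z⌋).1 (Int.fract z)⌋ + x.m : ℤ) : ℝ) +
          (x.f ⌊((⌊z⌋ + y.m : ℤ) : ℝ) + (y.f ⌊z⌋).1 (Int.fract z)⌋).1
            (Int.fract (((⌊z⌋ + y.m : ℤ) : ℝ) + (y.f ⌊z⌋).1 (Int.fract z)))
        rw [Int.fract_intCast_add, floor_wr, Int.fract_eq_self.2
          (Unit01.mem_Ico _ ⟨Int.fract_nonneg z, Int.fract_lt_one z⟩)]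
        simp only [Wr.mul_m, Wr.mul_f, Subgroup.coe_mul, Equiv.Perm.mul_apply]
        push_cast
        ring }

theorem wperm_apply (w : Wr Unit01) (z : ℝ) :
    wperm w z = ((⌊z⌋ + w.m : ℤ) : ℝ) + (w.f ⌊z⌋).1 (Int.fract z) := rfl

theorem wperm_strictMono (w : Wr Unit01) : StrictMono (wperm w) := by
  intro x y hxy
  rcases (Int.floor_mono hxy.le).eq_or_lt with h | h
  · rw [wperm_apply, wperm_apply, h]
    refine add_lt_add_right ((w.f _).2.1 ?_) _
    rw [Int.fract, Int.fract, h]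
    linarith
  · have h1 := Unit01.mem_Ico (w.f ⌊x⌋) ⟨Int.fract_nonneg x, Int.fract_lt_one x⟩
    have h2 := Unit01.mem_Ico (w.f ⌊y⌋) ⟨Int.fract_nonneg y, Int.fract_lt_one y⟩
    have h3 : ((⌊x⌋ : ℤ) : ℝ) + 1 ≤ ⌊y⌋ := by exact_mod_cast h
    rw [wperm_apply, wperm_apply]
    push_cast
    linarith [h1.2, h2.1]

theorem wperm_injective : Function.Injective wperm := by
  rw [injective_iff_map_eq_one]
  intro w hw
  have h : ∀ (j : ℤ) (u : ℝ), u ∈ Ico (0 : ℝ) 1 → (w.m : ℝ) + (w.f j).1 u = u := by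
    intro j u hu
    have := congrArg (fun F : Equiv.Perm ℝ => F (j + u)) hw
    simp only [wperm_apply, Int.floor_intCast_add, Int.fract_intCast_add, Int.fract_eq_self.2 hu,
      Int.floor_eq_zero_iff.2 hu, add_zero, Equiv.Perm.one_apply] at this
    push_cast at this
    linarith
  have hm : w.m = 0 := by
    have := h 0 0 ⟨le_rfl, one_pos⟩
    rw [(w.f 0).2.2 0 (by simp), add_zero] at this
    exact_mod_cast this
  ext j u
  · exact hm
  · by_cases hu : u ∈ Ioo (0 : ℝ) 1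
    · simpa [hm] using h j u (Ioo_subset_Ico_self hu)
    · simpa using (w.f j).2.2 u hu

theorem continuous_of_strictMono_perm {F : Equiv.Perm ℝ} (h : StrictMono F) : Continuous F :=
  (h.orderIsoOfSurjective _ F.surjective).continuous

theorem wperm_shift (z : ℝ) : wperm Wr.shift z = z + 1 := by
  simp [wperm_apply, Wr.shift]
  linarith [Int.floor_add_fract z]

theorem wperm_single (F : Unit01) (z : ℝ) : wperm (Wr.single 0 F) z = F.1 z := by
  rw [wperm_apply]
  by_cases h : ⌊z⌋ = 0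
  · simp [Wr.single, h, Int.fract]
  · have : z ∉ Ioo (0 : ℝ) 1 := fun h' => h (Int.floor_eq_zero_iff.2 (Ioo_subset_Ico_self h'))
    simp [Wr.single, h, F.2.2 z this]

/-- Sequences given by rational functions of `θ ^ j`. -/
def RatSeq (θ : ℝ) (f : ℤ → ℝ) : Prop :=
  ∃ P Q : ℝ[X], (∀ j : ℤ, Q.eval (θ ^ j) ≠ 0) ∧ ∀ j : ℤ, f j * Q.eval (θ ^ j) = P.eval (θ ^ j)

variable {θ : ℝ}

theorem RatSeq.const (c : ℝ) : RatSeq θ fun _ => c := ⟨C c, 1, by simp, by simp⟩

theorem RatSeq.pow : RatSeq θ fun j => θ ^ j := ⟨X, 1, by simp, by simp⟩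

theorem RatSeq.add {f g : ℤ → ℝ} (hf : RatSeq θ f) (hg : RatSeq θ g) :
    RatSeq θ fun j => f j + g j := by
  obtain ⟨P, Q, h1, h2⟩ := hf
  obtain ⟨P', Q', h1', h2'⟩ := hg
  refine ⟨P * Q' + P' * Q, Q * Q', fun j => by simp [h1 j, h1' j], fun j => ?_⟩
  simp only [eval_mul, eval_add, ← h2, ← h2']
  ring

theorem RatSeq.mul {f g : ℤ → ℝ} (hf : RatSeq θ f) (hg : RatSeq θ g) :
    RatSeq θ fun j => f j * g j := by
  obtain ⟨P, Q, h1, h2⟩ := hf
  obtain ⟨P', Q', h1', h2'⟩ := hg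
  refine ⟨P * P', Q * Q', fun j => by simp [h1 j, h1' j], fun j => ?_⟩
  simp only [eval_mul, ← h2, ← h2']
  ring

theorem RatSeq.inv {f : ℤ → ℝ} (hf : RatSeq θ f) (h0 : ∀ j, f j ≠ 0) :
    RatSeq θ fun j => (f j)⁻¹ := by
  obtain ⟨P, Q, h1, h2⟩ := hf
  refine ⟨Q, P, fun j => by rw [← h2]; exact mul_ne_zero (h0 j) (h1 j), fun j => ?_⟩
  rw [← h2, inv_mul_cancel_left₀ (h0 j)]

theorem RatSeq.shift (hθ : θ ≠ 0) {f : ℤ → ℝ} (hf : RatSeq θ f) (m : ℤ) :
    RatSeq θ fun j => f (j + m) := by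
  obtain ⟨P, Q, h1, h2⟩ := hf
  refine ⟨P.comp (X * C (θ ^ m)), Q.comp (X * C (θ ^ m)), fun j => ?_, fun j => ?_⟩
  · simpa [eval_comp, ← zpow_add₀ hθ, add_comm m j] using h1 (j + m)
  · simpa [eval_comp, ← zpow_add₀ hθ, add_comm m j] using h2 (j + m)

theorem RatSeq.finite (hθ : 1 < θ) {f : ℤ → ℝ} (hf : RatSeq θ f) {j₀ : ℤ} (h0 : f j₀ ≠ 0) :
    {j | f j = 0}.Finite := by
  obtain ⟨P, Q, h1, h2⟩ := hf
  have hP : P ≠ 0 := by
    rintro rfl
    have := h2 j₀
    simp [h0, h1] at this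
  have := (P.roots.toFinset.finite_toSet).preimage (f := fun j : ℤ => θ ^ j)
    (zpow_right_injective₀ (by linarith) hθ.ne').injOn
  refine this.subset fun j hj => ?_
  have hj' : f j = 0 := hj
  simp [hP, ← h2, hj']

/-- The multiplier governing the decay. -/
noncomputable def theta : ℝ := (3 + √5) / 2

theorem theta_gt : 2 < theta := by
  have : 1 < √5 := by rw [lt_sqrt (by norm_num)]; norm_num
  unfold theta
  linarith

theorem theta_sq : theta ^ 2 + 1 = 3 * theta := by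
  have : √5 ^ 2 = 5 := sq_sqrt (by norm_num)
  unfold theta
  nlinarith

theorem theta_pos : 0 < theta := by linarith [theta_gt]

/-- The basic positive sequence decaying exponentially at both ends. -/
noncomputable def tseq (j : ℤ) : ℝ := (theta ^ j + (theta ^ j)⁻¹)⁻¹

/-- The multiplier sequence. -/
noncomputable def mseq (j : ℤ) : ℝ := (1 + 5 * (tseq j * tseq j))⁻¹

theorem tseq_pos (j : ℤ) : 0 < tseq j := by
  have := zpow_pos theta_pos j
  unfold tseq
  positivity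

theorem tseq_le (j : ℤ) : tseq j ≤ theta⁻¹ ^ j.natAbs := by
  have h := zpow_pos theta_pos j
  unfold tseq
  rw [inv_pow, ← zpow_natCast]
  apply inv_anti₀ (zpow_pos theta_pos _)
  rcases le_total 0 j with hj | hj
  · rw [Int.natCast_natAbs, abs_of_nonneg hj]
    linarith [inv_pos.2 h]
  · rw [Int.natCast_natAbs, abs_of_nonpos hj, zpow_neg]
    linarith

theorem tseq_le_one (j : ℤ) : tseq j ≤ 1 :=
  (tseq_le j).trans (pow_le_one₀ (inv_pos.2 theta_pos).le
    (inv_le_one_of_one_le₀ (by linarith [theta_gt])))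

theorem mseq_pos (j : ℤ) : 0 < mseq j := by
  have := tseq_pos j
  unfold mseq
  positivity

theorem mseq_le (j : ℤ) : mseq j ≤ 1 := by
  have := tseq_pos j
  unfold mseq
  apply inv_le_one_of_one_le₀
  nlinarith

theorem one_sub_mseq (j : ℤ) : 1 - mseq j ≤ 5 * tseq j := by
  have h1 := tseq_pos j
  have h2 := tseq_le_one j
  have h3 : mseq j * (1 + 5 * (tseq j * tseq j)) = 1 := inv_mul_cancel₀ (by positivity)
  have h4 := mseq_le j
  have h5 := mseq_pos j
  have h6 : mseq j * tseq j ≤ 1 := mul_le_one₀ h4 h1.le h2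
  nlinarith

theorem tseq_rel (j : ℤ) : tseq (j + 1) + tseq (j - 1) = 3 * (mseq j * tseq j) := by
  have hw := zpow_pos theta_pos j
  have h := theta_sq
  have hθ := theta_pos
  unfold mseq tseq
  rw [zpow_add_one₀ hθ.ne', zpow_sub_one₀ hθ.ne']
  set w := theta ^ j
  have h4 : theta ^ 4 + 1 = 7 * theta ^ 2 := by nlinarith
  field_simp
  have e1 : theta ^ 2 = 3 * theta - 1 := by linarith
  have e2 : theta ^ 4 = 7 * theta ^ 2 - 1 := by linarith
  ring_nf
  rw [e2, show theta ^ 3 = theta * theta ^ 2 by ring, e1]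
  ring_nf
  rw [e1]
  ring

theorem ratSeq_tseq : RatSeq theta tseq :=
  (RatSeq.pow.add (RatSeq.pow.inv fun j => (zpow_pos theta_pos j).ne')).inv fun j => by
    have := zpow_pos theta_pos j
    positivity

theorem ratSeq_mseq : RatSeq theta mseq :=
  ((RatSeq.const 1).add ((RatSeq.const 5).mul (ratSeq_tseq.mul ratSeq_tseq))).inv fun j => by
    have := tseq_pos j
    positivity

/-- The translation generator of the solvable gadget. -/
noncomputable def gH : Wr AffP := ⟨0, fun j => ⟨0, (-1) ^ j * tseq j⟩⟩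
/-- The first dilation generator. -/
noncomputable def vH : Wr AffP := ⟨0, fun j => ⟨log (mseq j), 0⟩⟩
/-- The second dilation generator. -/
noncomputable def uH : Wr AffP := ⟨0, fun j => ⟨log (2 - mseq j), 0⟩⟩

/-- The subgroup of fibrewise translations. -/
def MH : Subgroup (Wr AffP) where
  carrier := {w | w.m = 0 ∧ ∀ j, (w.f j).l = 0}
  mul_mem' := by
    rintro x y ⟨hx, hx'⟩ ⟨hy, hy'⟩
    exact ⟨by simp [hx, hy], fun j => by simp [hx', hy']⟩
  one_mem' := ⟨rfl, fun _ => rfl⟩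
  inv_mem' := by
    rintro x ⟨hx, hx'⟩
    exact ⟨by simp [hx], fun j => by simp [hx']⟩

theorem MH_comm {x y : Wr AffP} (hx : x ∈ MH) (hy : y ∈ MH) : Commute x y := by
  ext j
  · simp [add_comm]
  · simp [hx.2, hy.2]
  · simp [hx.1, hy.1, hx.2, hy.2, add_comm]

theorem MH_conj (w : Wr AffP) {x : Wr AffP} (hx : x ∈ MH) : w * x * w⁻¹ ∈ MH :=
  ⟨by simp [hx.1], fun j => by simp [hx.1, hx.2, sub_eq_add_neg]⟩

theorem gH_mem : gH ∈ MH := ⟨rfl, fun _ => rfl⟩

theorem vH_uH : Commute vH uH := by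
  ext j <;> simp [vH, uH, add_comm]

theorem MH_avg {e : Wr AffP} (he : e ∈ MH) : e ^ 2 = (vH * e * vH⁻¹) * (uH * e * uH⁻¹) := by
  rw [pow_two]
  ext j
  · simp [vH, uH]
  · simp [vH, uH, he.1, he.2]
  · have h1 : 0 < 2 - mseq j := by linarith [mseq_le j]
    simp [vH, uH, he.1, he.2, exp_log (mseq_pos j), exp_log h1]
    ring

theorem gH_rel : (Wr.shift⁻¹ * gH * Wr.shift) * (Wr.shift * gH * Wr.shift⁻¹) *
    (vH * gH ^ 3 * vH⁻¹) = 1 := by
  rw [pow_succ, pow_two]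
  ext j
  · simp [vH, gH, Wr.shift]
  · simp [vH, gH, Wr.shift]
  · have h := tseq_rel j
    simp only [vH, gH, Wr.shift, Wr.mul_f, Wr.mul_m, Wr.inv_m, Wr.inv_f, AffP.mul_b, AffP.mul_l,
      AffP.inv_b, AffP.one_b, Wr.one_f, inv_one, neg_zero, add_zero,
      zero_add, sub_zero, mul_zero, exp_zero, one_mul, mul_one, add_neg_cancel,
      exp_log (mseq_pos j)]
    rw [← sub_eq_add_neg, zpow_add_one₀ (by norm_num), zpow_sub_one₀ (by norm_num)]
    have : ((-1 : ℝ))⁻¹ = -1 := by norm_num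
    rw [this]
    linear_combination (-(-1 : ℝ) ^ j) * h

/-- Elements of the wreath product with rational coefficients. -/
def HR : Subgroup (Wr AffP) where
  carrier := {w | RatSeq theta (fun j => exp (w.f j).l) ∧
    RatSeq theta (fun j => (-1) ^ j * (w.f j).b)}
  mul_mem' := by
    rintro x y ⟨hx, hx'⟩ ⟨hy, hy'⟩
    have h1 := hx.shift theta_pos.ne' y.m
    have h2 := hx'.shift theta_pos.ne' y.m
    refine ⟨by simpa [exp_add] using h1.mul hy, ?_⟩
    have := (h1.mul hy').add ((RatSeq.const (((-1 : ℝ) ^ y.m)⁻¹)).mul h2)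
    refine (congrArg (RatSeq theta) (funext fun j => ?_)).mp this
    have h3 : ((-1 : ℝ) ^ y.m) ≠ 0 := zpow_ne_zero _ (by norm_num)
    simp only [Wr.mul_f, AffP.mul_b]
    rw [zpow_add₀ (by norm_num)]
    field_simp
  one_mem' := ⟨by simpa using RatSeq.const 1, by simpa using RatSeq.const 0⟩
  inv_mem' := by
    rintro x ⟨hx, hx'⟩
    have h1 := (hx.shift theta_pos.ne' (-x.m)).inv fun j => (exp_pos _).ne'
    have h2 := hx'.shift theta_pos.ne' (-x.m)
    refine ⟨by simpa [exp_neg, sub_eq_add_neg] using h1, ?_⟩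
    have := (h1.mul h2).mul (RatSeq.const (-((-1 : ℝ) ^ (-x.m))⁻¹))
    refine (congrArg (RatSeq theta) (funext fun j => ?_)).mp this
    have h3 : ((-1 : ℝ) ^ (-x.m)) ≠ 0 := zpow_ne_zero _ (by norm_num)
    simp only [Wr.inv_f, AffP.inv_b, exp_neg, sub_eq_add_neg]
    rw [zpow_add₀ (by norm_num)]
    field_simp

theorem shift_mem_HR : Wr.shift ∈ HR :=
  ⟨by simpa [Wr.shift] using RatSeq.const 1, by simpa [Wr.shift] using RatSeq.const 0⟩

theorem gH_mem_HR : gH ∈ HR := by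
  refine ⟨by simpa [gH] using RatSeq.const 1, ?_⟩
  refine (congrArg (RatSeq theta) (funext fun j => ?_)).mp ratSeq_tseq
  simp only [gH]
  rw [← mul_assoc, ← mul_zpow]
  simp

theorem vH_mem_HR : vH ∈ HR :=
  ⟨by simpa [vH, exp_log (mseq_pos _)] using ratSeq_mseq, by simpa [vH] using RatSeq.const 0⟩

theorem uH_mem_HR : uH ∈ HR := by
  refine ⟨?_, by simpa [uH] using RatSeq.const 0⟩
  have := (RatSeq.const 2).add ((RatSeq.const (-1)).mul ratSeq_mseq)
  refine (congrArg (RatSeq theta) (funext fun j => ?_)).mp this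
  have h1 : 0 < 2 - mseq j := by linarith [mseq_le j]
  simp only [uH, exp_log h1]
  ring

theorem goodLetter_H {h : Wr AffP} (hR : h ∈ HR) (hn : h ∉ Subgroup.zpowers Wr.shift) :
    ∃ K, GoodLetter (wperm (Wr.map affU h)) K := by
  have hθ : 1 < theta := by linarith [theta_gt]
  obtain ⟨j₀, hj₀⟩ : ∃ j₀, h.f j₀ ≠ 1 := by
    by_contra hcon
    push Not at hcon
    refine hn ⟨h.m, ?_⟩
    simp only [Wr.shift_zpow]
    ext j <;> simp [hcon]
  have hfin : {j | h.f j = 1}.Finite := by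
    by_cases h1 : (h.f j₀).l = 0
    · have h2 : (-1 : ℝ) ^ j₀ * (h.f j₀).b ≠ 0 :=
        mul_ne_zero (zpow_ne_zero _ (by norm_num)) fun h2 => hj₀ (AffP.ext h1 h2)
      refine (hR.2.finite hθ h2).subset fun j hj => ?_
      have hj' : h.f j = 1 := hj
      simp [hj']
    · have h2 : exp (h.f j₀).l + -1 ≠ 0 := by
        intro h2
        apply h1
        simpa using (show exp (h.f j₀).l = 1 by linarith)
      refine ((hR.1.add (RatSeq.const (-1))).finite hθ h2).subset fun j hj => ?_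
      have hj' : h.f j = 1 := hj
      simp [hj']
  obtain ⟨J, hJ⟩ := hfin.bddAbove
  have hmono := wperm_strictMono (Wr.map affU h)
  refine ⟨|(J : ℝ)| + |(h.m : ℝ)| + 1, by positivity,
    fun y _ => (continuous_of_strictMono_perm hmono).continuousAt, hmono.injective.injOn,
    fun y _ => ?_, ?_⟩
  · have h1 := Unit01.mem_Ico (affU (h.f ⌊y⌋)) ⟨Int.fract_nonneg y, Int.fract_lt_one y⟩
    change _ ≤ ((⌊y⌋ + h.m : ℤ) : ℝ) + (affU (h.f ⌊y⌋)).1 (Int.fract y)
    push_cast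
    linarith [h1.1, Int.lt_floor_add_one y, neg_abs_le (h.m : ℝ), abs_nonneg (J : ℝ)]
  · refine (countable_iUnion fun j : {j : ℤ // h.f j ≠ 1} =>
      (affU_fix_countable j.2).image fun u => (j.1 : ℝ) + u).mono ?_
    rintro y ⟨hy, m, hm⟩
    have h0 : h.f ⌊y⌋ ≠ 1 := by
      intro h0
      have h1 : ((⌊y⌋ : ℤ) : ℝ) ≤ J := by exact_mod_cast hJ h0
      linarith [Int.lt_floor_add_one y, le_abs_self (J : ℝ), abs_nonneg (h.m : ℝ)]
    refine mem_iUnion.2 ⟨⟨⌊y⌋, h0⟩, Int.fract y,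
      ⟨⟨Int.fract_nonneg y, Int.fract_lt_one y⟩, ?_⟩, Int.floor_add_fract y⟩
    have h1 := congrArg Int.fract hm
    change Int.fract (((⌊y⌋ + h.m : ℤ) : ℝ) + (affU (h.f ⌊y⌋)).1 (Int.fract y)) = _ at h1
    rwa [Int.fract_intCast_add, Int.fract_add_intCast, Int.fract_eq_self.2
      (Unit01.mem_Ico _ ⟨Int.fract_nonneg y, Int.fract_lt_one y⟩)] at h1

/-- The affine group of a field. -/
@[ext] structure Aff (K : Type) [Field K] where
  u : Kˣ
  b : K

section Aff

variable {K : Type} [Field K]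

instance : Mul (Aff K) := ⟨fun x y => ⟨x.u * y.u, x.u * y.b + x.b⟩⟩
instance : One (Aff K) := ⟨⟨1, 0⟩⟩
instance : Inv (Aff K) := ⟨fun x => ⟨x.u⁻¹, -((x.u : K)⁻¹ * x.b)⟩⟩

@[simp] theorem Aff.mul_u (x y : Aff K) : (x * y).u = x.u * y.u := rfl
@[simp] theorem Aff.mul_b (x y : Aff K) : (x * y).b = x.u * y.b + x.b := rfl
@[simp] theorem Aff.one_u : (1 : Aff K).u = 1 := rfl
@[simp] theorem Aff.one_b : (1 : Aff K).b = 0 := rfl
@[simp] theorem Aff.inv_u (x : Aff K) : x⁻¹.u = x.u⁻¹ := rfl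
@[simp] theorem Aff.inv_b (x : Aff K) : x⁻¹.b = -((x.u : K)⁻¹ * x.b) := rfl

instance : Group (Aff K) :=
  Group.ofLeftAxioms (fun x y z => by ext <;> simp <;> ring)
    (fun x => by ext <;> simp) (fun x => by ext <;> simp)

/-- The action on the line through a field embedding. -/
noncomputable def affK (ev : K →+* ℝ) : Aff K →* Equiv.Perm ℝ :=
  MonoidHom.toHomPerm
    { toFun := fun x y => ev x.u * y + ev x.b
      map_one' := by funext y; simp; rfl
      map_mul' := fun x x' => by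
        funext y
        change ev (x * x').u * y + ev (x * x').b = ev x.u * (ev x'.u * y + ev x'.b) + ev x.b
        simp
        ring }

theorem affK_apply (ev : K →+* ℝ) (x : Aff K) (y : ℝ) : affK ev x y = ev x.u * y + ev x.b := rfl

/-- The translation subgroup. -/
def AB (K : Type) [Field K] : Subgroup (Aff K) where
  carrier := {x | x.u = 1}
  mul_mem' := by
    intro x y hx hy
    have hx' : x.u = 1 := hx
    have hy' : y.u = 1 := hy
    simp [hx', hy']
  one_mem' := rfl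
  inv_mem' := by
    intro x hx
    have hx' : x.u = 1 := hx
    simp [hx']

theorem AB_comm {x y : Aff K} (hx : x ∈ AB K) (hy : y ∈ AB K) : Commute x y := by
  have hx' : x.u = 1 := hx
  have hy' : y.u = 1 := hy
  ext <;> simp [hx', hy', add_comm]

theorem AB_conj (w : Aff K) {x : Aff K} (hx : x ∈ AB K) : w * x * w⁻¹ ∈ AB K := by
  have hx' : x.u = 1 := hx
  change (w * x * w⁻¹).u = 1
  simp [hx']

theorem Aff.dil_zpow (u : Kˣ) (n : ℤ) : (⟨u, 0⟩ : Aff K) ^ n = ⟨u ^ n, 0⟩ := by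
  induction n using Int.induction_on with
  | zero => ext <;> simp
  | succ n ih => rw [zpow_add_one, ih, zpow_add_one]; ext <;> simp
  | pred n ih => rw [zpow_sub_one, ih, zpow_sub_one]; ext <;> simp

theorem exp_int_mul' (x : ℝ) (n : ℤ) : exp (n * x) = exp x ^ n := by
  rw [mul_comm, exp_mul, rpow_intCast]

theorem goodLetter_B (ev : K →+* ℝ) {ℓ : ℝ} (hℓ : 0 < ℓ) {X₀ : Kˣ} (hX : ev X₀ = exp ℓ)
    {x : Aff K} (hx : 0 < ev x.u) (hn : x ∉ Subgroup.zpowers (⟨X₀, 0⟩ : Aff K)) :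
    ∃ K₀, GoodLetter (fun y => log (affK ev x (exp (ℓ * y))) / ℓ) K₀ ∧
      ∀ y, K₀ ≤ y → 0 < affK ev x (exp (ℓ * y)) := by
  set a := ev x.u with ha
  set b := ev x.b with hb
  let K₀ := |log (2 * |b| / a + 1)| / ℓ + |log (a / 2)| / ℓ
  have hK1 : 0 ≤ |log (2 * |b| / a + 1)| / ℓ := by positivity
  have hK2 : 0 ≤ |log (a / 2)| / ℓ := by positivity
  have hlow : ∀ y, K₀ ≤ y → a / 2 * exp (ℓ * y) ≤ affK ev x (exp (ℓ * y)) := by
    intro y hy
    have h1 : |log (2 * |b| / a + 1)| / ℓ ≤ y := by linarith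
    rw [div_le_iff₀ hℓ] at h1
    have h2 : 2 * |b| / a + 1 ≤ exp (ℓ * y) := by
      rw [← exp_log (show 0 < 2 * |b| / a + 1 by positivity), exp_le_exp]
      linarith [le_abs_self (log (2 * |b| / a + 1))]
    have h3 : 2 * |b| ≤ exp (ℓ * y) * a := by
      rw [← div_le_iff₀ hx]
      linarith
    rw [affK_apply, ← ha, ← hb]
    linarith [neg_abs_le b]
  have hpos : ∀ y, K₀ ≤ y → 0 < affK ev x (exp (ℓ * y)) := fun y hy =>
    lt_of_lt_of_le (by positivity) (hlow y hy)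
  refine ⟨K₀, ⟨add_nonneg hK1 hK2, fun y hy => ?_, fun y hy z hz h => ?_, fun y hy => ?_, ?_⟩, hpos⟩
  · refine ContinuousAt.div_const (ContinuousAt.log
      (f := fun y => affK ev x (exp (ℓ * y))) ?_ (hpos y hy).ne') ℓ
    simp only [affK_apply]
    fun_prop
  · have h1 := log_injOn_pos (hpos y hy) (hpos z hz) ((div_left_inj' hℓ.ne').1 h)
    have h2 := exp_injective ((affK ev x).injective h1)
    exact mul_left_cancel₀ hℓ.ne' h2
  · have h1 := log_le_log (by positivity) (hlow y hy)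
    rw [log_mul (by positivity) (by positivity), log_exp] at h1
    rw [le_div_iff₀ hℓ]
    have h2 : |log (a / 2)| / ℓ * ℓ = |log (a / 2)| := div_mul_cancel₀ _ hℓ.ne'
    have h3 : 0 ≤ |log (2 * |b| / a + 1)| / ℓ * ℓ := by positivity
    simp only [K₀]
    nlinarith [neg_abs_le (log (a / 2))]
  · have hsub : ∀ m : ℤ, {y | a * exp (ℓ * y) + b = exp ℓ ^ m * exp (ℓ * y)}.Subsingleton := by
      intro m y hy z hz
      have hy' : a * exp (ℓ * y) + b = exp ℓ ^ m * exp (ℓ * y) := hy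
      have hz' : a * exp (ℓ * z) + b = exp ℓ ^ m * exp (ℓ * z) := hz
      by_contra hne
      have h1 : exp (ℓ * y) - exp (ℓ * z) ≠ 0 := fun h =>
        hne (mul_left_cancel₀ hℓ.ne' (exp_injective (sub_eq_zero.1 h)))
      have h2 : a = exp ℓ ^ m := by
        apply mul_right_cancel₀ h1
        linarith
      have h3 : b = 0 := by
        rw [h2] at hy'
        linarith
      refine hn ⟨m, ?_⟩
      simp only [Aff.dil_zpow]
      ext
      · apply ev.injective
        rw [← ha, h2, ← hX]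
        simp
      · apply ev.injective
        rw [← hb, h3]
        simp
    refine (countable_iUnion fun m : ℤ => (hsub m).countable).mono ?_
    rintro y ⟨hy, m, hm⟩
    refine mem_iUnion.2 ⟨m, ?_⟩
    rw [div_eq_iff hℓ.ne'] at hm
    have h1 := exp_log (hpos y hy)
    rw [hm, affK_apply] at h1
    change a * exp (ℓ * y) + b = _
    rw [← h1, ← exp_int_mul', ← exp_add]
    congr 1
    ring

end Aff

end Pool.Agent.MP_84d7a8_al

end

-- part MP_84d7a8_al.Embed
section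

/-!
Embedding compactly supported diffeomorphisms into the interval and circle groups, a normal form
lemma, and the wreath product obstruction.
-/

namespace Pool.Agent.MP_84d7a8_al

open Set Filter Topology Real

/-- `C^k` diffeomorphisms of the line supported in `[0,1]`. -/
def SU (k : ℕ∞) : Subgroup (Equiv.Perm ℝ) where
  carrier := {F | F ∈ Unit01 ∧ ContDiff ℝ k F ∧ ContDiff ℝ k F.symm}
  mul_mem' := by
    rintro F G ⟨hF, hF1, hF2⟩ ⟨hG, hG1, hG2⟩
    exact ⟨mul_mem hF hG, hF1.comp hG1, hG2.comp hF2⟩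
  one_mem' := ⟨one_mem _, contDiff_id, contDiff_id⟩
  inv_mem' := by
    rintro F ⟨hF, hF1, hF2⟩
    exact ⟨inv_mem hF, hF2, hF1⟩

theorem SU_le (k : ℕ∞) : SU k ≤ Unit01 := fun _ h => h.1

theorem ext_mem_SU {k : ℕ∞} {F : Equiv.Perm ℝ} (hF : StrictMono F) (h1 : ContDiff ℝ k (extFun F))
    (h2 : ContDiff ℝ k (extFun (F⁻¹ : Equiv.Perm ℝ))) : ext F ∈ SU k := by
  refine ⟨ext_mem_Unit01 hF, ?_, ?_⟩
  · rw [show (ext F : ℝ → ℝ) = extFun F from funext (ext_apply F)]
    exact h1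
  · change ContDiff ℝ k ((ext F)⁻¹ : Equiv.Perm ℝ)
    rw [← map_inv, show (ext F⁻¹ : ℝ → ℝ) = extFun (F⁻¹ : Equiv.Perm ℝ) from
      funext (ext_apply F⁻¹)]
    exact h2

theorem contDiff_extFun_of_Unit01 {k : ℕ∞} {F : Equiv.Perm ℝ} (hF : F ∈ Unit01)
    (h : ContDiff ℝ k F) : ContDiff ℝ k (extFun F) := by
  refine contDiff_extFun' h (Q := fun _ => 1) (Q' := fun _ => 1) contDiffAt_const one_pos ?_
    contDiffAt_const one_pos (Eventually.of_forall fun η hη => ?_)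
  · filter_upwards [Iio_mem_nhds (show (0 : ℝ) < 1 from one_pos)] with η h1 h0
    rw [hF.2 _ fun h' => absurd h'.2 (not_lt.2 (one_le_inv₀ h0 |>.2 (le_of_lt h1))), one_mul]
  · rw [hF.2 _ fun h' => absurd h'.1 (not_lt.2 (neg_nonpos.2 (inv_pos.2 hη).le)), neg_neg, one_mul]

theorem ext_mem_SU_of_mem {k : ℕ∞} {F : Equiv.Perm ℝ} (hF : F ∈ SU k) : ext F ∈ SU k :=
  ext_mem_SU hF.1.1 (contDiff_extFun_of_Unit01 hF.1 hF.2.1)
    (contDiff_extFun_of_Unit01 (inv_mem hF.1) hF.2.2)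

theorem ext_mem_SU_affine {k : ℕ∞} {F : Equiv.Perm ℝ} {a b : ℝ} (ha : 0 < a)
    (hF : ∀ x, F x = a * x + b) : ext F ∈ SU k := by
  have e1 : (F : ℝ → ℝ) = fun x => a * x + b := funext hF
  have e2 : (F⁻¹ : Equiv.Perm ℝ) = fun x => a⁻¹ * x + -(a⁻¹ * b) := by
    funext x
    rw [Equiv.Perm.inv_eq_iff_eq, hF]
    field_simp
    ring
  refine ext_mem_SU (fun x y h => by rw [hF, hF]; nlinarith) ?_ ?_
  · rw [e1]
    exact contDiff_extFun_affine ha b
  · rw [e2]
    exact contDiff_extFun_affine (inv_pos.2 ha) _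

theorem Unit01.mem_Icc (F : Unit01) {u : ℝ} (hu : u ∈ Icc (0 : ℝ) 1) : F.1 u ∈ Icc (0 : ℝ) 1 := by
  have h0 : F.1 0 = 0 := F.2.2 0 (by simp)
  have h1 : F.1 1 = 1 := F.2.2 1 (by simp)
  exact ⟨by rw [← h0]; exact F.2.1.monotone hu.1, by rw [← h1]; exact F.2.1.monotone hu.2⟩

/-- Restriction to the closed interval. -/
def resI : Unit01 →* Equiv.Perm (Icc (0 : ℝ) 1) :=
  MonoidHom.toHomPerm
    { toFun := fun F u => ⟨F.1 u, Unit01.mem_Icc F u.2⟩
      map_one' := rfl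
      map_mul' := fun _ _ => rfl }

theorem SU_interval (k : ℕ∞) : ∃ φ : SU k →* DiffInterval k, Function.Injective φ := by
  refine ⟨(resI.comp (Subgroup.inclusion (SU_le k))).codRestrict _ fun F =>
    ⟨fun x y h => F.2.1.1 h, ⟨F.1, F.2.2.1.contDiffOn, fun _ => rfl⟩,
      ⟨F.1.symm, F.2.2.2.contDiffOn, fun _ => rfl⟩⟩, ?_⟩
  rw [injective_iff_map_eq_one]
  intro F hF
  ext u
  by_cases hu : u ∈ Ioo (0 : ℝ) 1
  · exact congrArg (fun f : DiffInterval k => (f.1 ⟨u, Ioo_subset_Icc_self hu⟩ : ℝ)) hF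
  · exact F.2.1.2 u hu

instance : Fact ((0 : ℝ) < 1) := ⟨one_pos⟩

theorem equivIco_mem (y : AddCircle (1 : ℝ)) :
    ((AddCircle.equivIco 1 0 y : ℝ)) ∈ Ico (0 : ℝ) 1 := by
  simpa using (AddCircle.equivIco (1 : ℝ) 0 y).2

theorem equivIco_coe (x : ℝ) : (AddCircle.equivIco 1 0 (x : AddCircle (1 : ℝ)) : ℝ) = Int.fract x := by
  have : (x : AddCircle (1 : ℝ)) = (Int.fract x : ℝ) := by
    conv_lhs => rw [← Int.fract_add_floor x, coe_add_int]
  rw [this, AddCircle.equivIco_coe_of_mem (by simpa using Int.fract_lt_one x)]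

/-- The induced action on the circle. -/
noncomputable def resC : Unit01 →* Equiv.Perm (AddCircle (1 : ℝ)) :=
  MonoidHom.toHomPerm
    { toFun := fun F y => ((F.1 (AddCircle.equivIco 1 0 y : ℝ) : ℝ) : AddCircle (1 : ℝ))
      map_one' := by
        funext y
        exact AddCircle.coe_equivIco
      map_mul' := fun F G => by
        funext y
        change ((F.1 (G.1 (AddCircle.equivIco 1 0 y : ℝ)) : ℝ) : AddCircle (1 : ℝ)) =
          ((F.1 (AddCircle.equivIco 1 0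
            ((G.1 (AddCircle.equivIco 1 0 y : ℝ) : ℝ) : AddCircle (1 : ℝ)) : ℝ) : ℝ) :
              AddCircle (1 : ℝ))
        rw [equivIco_coe, Int.fract_eq_self.2 (Unit01.mem_Ico G (equivIco_mem y))] }

theorem resC_apply (F : Unit01) (x : ℝ) :
    resC F (x : AddCircle (1 : ℝ)) = ((F.1 (Int.fract x) : ℝ) : AddCircle (1 : ℝ)) := by
  rw [← equivIco_coe]
  rfl

/-- The diagonal copy in the wreath product. -/
def Wr.diag {P : Type} [Group P] : P →* Wr P where
  toFun x := ⟨0, fun _ => x⟩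
  map_one' := rfl
  map_mul' x y := by ext <;> simp

theorem contDiff_diag {k : ℕ∞} (F : Unit01) (h : ContDiff ℝ k F.1) :
    ContDiff ℝ k (wperm (Wr.diag F)) := by
  rw [contDiff_iff_contDiffAt]
  intro z₀
  have h1 : ContDiff ℝ k fun z : ℝ => F.1 (z - ⌊z₀⌋) + F.1 (z - ⌊z₀⌋ + 1) - z + (2 * ⌊z₀⌋ - 1) :=
    (((h.comp (contDiff_id.sub contDiff_const)).add
      (h.comp ((contDiff_id.sub contDiff_const).add contDiff_const))).sub contDiff_id).add
      contDiff_const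
  refine h1.contDiffAt.congr_of_eventuallyEq ?_
  filter_upwards [Ioo_mem_nhds (show (⌊z₀⌋ : ℝ) - 1 < z₀ by linarith [Int.floor_le z₀])
    (Int.lt_floor_add_one z₀)] with z hz
  rw [wperm_apply]
  simp only [Wr.diag, MonoidHom.coe_mk, OneHom.coe_mk, add_zero, Int.fract]
  rcases lt_or_ge z ⌊z₀⌋ with h2 | h2
  · have e : ⌊z⌋ = ⌊z₀⌋ - 1 := by
      rw [Int.floor_eq_iff]
      push_cast
      constructor <;> linarith [hz.1]
    rw [e, F.2.2 (z - ⌊z₀⌋) fun h' => by linarith [h'.1]]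
    push_cast
    rw [show z - (⌊z₀⌋ - 1) = z - ⌊z₀⌋ + 1 by ring]
    ring
  · have e : ⌊z⌋ = ⌊z₀⌋ := by
      rw [Int.floor_eq_iff]
      exact ⟨h2, hz.2⟩
    rw [e, F.2.2 (z - ⌊z₀⌋ + 1) fun h' => by linarith [h'.2]]
    ring

theorem SU_circle (k : ℕ∞) : ∃ φ : SU k →* DiffCircle k, Function.Injective φ := by
  refine ⟨(resC.comp (Subgroup.inclusion (SU_le k))).codRestrict _ fun F =>
    ⟨wperm (Wr.diag ⟨F.1, F.2.1⟩), wperm_strictMono _, contDiff_diag _ F.2.2.1, ?_, ?_, ?_⟩, ?_⟩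
  · change ContDiff ℝ k ((wperm (Wr.diag ⟨F.1, F.2.1⟩))⁻¹ : Equiv.Perm ℝ)
    rw [← map_inv, ← map_inv]
    exact contDiff_diag _ F.2.2.2
  · intro x
    simp only [wperm_apply, Wr.diag, MonoidHom.coe_mk, OneHom.coe_mk, add_zero, Int.floor_add_one,
      Int.fract_add_one]
    push_cast
    ring
  · intro x
    change resC ⟨F.1, F.2.1⟩ x = _
    rw [resC_apply, wperm_apply, add_comm, coe_add_int]
    rfl
  · rw [injective_iff_map_eq_one]
    intro F hF
    ext u
    by_cases hu : u ∈ Ioo (0 : ℝ) 1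
    · have hu' := Ioo_subset_Ico_self hu
      have h1 : resC ⟨F.1, F.2.1⟩ u = u :=
        congrArg (fun f : DiffCircle k => f.1 (u : AddCircle (1 : ℝ))) hF
      rw [resC_apply, Int.fract_eq_self.2 hu'] at h1
      have h2 := congrArg (fun y => (AddCircle.equivIco 1 0 y : ℝ)) h1
      simp only [equivIco_coe] at h2
      rwa [Int.fract_eq_self.2 hu', Int.fract_eq_self.2 (Unit01.mem_Ico ⟨F.1, F.2.1⟩ hu')] at h2
    · exact F.2.1.2 u hu

section Algebra

variable {Γ : Type*} [Group Γ]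

/-- Products of words, the first letter acting first. -/
def rprod (x : ℕ → Γ) : ℕ → Γ
  | 0 => 1
  | i + 1 => x i * rprod x i

theorem rprod_congr {x y : ℕ → Γ} {n : ℕ} (h : ∀ i < n, x i = y i) : rprod x n = rprod y n := by
  induction n with
  | zero => rfl
  | succ n ih => rw [rprod, rprod, h n (Nat.lt_succ_self n), ih fun i hi => h i (by omega)]

theorem map_rprod {Γ' : Type*} [Group Γ'] (f : Γ →* Γ') (x : ℕ → Γ) (n : ℕ) :
    f (rprod x n) = rprod (fun i => f (x i)) n := by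
  induction n with
  | zero => exact map_one f
  | succ n ih => rw [rprod, rprod, map_mul, ih]

theorem normal_form (S : Bool → Subgroup Γ) (C : Subgroup Γ) (hC : ∀ i, C ≤ S i) {γ : Γ}
    (hγ : γ ∈ ⨆ i, S i) : γ ∈ C ∨ ∃ (n : ℕ) (κ : ℕ → Bool) (x : ℕ → Γ), 0 < n ∧
      (∀ i < n, x i ∈ S (κ i) ∧ x i ∉ C) ∧ (∀ i, i + 1 < n → κ i ≠ κ (i + 1)) ∧
      γ = rprod x n := by
  let P : Γ → Prop := fun γ => ∃ (n : ℕ) (κ : ℕ → Bool) (x : ℕ → Γ),
      (∀ i < n, x i ∈ S (κ i) ∧ x i ∉ C) ∧ (∀ i, i + 1 < n → κ i ≠ κ (i + 1)) ∧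
      ∃ c ∈ C, γ = c * rprod x n
  have app : ∀ (n : ℕ) (κ : ℕ → Bool) (x : ℕ → Γ), (∀ i < n, x i ∈ S (κ i) ∧ x i ∉ C) →
      (∀ i, i + 1 < n → κ i ≠ κ (i + 1)) → ∀ j y, y ∈ S j → y ∉ C → (∀ m, m + 1 = n → κ m ≠ j) →
      ∃ (κ' : ℕ → Bool) (x' : ℕ → Γ), (∀ i < n + 1, x' i ∈ S (κ' i) ∧ x' i ∉ C) ∧
        (∀ i, i + 1 < n + 1 → κ' i ≠ κ' (i + 1)) ∧ y * rprod x n = rprod x' (n + 1) := by
    intro n κ x h1 h2 j y hy hy' hj
    refine ⟨Function.update κ n j, Function.update x n y, fun i hi => ?_, fun i hi => ?_, ?_⟩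
    · rcases (Nat.lt_succ_iff.1 hi).eq_or_lt with rfl | hi'
      · simpa using ⟨hy, hy'⟩
      · simpa [Function.update_of_ne hi'.ne] using h1 i hi'
    · rw [Function.update_of_ne (by omega)]
      rcases (show i + 1 ≤ n by omega).eq_or_lt with h | h
      · rw [h, Function.update_self]
        exact hj i h
      · rw [Function.update_of_ne h.ne]
        exact h2 i h
    · rw [rprod, Function.update_self]
      congr 1
      exact rprod_congr fun i hi => (Function.update_of_ne hi.ne _ _).symm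
  have step : ∀ j, ∀ y ∈ S j, ∀ γ, P γ → P (y * γ) := by
    rintro j y hy γ ⟨n, κ, x, h1, h2, c, hc, rfl⟩
    rw [← mul_assoc]
    have hz : y * c ∈ S j := mul_mem hy (hC j hc)
    generalize y * c = z at hz
    by_cases hzC : z ∈ C
    · exact ⟨n, κ, x, h1, h2, z, hzC, rfl⟩
    by_cases hj : ∀ m, m + 1 = n → κ m ≠ j
    · obtain ⟨κ', x', a1, a2, a3⟩ := app n κ x h1 h2 j z hz hzC hj
      exact ⟨n + 1, κ', x', a1, a2, 1, one_mem _, by rw [a3, one_mul]⟩
    push Not at hj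
    obtain ⟨m, rfl, rfl⟩ := hj
    rw [rprod, ← mul_assoc]
    have hw : z * x m ∈ S (κ m) := mul_mem hz (h1 m (Nat.lt_succ_self m)).1
    by_cases hwC : z * x m ∈ C
    · exact ⟨m, κ, x, fun i hi => h1 i (by omega), fun i hi => h2 i (by omega), _, hwC, rfl⟩
    · obtain ⟨κ', x', a1, a2, a3⟩ := app m κ x (fun i hi => h1 i (by omega))
        (fun i hi => h2 i (by omega)) (κ m) _ hw hwC (by
          rintro i rfl
          exact h2 i (by omega))
      exact ⟨m + 1, κ', x', a1, a2, 1, one_mem _, by rw [a3, one_mul]⟩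
  have key : ∀ δ, P δ → P (γ * δ) := by
    refine Subgroup.iSup_induction S (C := fun γ => ∀ δ, P δ → P (γ * δ)) hγ step
      (fun δ h => by rwa [one_mul]) fun a b ha hb δ h => ?_
    rw [mul_assoc]
    exact ha _ (hb _ h)
  obtain ⟨n, κ, x, h1, h2, c, hc, h3⟩ := key 1 ⟨0, fun _ => true, fun _ => 1, by simp, by simp, 1,
    one_mem _, by simp [rprod]⟩
  rw [mul_one] at h3
  rcases n with _ | m
  · left
    rw [h3, rprod, mul_one]
    exact hc
  · right
    have h4 := h1 m (Nat.lt_succ_self m)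
    obtain ⟨κ', x', a1, a2, a3⟩ := app m κ x (fun i hi => h1 i (by omega))
        (fun i hi => h2 i (by omega)) (κ m) (c * x m) (mul_mem (hC _ hc) h4.1)
        (fun h => h4.2 ((mul_mem_cancel_left hc).1 h)) (by
          rintro i rfl
          exact h2 i (by omega))
    exact ⟨m + 1, κ', x', Nat.succ_pos m, a1, a2, by rw [h3, rprod, ← mul_assoc, a3]⟩

theorem mem_normalizer_subgroupOf {A H : Subgroup Γ} {t : H}
    (h : t.1 ∈ Subgroup.normalizer (A : Set Γ)) :
    t ∈ Subgroup.normalizer (A.subgroupOf H : Set H) := by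
  rw [Subgroup.mem_normalizer_iff] at h ⊢
  exact fun x => h x.1

/-- Restricting a configuration to a subgroup. -/
def Config.restrict (C : Config Γ) (H : Subgroup Γ) (ha : C.a ∈ H) (ht : C.t ∈ H) (hs : C.s ∈ H)
    (hg : C.g ∈ H) (hv : C.v ∈ H) (hu : C.u ∈ H) : Config H where
  A := C.A.subgroupOf H
  M := C.M.subgroupOf H
  a := ⟨C.a, ha⟩
  t := ⟨C.t, ht⟩
  s := ⟨C.s, hs⟩
  g := ⟨C.g, hg⟩
  v := ⟨C.v, hv⟩
  u := ⟨C.u, hu⟩
  hA e he e' he' := Subtype.ext (C.hA e.1 he e'.1 he').eq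
  hM e he e' he' := Subtype.ext (C.hM e.1 he e'.1 he').eq
  ha := C.ha
  ht := mem_normalizer_subgroupOf C.ht
  hsA := mem_normalizer_subgroupOf C.hsA
  hts := Subtype.ext C.hts.eq
  hta := Subtype.ext C.hta
  hg := C.hg
  hsM := mem_normalizer_subgroupOf C.hsM
  hv := mem_normalizer_subgroupOf C.hv
  hu := mem_normalizer_subgroupOf C.hu
  huv := Subtype.ext C.huv.eq
  havg e he := Subtype.ext (C.havg e.1 he)
  hrel := Subtype.ext C.hrel
  hne h := C.hne (congrArg Subtype.val h)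

theorem mem_normalizer_prod {A : Subgroup Γ} {t : Γ} (h : t ∈ Subgroup.normalizer (A : Set Γ))
    (t' : Γ) : (t, t') ∈ Subgroup.normalizer ((A.prod (⊥ : Subgroup Γ) : Subgroup (Γ × Γ)) :
      Set (Γ × Γ)) := by
  rw [Subgroup.mem_normalizer_iff] at h ⊢
  intro x
  simp [Subgroup.mem_prod, ← h x.1]

theorem Config.mem1 (C : Config Γ) : C.s⁻¹ * C.g * C.s ∈ C.M :=
  (Subgroup.mem_normalizer_iff''.1 C.hsM _).1 C.hg

theorem Config.mem2 (C : Config Γ) : C.s * C.g * C.s⁻¹ ∈ C.M :=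
  (Subgroup.mem_normalizer_iff.1 C.hsM _).1 C.hg

theorem Config.mem3 (C : Config Γ) : C.v * C.g ^ 3 * C.v⁻¹ ∈ C.M :=
  (Subgroup.mem_normalizer_iff.1 C.hv _).1 (pow_mem C.hg 3)

theorem Config.hrel5 (C : Config Γ) :
    (C.s⁻¹ * C.g ^ 5 * C.s) * (C.s * C.g ^ 5 * C.s⁻¹) * (C.v * (C.g ^ 5) ^ 3 * C.v⁻¹) = 1 := by
  have h := congrArg (· ^ 5) C.hrel
  simp only [one_pow] at h
  rw [(C.hM _ (mul_mem C.mem1 C.mem2) _ C.mem3).mul_pow, (C.hM _ C.mem1 _ C.mem2).mul_pow,
    conj_pow, conj_pow, ← pow_mul] at h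
  rw [← pow_mul, ← h]
  have := conj_pow (a := C.s⁻¹) (b := C.g) (i := 5)
  rw [inv_inv] at this
  rw [this]

/-- The doubled configuration. -/
def Config.double (C : Config Γ) (h5 : C.a * C.g ^ 5 ≠ C.g ^ 5 * C.a) : Config (Γ × Γ) where
  A := C.A.prod ⊥
  M := C.M.prod ⊥
  a := (C.a, 1)
  t := (C.t, C.t⁻¹)
  s := (C.s, C.s⁻¹)
  g := (C.g ^ 5, 1)
  v := (C.v, C.v⁻¹)
  u := (C.u, C.u⁻¹)
  hA e he e' he' := Prod.ext (C.hA _ he.1 _ he'.1).eq (by
    have h1 : e.2 = 1 := he.2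
    simp [h1])
  hM e he e' he' := Prod.ext (C.hM _ he.1 _ he'.1).eq (by
    have h1 : e.2 = 1 := he.2
    simp [h1])
  ha := ⟨C.ha, rfl⟩
  ht := mem_normalizer_prod C.ht _
  hsA := mem_normalizer_prod C.hsA _
  hts := Prod.ext C.hts.eq C.hts.inv_inv.eq
  hta := Prod.ext C.hta (by simp)
  hg := ⟨pow_mem C.hg 5, rfl⟩
  hsM := mem_normalizer_prod C.hsM _
  hv := mem_normalizer_prod C.hv _
  hu := mem_normalizer_prod C.hu _
  huv := Prod.ext C.huv.eq C.huv.inv_inv.eq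
  havg e he := Prod.ext (C.havg _ he.1) (by
    have h1 : e.2 = 1 := he.2
    simp [h1])
  hrel := Prod.ext C.hrel5 (by simp)
  hne h := h5 (congrArg Prod.fst h)

end Algebra

theorem wreath_no_circle {G : Type} [Group G] (C : Config G) (h5 : C.a * C.g ^ 5 ≠ C.g ^ 5 * C.a)
    (D : Subgroup (Wr G)) (hs : Wr.shift ∈ D) (h0 : ∀ x, Wr.single 0 x ∈ D) :
    ¬ ∃ φ : D →* DiffCircle ⊤, Function.Injective φ := by
  rintro ⟨φ, hφ⟩
  have h1 : ∀ x, Wr.single (0 + 1) x ∈ D := fun x => by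
    rw [← Wr.shift_single]
    exact mul_mem (mul_mem hs (h0 x)) (inv_mem hs)
  have h2 : ∀ x, Wr.single (0 + 1 + 1) x ∈ D := fun x => by
    rw [← Wr.shift_single]
    exact mul_mem (mul_mem hs (h1 x)) (inv_mem hs)
  let e0 : G →* D := (Wr.single 0).codRestrict D h0
  let e1 : G →* D := (Wr.single (0 + 1)).codRestrict D h1
  let e2 : G →* D := (Wr.single (0 + 1 + 1)).codRestrict D h2
  have c01 : ∀ x y, Commute (e0 x) (e1 y) := fun x y =>
    Subtype.ext (Wr.single_commute (by norm_num) x y).eq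
  have c02 : ∀ x y, Commute (e0 x) (e2 y) := fun x y =>
    Subtype.ext (Wr.single_commute (by norm_num) x y).eq
  have c12 : ∀ x y, Commute (e1 x) (e2 y) := fun x y =>
    Subtype.ext (Wr.single_commute (by norm_num) x y).eq
  have hsh : ∀ x, e1 x = ⟨_, hs⟩ * e0 x * (⟨_, hs⟩ : D)⁻¹ := fun x =>
    Subtype.ext (Wr.shift_single 0 x).symm
  let Ψ : G × G →* DiffCircle ⊤ := φ.comp (e0.noncommCoprod e1 c01)
  have hΨ : ∀ x y, Ψ (x, y) = φ (e0 x) * φ (e1 y) := fun x y => by simp [Ψ]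
  have hinj : Function.Injective Ψ := by
    refine hφ.comp ?_
    rw [injective_iff_map_eq_one]
    rintro ⟨x, y⟩ h
    have h' : Wr.single 0 x * Wr.single (0 + 1) y = 1 := congrArg Subtype.val h
    have a1 := congrFun (congrArg Wr.f h') 0
    have a2 := congrFun (congrArg Wr.f h') 1
    simp [Wr.single] at a1 a2
    simp [a1, a2]
  have hz : φ (e2 C.a) ≠ 1 := by
    intro h
    have h' : Wr.single (0 + 1 + 1) C.a = 1 := congrArg Subtype.val ((map_eq_one_iff φ hφ).1 h)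
    rw [map_eq_one_iff _ (Wr.single_injective _)] at h'
    exact C.hne (by simp [h'])
  have hz' : HasFix (φ (e2 C.a)) := hasFix_of_sq (t := φ (e2 C.t)) (by
    rw [← map_inv, ← map_inv, ← map_mul, ← map_mul, ← map_mul, ← map_mul, C.hta, map_pow, map_pow])
  obtain ⟨c, hc⟩ := common_fixed hz hz'
  have hcomm : ∀ p : G × G, Commute (Ψ p) (φ (e2 C.a)) := fun p => by
    rw [hΨ]
    exact ((c02 _ _).map φ).mul_left ((c12 _ _).map φ)
  let H : Subgroup (G × G) :=
    (MulAction.stabilizer (Equiv.Perm (AddCircle (1 : ℝ))) (c : AddCircle (1 : ℝ))).comap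
      ((DiffCircle ⊤).subtype.comp Ψ)
  have hH : ∀ p, HasFix (Ψ p) → p ∈ H := fun p hp => hc _ hp (hcomm p)
  have hd : ∀ x, (x, x⁻¹) ∈ H := fun x => hH _ (by
    rw [hΨ, map_inv, map_inv, hsh, map_mul, map_mul, map_inv]
    apply hasFix_of_conj
    rw [← map_inv, ← map_mul, ← map_mul, ← hsh]
    exact (c01 _ _).map φ)
  let ψ : G →* DiffCircle ⊤ := φ.comp e0
  have hψ : ∀ x, Ψ (x, 1) = ψ x := fun x => by simp [hΨ, ψ]
  have ha : (C.a, 1) ∈ H := hH _ (by
    rw [hψ]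
    exact hasFix_of_sq (t := ψ C.t) (by rw [← map_inv, ← map_mul, ← map_mul, C.hta, map_pow]))
  have hg : (C.g ^ 5, 1) ∈ H := hH _ (by
    rw [hψ, map_pow]
    refine hasFix_of_rel (s := ψ C.s) (v := ψ C.v) ?_ ?_ ?_
    · simpa using (C.hM _ C.mem1 _ C.mem2).map ψ
    · simpa using (C.hM _ (mul_mem C.mem1 C.mem2) _ C.mem3).map ψ
    · simpa using congrArg ψ C.hrel)
  exact ((C.double h5).restrict H ha (hd _) (hd _) hg (hd _) (hd _)).no_circle_of_fixed
    (Ψ.comp H.subtype) (hinj.comp Subtype.val_injective) c fun γ => γ.2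

end Pool.Agent.MP_84d7a8_al

end

-- part MP_84d7a8_al.Model
section

/-!
The `C^k` model of the solvable gadget on the positive half line.
-/

namespace Pool.Agent.MP_84d7a8_al

open Set Filter Topology Real

/-- Parameters of the model. -/
structure Par where
  ℓ : ℝ
  pos : 0 < ℓ
  φ : Equiv.Perm ℝ
  mono : StrictMono φ
  add_int : ∀ z (m : ℤ), φ (z + m) = φ z + m

namespace Par

variable (p : Par)

/-- The chart onto the positive half line. -/
noncomputable def ex (z : ℝ) : ℝ := exp (p.ℓ * p.φ z)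

/-- The inverse chart. -/
noncomputable def lg (x : ℝ) : ℝ := p.φ.symm (log x / p.ℓ)

theorem ex_pos (z : ℝ) : 0 < p.ex z := exp_pos _

theorem lg_ex (z : ℝ) : p.lg (p.ex z) = z := by
  simp [ex, lg, mul_div_cancel_left₀ _ p.pos.ne']

theorem ex_lg {x : ℝ} (hx : 0 < x) : p.ex (p.lg x) = x := by
  simp [ex, lg, mul_div_cancel₀ _ p.pos.ne', exp_log hx]

theorem ex_strictMono : StrictMono p.ex := fun _ _ h =>
  exp_lt_exp.2 (mul_lt_mul_of_pos_left (p.mono h) p.pos)

theorem ex_add_int (z : ℝ) (m : ℤ) : p.ex (z + m) = exp p.ℓ ^ m * p.ex z := by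
  rw [ex, ex, p.add_int, ← exp_int_mul', ← exp_add]
  congr 1
  ring

theorem lg_mul {x : ℝ} (hx : 0 < x) (m : ℤ) : p.lg (exp p.ℓ ^ m * x) = p.lg x + m := by
  rw [← p.lg_ex (p.lg x + m), p.ex_add_int, p.ex_lg hx]

open Classical in
/-- The action of the wreath product. -/
noncomputable def rho : Wr Unit01 →* Equiv.Perm ℝ :=
  MonoidHom.toHomPerm
    { toFun := fun w x => if 0 < x then p.ex (wperm w (p.lg x)) else exp p.ℓ ^ w.m * x
      map_one' := by
        funext x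
        by_cases hx : 0 < x
        · simp [hx, p.ex_lg hx]; rfl
        · simp [hx]; rfl
      map_mul' := fun w w' => by
        funext x
        change (if 0 < x then p.ex (wperm (w * w') (p.lg x)) else exp p.ℓ ^ (w * w').m * x) =
          if 0 < (if 0 < x then p.ex (wperm w' (p.lg x)) else exp p.ℓ ^ w'.m * x) then
            p.ex (wperm w (p.lg
              (if 0 < x then p.ex (wperm w' (p.lg x)) else exp p.ℓ ^ w'.m * x)))
          else exp p.ℓ ^ w.m * (if 0 < x then p.ex (wperm w' (p.lg x)) else exp p.ℓ ^ w'.m * x)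
        by_cases hx : 0 < x
        · simp [hx, p.ex_pos, p.lg_ex]
        · have : ¬ 0 < exp p.ℓ ^ w'.m * x := not_lt.2 (mul_nonpos_of_nonneg_of_nonpos
            (zpow_pos (exp_pos _) _).le (not_lt.1 hx))
          rw [if_neg hx, if_neg hx, if_neg this, Wr.mul_m, zpow_add₀ (exp_pos _).ne', mul_assoc] }

theorem rho_pos (w : Wr Unit01) {x : ℝ} (hx : 0 < x) : p.rho w x = p.ex (wperm w (p.lg x)) :=
  if_pos hx

theorem rho_nonpos (w : Wr Unit01) {x : ℝ} (hx : x ≤ 0) : p.rho w x = exp p.ℓ ^ w.m * x :=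
  if_neg (not_lt.2 hx)

theorem lg_lt {x y : ℝ} (hx : 0 < x) (h : x < y) : p.lg x < p.lg y := by
  rwa [← p.ex_strictMono.lt_iff_lt, p.ex_lg hx, p.ex_lg (hx.trans h)]

theorem rho_strictMono (w : Wr Unit01) : StrictMono (p.rho w) := by
  intro x y hxy
  have h0 : 0 < exp p.ℓ ^ w.m := zpow_pos (exp_pos _) _
  rcases lt_or_ge 0 x with hx | hx
  · rw [p.rho_pos w hx, p.rho_pos w (hx.trans hxy)]
    exact p.ex_strictMono (wperm_strictMono w (p.lg_lt hx hxy))
  rcases lt_or_ge 0 y with hy | hy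
  · rw [p.rho_nonpos w hx, p.rho_pos w hy]
    exact (mul_nonpos_of_nonneg_of_nonpos h0.le hx).trans_lt (p.ex_pos _)
  · rw [p.rho_nonpos w hx, p.rho_nonpos w hy]
    exact mul_lt_mul_of_pos_left hxy h0

theorem rho_shift (x : ℝ) : p.rho Wr.shift x = exp p.ℓ * x := by
  rcases lt_or_ge 0 x with hx | hx
  · rw [p.rho_pos _ hx, wperm_shift, ← Int.cast_one, p.ex_add_int, p.ex_lg hx, zpow_one]
  · rw [p.rho_nonpos _ hx]
    simp [Wr.shift]

open Classical in
/-- The displacement on the fundamental domain. -/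
noncomputable def chi (ε : ℝ × ℝ) (x : ℝ) : ℝ := if 0 < x then p.ex (Phi ε (p.lg x)) - x else 0

theorem chi_of_lg (ε : ℝ × ℝ) {x : ℝ} (h : p.lg x ∉ Ioo (0 : ℝ) 1) : p.chi ε x = 0 := by
  unfold chi
  split_ifs with hx
  · rw [Phi, extFun_of_not_mem _ h, p.ex_lg hx, sub_self]
  · rfl

theorem chi_nonpos (ε : ℝ × ℝ) {x : ℝ} (h : x ≤ 0) : p.chi ε x = 0 := if_neg (not_lt.2 h)

theorem chi_supp (ε : ℝ × ℝ) (x : ℝ) (h : x ∉ Icc (p.ex 0) (p.ex 1)) : p.chi ε x = 0 := by
  rcases lt_or_ge 0 x with hx | hx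
  · refine p.chi_of_lg ε fun h' => h ?_
    rw [← p.ex_lg hx]
    exact ⟨(p.ex_strictMono h'.1).le, (p.ex_strictMono h'.2).le⟩
  · exact p.chi_nonpos ε hx

theorem chi_zero (x : ℝ) : p.chi 0 x = 0 := by
  unfold chi
  split_ifs with hx
  · have : Phi 0 (p.lg x) = p.lg x := by
      have := affU_apply 1 (p.lg x)
      rw [map_one] at this
      exact this.symm
    rw [this, p.ex_lg hx, sub_self]
  · rfl

theorem contDiff_chi {N : ℕ∞} (h1 : ContDiff ℝ N p.φ) (h2 : ContDiff ℝ N p.φ.symm) :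
    ContDiff ℝ N (fun q : (ℝ × ℝ) × ℝ => p.chi q.1 q.2) := by
  rw [contDiff_iff_contDiffAt]
  rintro ⟨ε, x⟩
  rcases lt_or_ge 0 x with hx | hx
  · have a1 : ContDiffAt ℝ N (fun q : (ℝ × ℝ) × ℝ => p.lg q.2) (ε, x) :=
      h2.contDiffAt.comp (ε, x) ((contDiffAt_snd.log hx.ne').div_const _)
    have a2 : ContDiffAt ℝ N (fun q : (ℝ × ℝ) × ℝ => Phi q.1 (p.lg q.2)) (ε, x) :=
      contDiff_Phi.contDiffAt.comp (ε, x) (contDiffAt_fst.prodMk a1)
    have a3 : ContDiffAt ℝ N (fun q : (ℝ × ℝ) × ℝ => p.ex (Phi q.1 (p.lg q.2)) - q.2) (ε, x) :=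
      (contDiffAt_const.mul (h1.contDiffAt.comp (ε, x) a2)).exp.sub contDiffAt_snd
    refine a3.congr_of_eventuallyEq ?_
    have : ∀ᶠ q : (ℝ × ℝ) × ℝ in 𝓝 (ε, x), 0 < q.2 :=
      continuousAt_snd.eventually (Ioi_mem_nhds hx)
    filter_upwards [this] with q hq
    exact if_pos hq
  · refine (contDiffAt_const (c := (0 : ℝ))).congr_of_eventuallyEq ?_
    have : ∀ᶠ q : (ℝ × ℝ) × ℝ in 𝓝 (ε, x), q.2 < p.ex 0 :=
      continuousAt_snd.eventually (Iio_mem_nhds (hx.trans_lt (p.ex_pos 0)))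
    filter_upwards [this] with q hq
    exact p.chi_supp _ _ fun h => absurd h.1 (not_le.2 hq)

theorem qhat_supp (ε : ℝ × ℝ) (y : ℝ) (h : y ∉ Icc (p.ex 1)⁻¹ (p.ex 0)⁻¹) :
    y * p.chi ε y⁻¹ = 0 := by
  rw [p.chi_supp, mul_zero]
  intro h'
  have h0 : 0 < y⁻¹ := (p.ex_pos 0).trans_le h'.1
  refine h ⟨?_, ?_⟩
  · exact inv_le_of_inv_le₀ (inv_pos.1 h0) h'.2
  · exact (le_inv_comm₀ (inv_pos.1 h0) (p.ex_pos 0)).2 h'.1

theorem contDiff_qhat {N : ℕ∞} (h1 : ContDiff ℝ N p.φ) (h2 : ContDiff ℝ N p.φ.symm) :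
    ContDiff ℝ N (fun q : (ℝ × ℝ) × ℝ => q.2 * p.chi q.1 q.2⁻¹) := by
  rw [contDiff_iff_contDiffAt]
  rintro ⟨ε, x⟩
  rcases lt_or_ge 0 x with hx | hx
  · exact contDiffAt_snd.mul ((p.contDiff_chi h1 h2).contDiffAt.comp (ε, x)
      (contDiffAt_fst.prodMk (contDiffAt_snd.inv hx.ne')))
  · refine (contDiffAt_const (c := (0 : ℝ))).congr_of_eventuallyEq ?_
    have : ∀ᶠ q : (ℝ × ℝ) × ℝ in 𝓝 (ε, x), q.2 < (p.ex 1)⁻¹ :=
      continuousAt_snd.eventually (Iio_mem_nhds (hx.trans_lt (inv_pos.2 (p.ex_pos 1))))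
    filter_upwards [this] with q hq
    exact p.qhat_supp _ _ fun h => absurd h.1 (not_le.2 hq)

theorem rho_eq_tsum {h : Wr AffP} (hm : h.m = 0) (x : ℝ) : p.rho (Wr.map affU h) x =
    x + ∑' j : ℤ, exp p.ℓ ^ j * p.chi ((h.f j).l, (h.f j).b) (exp p.ℓ ^ (-j) * x) := by
  rcases lt_or_ge 0 x with hx | hx
  · rw [tsum_eq_single ⌊p.lg x⌋]
    · rw [p.rho_pos _ hx, wperm_apply, chi, if_pos (mul_pos (zpow_pos (exp_pos _) _) hx),
        p.lg_mul hx, mul_sub, ← mul_assoc, ← zpow_add₀ (exp_pos _).ne', add_neg_cancel, zpow_zero,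
        one_mul, add_sub_cancel, ← p.ex_add_int, ← affU_apply]
      simp [Wr.map, hm, Int.fract, sub_eq_add_neg, add_comm]
    · intro j hj
      rw [p.chi_of_lg, mul_zero]
      rw [p.lg_mul hx]
      intro h'
      apply hj
      rw [eq_comm, Int.floor_eq_iff]
      push_cast at h'
      constructor <;> linarith [h'.1, h'.2]
  · rw [p.rho_nonpos _ hx]
    have : ∀ j : ℤ, p.chi ((h.f j).l, (h.f j).b) (exp p.ℓ ^ (-j) * x) = 0 := fun j =>
      p.chi_nonpos _ (mul_nonpos_of_nonneg_of_nonpos (zpow_pos (exp_pos _) _).le hx)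
    simp only [this, mul_zero, tsum_zero, add_zero]
    simp [Wr.map, hm]

theorem zpow_le_natAbs {a : ℝ} (ha : 1 ≤ a) (j : ℤ) : a ^ j ≤ a ^ j.natAbs := by
  rw [← zpow_natCast]
  exact zpow_le_zpow_right₀ ha (by rw [Int.natCast_natAbs]; exact le_abs_self j)

theorem contDiff_rho (k : ℕ) (h1 : ContDiff ℝ (k + 1 : ℕ) p.φ)
    (h2 : ContDiff ℝ (k + 1 : ℕ) p.φ.symm) (hθ : exp p.ℓ ^ (k + 1) < theta) {h : Wr AffP}
    (hm : h.m = 0) (hb : ∀ j, ‖((h.f j).l, (h.f j).b)‖ ≤ 5 * theta⁻¹ ^ j.natAbs) :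
    ContDiff ℝ k (extFun (p.rho (Wr.map affU h))) := by
  have hl : 1 ≤ exp p.ℓ := one_le_exp p.pos.le
  have hl0 : 0 < exp p.ℓ := exp_pos _
  have hr : exp p.ℓ ^ (k + 1) * theta⁻¹ < 1 := by
    rwa [← div_eq_mul_inv, div_lt_one theta_pos]
  have hz : ∀ j : ℤ, |exp p.ℓ ^ j| ≤ exp p.ℓ ^ j.natAbs := fun j => by
    rw [abs_of_pos (zpow_pos hl0 j)]
    exact zpow_le_natAbs hl j
  have hpw : ∀ j : ℤ, 1 ≤ exp p.ℓ ^ j.natAbs := fun j => one_le_pow₀ hl
  have s1 := contDiff_scaled_sum k p.chi (p.contDiff_chi (N := (k + 1 : ℕ)) h1 h2) p.chi_zero _ _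
    p.chi_supp (fun j => ((h.f j).l, (h.f j).b)) 5 theta⁻¹ (exp p.ℓ ^ (k + 1))
    (inv_pos.2 theta_pos).le (one_le_pow₀ hl) hr hb (fun j => exp p.ℓ ^ j)
    (fun j => exp p.ℓ ^ (-j)) (fun j i hi => by
      have a1 := hz (-j)
      rw [Int.natAbs_neg] at a1
      calc |exp p.ℓ ^ j| * |exp p.ℓ ^ (-j)| ^ i
          ≤ exp p.ℓ ^ j.natAbs * (exp p.ℓ ^ j.natAbs) ^ k :=
            mul_le_mul (hz j) ((pow_le_pow_left₀ (abs_nonneg _) a1 i).trans
              (pow_le_pow_right₀ (hpw j) hi)) (by positivity) (by positivity)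
        _ = _ := by rw [← pow_mul, ← pow_mul, ← pow_add]; congr 1; ring)
  have s2 := contDiff_scaled_sum k (fun ε y => y * p.chi ε y⁻¹)
    (p.contDiff_qhat (N := (k + 1 : ℕ)) h1 h2) (fun y => by simp [p.chi_zero]) _ _
    p.qhat_supp (fun j => ((h.f j).l, (h.f j).b)) 5 theta⁻¹ (exp p.ℓ ^ (k + 1))
    (inv_pos.2 theta_pos).le (one_le_pow₀ hl) hr hb (fun _ => 1)
    (fun j => exp p.ℓ ^ j) (fun j i hi => by
      calc |(1 : ℝ)| * |exp p.ℓ ^ j| ^ i
          ≤ exp p.ℓ ^ j.natAbs * (exp p.ℓ ^ j.natAbs) ^ k :=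
            mul_le_mul (by simpa using hpw j) ((pow_le_pow_left₀ (abs_nonneg _) (hz j) i).trans
              (pow_le_pow_right₀ (hpw j) hi)) (by positivity) (by positivity)
        _ = _ := by rw [← pow_mul, ← pow_mul, ← pow_add]; congr 1; ring)
  refine contDiff_extFun' (N := k) ?_ ((contDiff_const (c := (1 : ℝ))).add s2).contDiffAt
    (by simp) (Eventually.of_forall fun η hη => ?_) (Q' := fun _ => 1) contDiffAt_const one_pos
    (Eventually.of_forall fun η hη => ?_)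
  · rw [show (p.rho (Wr.map affU h) : ℝ → ℝ) = _ from funext (p.rho_eq_tsum hm)]
    exact contDiff_id.add s1
  · rw [p.rho_eq_tsum hm, add_mul, one_mul, ← tsum_mul_right]
    congr 2
    funext j
    rw [mul_inv, zpow_neg]
    field_simp
  · rw [p.rho_nonpos _ (neg_nonpos.2 (inv_pos.2 hη).le)]
    simp [Wr.map, hm]

theorem rho_mem_SU (k : ℕ) (h1 : ContDiff ℝ (k + 1 : ℕ) p.φ)
    (h2 : ContDiff ℝ (k + 1 : ℕ) p.φ.symm) (hθ : exp p.ℓ ^ (k + 1) < theta) {h : Wr AffP}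
    (hm : h.m = 0) (hb : ∀ j, ‖((h.f j).l, (h.f j).b)‖ ≤ 5 * theta⁻¹ ^ j.natAbs)
    (hb' : ∀ j, ‖((h⁻¹.f j).l, (h⁻¹.f j).b)‖ ≤ 5 * theta⁻¹ ^ j.natAbs) :
    ext (p.rho (Wr.map affU h)) ∈ SU k := by
  refine ext_mem_SU (p.rho_strictMono _) (p.contDiff_rho k h1 h2 hθ hm hb) ?_
  rw [← map_inv, ← map_inv]
  exact p.contDiff_rho k h1 h2 hθ (by simp [hm]) hb'

end Par

theorem abs_log_mseq (j : ℤ) : |log (mseq j)| ≤ 5 * theta⁻¹ ^ j.natAbs := by
  have h1 := tseq_pos j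
  have h2 := tseq_le_one j
  have h3 := tseq_le j
  rw [mseq, log_inv, abs_neg, abs_of_nonneg (log_nonneg (by nlinarith))]
  have := log_le_sub_one_of_pos (show 0 < 1 + 5 * (tseq j * tseq j) by positivity)
  nlinarith

theorem abs_log_two_sub_mseq (j : ℤ) : |log (2 - mseq j)| ≤ 5 * theta⁻¹ ^ j.natAbs := by
  have h1 := mseq_le j
  have h2 := one_sub_mseq j
  have h3 := tseq_le j
  rw [abs_of_nonneg (log_nonneg (by linarith))]
  have := log_le_sub_one_of_pos (show 0 < 2 - mseq j by linarith)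
  linarith

theorem abs_gseq (j : ℤ) : |(-1 : ℝ) ^ j * tseq j| ≤ 5 * theta⁻¹ ^ j.natAbs := by
  have h1 := tseq_pos j
  have h3 := tseq_le j
  rw [abs_mul, abs_zpow, abs_neg, abs_one, one_zpow, one_mul, abs_of_pos h1]
  linarith

theorem Par.gens_mem_SU (p : Par) (k : ℕ) (h1 : ContDiff ℝ (k + 1 : ℕ) p.φ)
    (h2 : ContDiff ℝ (k + 1 : ℕ) p.φ.symm) (hθ : exp p.ℓ ^ (k + 1) < theta) :
    ext (p.rho (Wr.map affU gH)) ∈ SU k ∧ ext (p.rho (Wr.map affU vH)) ∈ SU k ∧
      ext (p.rho (Wr.map affU uH)) ∈ SU k := by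
  refine ⟨p.rho_mem_SU k h1 h2 hθ rfl (fun j => ?_) fun j => ?_,
    p.rho_mem_SU k h1 h2 hθ rfl (fun j => ?_) fun j => ?_,
    p.rho_mem_SU k h1 h2 hθ rfl (fun j => ?_) fun j => ?_⟩
  · simpa [gH, Prod.norm_def, -abs_mul, -norm_mul] using abs_gseq j
  · simpa [gH, Prod.norm_def, -abs_mul, -norm_mul] using abs_gseq j
  · simpa [vH, Prod.norm_def] using abs_log_mseq j
  · simpa [vH, Prod.norm_def] using abs_log_mseq j
  · simpa [uH, Prod.norm_def] using abs_log_two_sub_mseq j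
  · simpa [uH, Prod.norm_def] using abs_log_two_sub_mseq j

end Pool.Agent.MP_84d7a8_al

end

-- part MP_84d7a8_al.Free
section

/-!
For every `k`, a `C^k` action of the amalgamated product in which no alternating word acts trivially.
-/

namespace Pool.Agent.MP_84d7a8_al

open Set Filter Topology Real Polynomial

/-- The field of rational functions. -/
abbrev KK : Type := FractionRing ℚ[X]

/-- The variable as a unit. -/
noncomputable def XU : KKˣ :=
  Units.mk0 (algebraMap ℚ[X] KK X) (by simp)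

/-- The translation by one. -/
noncomputable def aB : Aff KK := ⟨1, 1⟩
/-- The dilation by two. -/
noncomputable def tB : Aff KK := ⟨Units.mk0 2 two_ne_zero, 0⟩
/-- The dilation by the variable. -/
noncomputable def sB : Aff KK := ⟨XU, 0⟩

/-- The first vertex group. -/
noncomputable def B0 : Subgroup (Aff KK) := Subgroup.closure {aB, tB, sB}
/-- The second vertex group. -/
noncomputable def H0 : Subgroup (Wr AffP) := Subgroup.closure {Wr.shift, gH, vH, uH}

theorem countable_closure {G : Type} [Group G] {S : Set G} (hS : S.Countable) :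
    Countable (Subgroup.closure S) := by
  have := hS.to_subtype
  have h : Subgroup.closure S = (FreeGroup.lift (Subtype.val : S → G)).range := by
    rw [FreeGroup.range_lift_eq_closure, Subtype.range_coe]
  rw [h]
  exact (MonoidHom.rangeRestrict_surjective _).countable

/-- Letters. -/
def Letter : Type :=
  {b : Aff KK // b ∈ B0 ∧ b ∉ Subgroup.zpowers sB} ⊕
    {h : Wr AffP // h ∈ H0 ∧ h ∉ Subgroup.zpowers Wr.shift}

theorem not_mem_zpowers_sB {x : Aff KK} (hx : x.b ≠ 0) : x ∉ Subgroup.zpowers sB := by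
  rintro ⟨m, hm⟩
  simp only [sB, Aff.dil_zpow] at hm
  exact hx (congrArg Aff.b hm).symm

theorem aB_mem : aB ∈ B0 := Subgroup.subset_closure (by simp)

noncomputable instance : Inhabited Letter :=
  ⟨Sum.inl ⟨aB, aB_mem, not_mem_zpowers_sB (by simp [aB])⟩⟩

instance : Countable Letter := by
  have h1 : Countable B0 := countable_closure (Set.to_countable _)
  have h2 : Countable H0 := countable_closure (Set.to_countable _)
  have h3 : Countable {b : Aff KK // b ∈ B0 ∧ b ∉ Subgroup.zpowers sB} :=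
    Function.Injective.countable (f := fun b => (⟨b.1, b.2.1⟩ : B0))
      fun _ _ h => Subtype.ext (congrArg (fun x : B0 => x.1) h)
  have h4 : Countable {h : Wr AffP // h ∈ H0 ∧ h ∉ Subgroup.zpowers Wr.shift} :=
    Function.Injective.countable (f := fun b => (⟨b.1, b.2.1⟩ : H0))
      fun _ _ h => Subtype.ext (congrArg (fun x : H0 => x.1) h)
  exact inferInstanceAs (Countable (_ ⊕ _))

/-- The value of a letter. -/
noncomputable def Letter.val {Γ : Type} [Group Γ] (ρB : Aff KK →* Γ) (ρH : Wr AffP →* Γ) : Letter → Γ :=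
  Sum.elim (fun b => ρB b.1) (fun h => ρH h.1)

theorem exists_ell (k : ℕ) : ∃ ℓ : ℝ, 0 < ℓ ∧ exp ℓ ^ (k + 1) < theta ∧ ∃ ev : KK →+* ℝ,
    ev XU = exp ℓ := by
  have h1 : (exp ⁻¹' {x : ℝ | IsAlgebraic ℚ x}).Countable :=
    (Algebraic.countable ℚ ℝ).preimage exp_injective
  have h2 : 0 < log theta / (k + 1) := div_pos (log_pos (by linarith [theta_gt])) (by positivity)
  obtain ⟨ℓ, hℓ, hℓ'⟩ := (h1.dense_compl ℝ).exists_between h2
  refine ⟨ℓ, hℓ'.1, ?_, ?_⟩
  · rw [← exp_nat_mul, ← exp_log theta_pos, exp_lt_exp]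
    have := (lt_div_iff₀ (by positivity)).1 hℓ'.2
    push_cast
    linarith
  · have h3 : Function.Injective (aeval (exp ℓ) : ℚ[X] →ₐ[ℚ] ℝ) :=
      transcendental_iff_injective.1 hℓ
    refine ⟨IsFractionRing.lift (g := (aeval (exp ℓ) : ℚ[X] →ₐ[ℚ] ℝ).toRingHom) h3, ?_⟩
    simp [XU]

theorem H0_le : H0 ≤ HR := by
  rw [H0, Subgroup.closure_le]
  rintro x (rfl | rfl | rfl | rfl)
  exacts [shift_mem_HR, gH_mem_HR, vH_mem_HR, uH_mem_HR]

theorem B0_pos (ev : KK →+* ℝ) (h : 0 < ev XU) {x : Aff KK} (hx : x ∈ B0) : 0 < ev x.u := by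
  induction hx using Subgroup.closure_induction with
  | mem x hx =>
    rcases hx with rfl | rfl | rfl
    · simp [aB]
    · simp [tB, map_ofNat]
    · exact h
  | one => simp
  | mul x y _ _ h1 h2 => simpa using mul_pos h1 h2
  | inv x _ h1 => simpa using h1

theorem exists_model (k : ℕ) : ∃ (ρB : Aff KK →* Equiv.Perm ℝ) (ρH : Wr AffP →* Equiv.Perm ℝ),
    ρB sB = ρH Wr.shift ∧ (∀ x ∈ B0, ext (ρB x) ∈ SU k) ∧ (∀ x ∈ H0, ext (ρH x) ∈ SU k) ∧
    (∀ m : ℤ, ρB sB ^ m = 1 → m = 0) ∧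
    ∀ (w : ℕ → Letter) (n : ℕ), 0 < n → (∀ i, i + 1 < n → (w i).isRight ≠ (w (i + 1)).isRight) →
      rprod (fun i => (w i).val ρB ρH) n ≠ 1 := by
  obtain ⟨ℓ, hℓ, hθ, ev, hev⟩ := exists_ell k
  obtain ⟨P, hP⟩ := exists_pertFamily (k + 1) (by omega)
  have hX : 0 < ev XU := by rw [hev]; exact exp_pos _
  let T : Letter → ℝ → ℝ := Sum.elim (fun b y => log (affK ev b.1 (exp (ℓ * y))) / ℓ)
    (fun h => wperm (Wr.map affU h.1))
  have hK : ∀ l : Letter, ∃ K, GoodLetter (T l) K ∧ ∀ b, l = Sum.inl b →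
      ∀ y, K ≤ y → 0 < affK ev b.1 (exp (ℓ * y)) := by
    rintro (b | h)
    · obtain ⟨K, h1, h2⟩ := goodLetter_B ev hℓ hev (B0_pos ev hX b.2.1) b.2.2
      exact ⟨K, h1, fun b' hb => by cases hb; exact h2⟩
    · obtain ⟨K, h1⟩ := goodLetter_H (H0_le h.2.1) h.2.2
      exact ⟨K, h1, fun b' hb => by cases hb⟩
  choose K hK1 hK2 using hK
  obtain ⟨c, hc⟩ := P.generic (fun l : Letter => l.isRight) T K hK1
  let p : Par := ⟨ℓ, hℓ, P.φ c, (hP c).1, P.add_int c⟩
  have hs : affK ev sB = p.rho (Wr.map affU Wr.shift) := by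
    have : Wr.map affU Wr.shift = Wr.shift := by ext <;> simp [Wr.map, Wr.shift]
    ext x
    rw [this, p.rho_shift, affK_apply]
    simp [sB, hev, p]
  have hB : ∀ x ∈ B0, ext (affK ev x) ∈ SU k := fun x hx =>
    ext_mem_SU_affine (B0_pos ev hX hx) (affK_apply ev x)
  refine ⟨affK ev, p.rho.comp (Wr.map affU), hs, hB, fun x hx => ?_, fun m hm => ?_,
    fun w n hn halt h => ?_⟩
  · obtain ⟨g1, g2, g3⟩ := p.gens_mem_SU k (hP c).2.1 (hP c).2.2 hθ
    have : H0 ≤ (SU k).comap (ext.comp (p.rho.comp (Wr.map affU))) := by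
      rw [H0, Subgroup.closure_le]
      rintro x (rfl | rfl | rfl | rfl)
      · change ext (p.rho (Wr.map affU Wr.shift)) ∈ SU k
        rw [← hs]
        exact hB _ (Subgroup.subset_closure (by simp))
      exacts [g1, g2, g3]
    exact this hx
  · rw [← map_zpow, sB, Aff.dil_zpow] at hm
    have h1 := congrArg (fun F : Equiv.Perm ℝ => F 1) hm
    simp only [affK_apply, Units.val_zpow_eq_zpow_val, map_zpow₀, hev, mul_one, map_zero, add_zero,
      Equiv.Perm.one_apply] at h1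
    exact (zpow_eq_one_iff_right₀ (exp_pos _).le (one_lt_exp_iff.2 hℓ).ne').1 h1
  · obtain ⟨y, hy1, hy2⟩ := hc w n hn halt
    have key : ∀ i ≤ n, rprod (fun i => (w i).val (affK ev) (p.rho.comp (Wr.map affU))) i
        (exp (ℓ * y)) = exp (ℓ * P.orb (fun l : Letter => l.isRight) T w c y i) := by
      intro i
      induction i with
      | zero => intro _; rfl
      | succ i ih =>
        intro hi
        rw [rprod, Equiv.Perm.mul_apply, ih (by omega), PertFamily.orb]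
        have h1 := hy1 i (by omega)
        generalize P.orb (fun l : Letter => l.isRight) T w c y i = z at h1
        rcases hw : w i with b | g
        · have h2 := hK2 _ b hw z (by linarith)
          simp only [Letter.val, PertFamily.act, T, Sum.elim_inl, Sum.isRight_inl,
            Bool.false_eq_true, if_false]
          rw [mul_div_cancel₀ _ hℓ.ne', exp_log h2]
        · simp only [Letter.val, PertFamily.act, T, Sum.elim_inr, Sum.isRight_inr, if_true,
            MonoidHom.comp_apply]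
          rw [p.rho_pos _ (exp_pos _)]
          simp [Par.ex, Par.lg, p, mul_div_cancel_left₀ _ hℓ.ne']
    have h3 := key n le_rfl
    rw [h] at h3
    exact hy2 (mul_left_cancel₀ hℓ.ne' (exp_injective h3)).symm

end Pool.Agent.MP_84d7a8_al

end

-- part MP_84d7a8_al.Main
section

/-!
Assembling the group.
-/

namespace Pool.Agent.MP_84d7a8_al

open Set

theorem fg_map {G G' : Type} [Group G] [Group G'] {H : Subgroup G} (h : H.FG) (f : G →* G') :
    (H.map f).FG := by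
  obtain ⟨S, rfl, hS⟩ := (Subgroup.fg_iff _).1 h
  exact (Subgroup.fg_iff _).2 ⟨f '' S, (MonoidHom.map_closure f S).symm, hS.image f⟩

theorem not_mem_zpowers_shift {x : Wr AffP} (j : ℤ) (hx : x.f j ≠ 1) :
    x ∉ Subgroup.zpowers Wr.shift := by
  rintro ⟨m, hm⟩
  simp only [Wr.shift_zpow] at hm
  exact hx (congrFun (congrArg Wr.f hm) j).symm

theorem gH_pow_f (n : ℕ) : (gH ^ n).m = 0 ∧ ((gH ^ n).f 0).l = 0 ∧ ((gH ^ n).f 0).b = n * tseq 0 := by
  induction n with
  | zero => simp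
  | succ n ih =>
    rw [pow_succ]
    refine ⟨by simpa [gH] using ih.1, by simpa [gH] using ih.2.1, ?_⟩
    have h0 : gH.m = 0 := rfl
    have h1 : (gH.f 0).b = tseq 0 := by simp [gH]
    rw [Wr.mul_f, AffP.mul_b, h0, add_zero, ih.2.1, ih.2.2, h1]
    simp
    ring

theorem gH_five : gH ^ 5 ∉ Subgroup.zpowers Wr.shift := by
  refine not_mem_zpowers_shift 0 fun h => ?_
  have h1 := (gH_pow_f 5).2.2
  rw [h] at h1
  have := tseq_pos 0
  simp at h1
  linarith

theorem mem_normalizer_map {G G' : Type} [Group G] [Group G'] {A : Subgroup G}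
    (hA : ∀ w, ∀ x ∈ A, w * x * w⁻¹ ∈ A) (f : G →* G') (w : G) :
    f w ∈ Subgroup.normalizer (A.map f : Set G') := by
  have : A.Normal := ⟨fun x hx w => hA w x hx⟩
  exact Subgroup.le_normalizer_map f ⟨w, by rw [Subgroup.normalizer_eq_top]; trivial, rfl⟩

theorem exists_interval_group : ∃ (G : Type) (_ : Group G) (C : Config G), Group.FG G ∧
    C.a * C.g ^ 5 ≠ C.g ^ 5 * C.a ∧ ∀ k : ℕ, ∃ φ : G →* SU k, Function.Injective φ := by
  choose ρB ρH hs hB hH hinf hfree using exists_model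
  let ιB : Aff KK →* (ℕ → Equiv.Perm ℝ) := MonoidHom.pi ρB
  let ιH : Wr AffP →* (ℕ → Equiv.Perm ℝ) := MonoidHom.pi ρH
  have hι : ιB sB = ιH Wr.shift := funext hs
  let S : Bool → Subgroup (ℕ → Equiv.Perm ℝ) := fun i => cond i (H0.map ιH) (B0.map ιB)
  have hgH : gH ∈ H0 := Subgroup.subset_closure (by simp)
  have hne5 : ιB aB * ιH gH ^ 5 ≠ ιH gH ^ 5 * ιB aB := by
    intro h
    let w : ℕ → Letter := fun i => match i with
      | 0 => Sum.inr ⟨(gH ^ 5)⁻¹, inv_mem (pow_mem hgH 5), by simpa using gH_five⟩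
      | 1 => Sum.inl ⟨aB⁻¹, inv_mem aB_mem, not_mem_zpowers_sB (by simp [aB])⟩
      | 2 => Sum.inr ⟨gH ^ 5, pow_mem hgH 5, gH_five⟩
      | _ => Sum.inl ⟨aB, aB_mem, not_mem_zpowers_sB (by simp [aB])⟩
    refine hfree 0 w 4 (by norm_num) (fun i hi => ?_) ?_
    · have : i < 3 := by omega
      interval_cases i
      · exact (by decide : true ≠ false)
      · exact (by decide : false ≠ true)
      · exact (by decide : true ≠ false)
    · have h0 : ρB 0 aB * ρH 0 gH ^ 5 = ρH 0 gH ^ 5 * ρB 0 aB := congrFun h 0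
      change ρB 0 aB * (ρH 0 (gH ^ 5) * (ρB 0 aB⁻¹ * (ρH 0 (gH ^ 5)⁻¹ * 1))) = 1
      rw [map_inv, map_inv, map_pow, ← mul_assoc, h0]
      simp
  let C : Config (ℕ → Equiv.Perm ℝ) :=
    { A := (AB KK).map ιB
      M := MH.map ιH
      a := ιB aB
      t := ιB tB
      s := ιB sB
      g := ιH gH
      v := ιH vH
      u := ιH uH
      hA := by
        rintro _ ⟨x, hx, rfl⟩ _ ⟨y, hy, rfl⟩
        exact (AB_comm hx hy).map ιB
      hM := by
        rintro _ ⟨x, hx, rfl⟩ _ ⟨y, hy, rfl⟩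
        exact (MH_comm hx hy).map ιH
      ha := ⟨aB, rfl, rfl⟩
      ht := mem_normalizer_map (fun w _ hx => AB_conj w hx) _ _
      hsA := mem_normalizer_map (fun w _ hx => AB_conj w hx) _ _
      hts := Commute.map (by ext <;> simp [tB, sB, mul_comm]) ιB
      hta := by
        rw [← map_inv, ← map_mul, ← map_mul, ← map_pow, pow_two]
        congr 1
        ext <;> simp [tB, aB]
        norm_num
      hg := ⟨gH, gH_mem, rfl⟩
      hsM := hι ▸ mem_normalizer_map (fun w _ hx => MH_conj w hx) _ _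
      hv := mem_normalizer_map (fun w _ hx => MH_conj w hx) _ _
      hu := mem_normalizer_map (fun w _ hx => MH_conj w hx) _ _
      huv := vH_uH.map ιH
      havg := by
        rintro _ ⟨x, hx, rfl⟩
        simpa using congrArg ιH (MH_avg hx)
      hrel := by
        rw [hι]
        simpa using congrArg ιH gH_rel
      hne := fun h => hne5 (Commute.pow_right h 5) }
  have mB : ∀ x ∈ B0, ιB x ∈ ⨆ i, S i := fun x hx =>
    Subgroup.mem_iSup_of_mem false ⟨x, hx, rfl⟩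
  have mH : ∀ x ∈ H0, ιH x ∈ ⨆ i, S i := fun x hx =>
    Subgroup.mem_iSup_of_mem true ⟨x, hx, rfl⟩
  have hsB : sB ∈ B0 := Subgroup.subset_closure (by simp)
  refine ⟨(⨆ i, S i :), inferInstance, C.restrict _ (mB _ aB_mem)
    (mB _ (Subgroup.subset_closure (by simp))) (mB _ hsB) (mH _ hgH)
    (mH _ (Subgroup.subset_closure (by simp))) (mH _ (Subgroup.subset_closure (by simp))), ?_,
    fun h => hne5 (congrArg Subtype.val h), fun k => ?_⟩
  · rw [Group.fg_iff_subgroup_fg]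
    refine Subgroup.FG.iSup _ ?_
    rintro (_ | _)
    · exact fg_map ((Subgroup.fg_iff _).2 ⟨_, rfl, Set.toFinite _⟩) _
    · exact fg_map ((Subgroup.fg_iff _).2 ⟨_, rfl, Set.toFinite _⟩) _
  · let π : (ℕ → Equiv.Perm ℝ) →* Equiv.Perm ℝ := Pi.evalMonoidHom (fun _ => Equiv.Perm ℝ) k
    have hle : (⨆ i, S i) ≤ (SU k).comap (ext.comp π) := by
      refine iSup_le ?_
      rintro (_ | _) _ ⟨x, hx, rfl⟩
      · exact hB k x hx
      · exact hH k x hx
    refine ⟨((ext.comp π).comp (⨆ i, S i).subtype).codRestrict _ fun γ => hle γ.2, ?_⟩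
    rw [injective_iff_map_eq_one]
    rintro ⟨γ, hγ⟩ h
    have h1 : π γ = 1 := (map_eq_one_iff _ ext_injective).1 (congrArg Subtype.val h)
    have hC : ∀ i, Subgroup.zpowers (ιB sB) ≤ S i := by
      rintro (_ | _) <;> rw [Subgroup.zpowers_le]
      · exact ⟨sB, hsB, rfl⟩
      · exact ⟨Wr.shift, Subgroup.subset_closure (by simp), hι.symm⟩
    rcases normal_form S _ hC hγ with ⟨m, rfl⟩ | ⟨n, κ, x, hn, a1, a2, rfl⟩
    · have := hinf k m h1
      subst this
      simp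
    · exfalso
      have hw : ∀ i, ∃ l : Letter, i < n → l.isRight = κ i ∧ l.val ιB ιH = x i := by
        intro i
        by_cases hi : i < n
        swap
        · exact ⟨default, fun h => absurd h hi⟩
        obtain ⟨b1, b2⟩ := a1 i hi
        rcases hκ : κ i with _ | _ <;> rw [hκ] at b1
        · obtain ⟨y, hy, hy'⟩ := b1
          refine ⟨Sum.inl ⟨y, hy, ?_⟩, fun _ => ⟨rfl, hy'⟩⟩
          rintro ⟨m, rfl⟩
          exact b2 ⟨m, by rw [← hy', map_zpow]⟩
        · obtain ⟨y, hy, hy'⟩ := b1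
          refine ⟨Sum.inr ⟨y, hy, ?_⟩, fun _ => ⟨rfl, hy'⟩⟩
          rintro ⟨m, rfl⟩
          exact b2 ⟨m, by rw [← hy', map_zpow, hι]⟩
      choose w hw using hw
      refine hfree k w n hn (fun i hi => ?_) ?_
      · rw [(hw i (by omega)).1, (hw (i + 1) hi).1]
        exact a2 i hi
      · rw [← h1, map_rprod]
        refine rprod_congr fun i hi => ?_
        rw [← (hw i hi).2]
        rcases w i with b | g <;> rfl

theorem main : ∃ (G : Type) (_ : Group G), Group.FG G ∧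
    (∀ k : ℕ, 1 ≤ k → ∃ φ : G →* DiffInterval k, Function.Injective φ) ∧
    (¬ ∃ φ : G →* DiffInterval ⊤, Function.Injective φ) ∧
    (∀ k : ℕ, 1 ≤ k → ∃ φ : G →* DiffCircle k, Function.Injective φ) ∧
    ¬ ∃ φ : G →* DiffCircle ⊤, Function.Injective φ := by
  obtain ⟨G, _, C, hfg, h5, hk⟩ := exists_interval_group
  let D : Subgroup (Wr G) := Subgroup.closure {Wr.shift} ⊔ (Wr.single 0).range
  have hs : Wr.shift ∈ D := Subgroup.mem_sup_left (Subgroup.subset_closure rfl)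
  have h0 : ∀ x, Wr.single 0 x ∈ D := fun x => Subgroup.mem_sup_right ⟨x, rfl⟩
  have hD : ∀ k : ℕ, ∃ φ : D →* SU k, Function.Injective φ := by
    intro k
    obtain ⟨φ, hφ⟩ := hk k
    let j : G →* Unit01 := (Subgroup.inclusion (SU_le k)).comp φ
    have hj : Function.Injective j := (Subgroup.inclusion_injective (SU_le k)).comp hφ
    let Θ : Wr G →* Equiv.Perm ℝ := ext.comp (wperm.comp (Wr.map j))
    have hle : D ≤ (SU k).comap Θ := by
      refine sup_le ?_ ?_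
      · rw [Subgroup.closure_le]
        rintro _ rfl
        have : Wr.map j Wr.shift = Wr.shift := by ext <;> simp [Wr.map, Wr.shift]
        change ext (wperm (Wr.map j Wr.shift)) ∈ SU k
        rw [this]
        exact ext_mem_SU_affine one_pos (b := 1) fun x => by rw [wperm_shift, one_mul]
      · rintro _ ⟨x, rfl⟩
        have : Wr.map j (Wr.single 0 x) = Wr.single 0 (j x) := by
          ext1
          · rfl
          · funext i
            by_cases hi : i = 0 <;> simp [Wr.map, Wr.single, hi]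
        change ext (wperm (Wr.map j (Wr.single 0 x))) ∈ SU k
        rw [this, show wperm (Wr.single 0 (j x)) = (φ x).1 from
          Equiv.ext fun z => wperm_single _ z]
        exact ext_mem_SU_of_mem (φ x).2
    exact ⟨(Θ.comp D.subtype).codRestrict _ fun γ => hle γ.2, fun x y h =>
      Subtype.ext (Wr.map_injective hj (wperm_injective (ext_injective (congrArg Subtype.val h))))⟩
  refine ⟨D, inferInstance, ?_, fun k _ => ?_, ?_, fun k _ => ?_, wreath_no_circle C h5 D hs h0⟩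
  · rw [Group.fg_iff_subgroup_fg]
    exact Subgroup.FG.sup ((Subgroup.fg_iff _).2 ⟨_, rfl, Set.toFinite _⟩)
      ((Group.fg_iff_subgroup_fg _).1 inferInstance)
  · obtain ⟨φ, hφ⟩ := hD k
    obtain ⟨ψ, hψ⟩ := SU_interval k
    exact ⟨ψ.comp φ, hψ.comp hφ⟩
  · rintro ⟨φ, hφ⟩
    exact C.no_interval ⟨φ.comp ((Wr.single 0).codRestrict D h0), hφ.comp fun x y h =>
      Wr.single_injective 0 (congrArg Subtype.val h)⟩
  · obtain ⟨φ, hφ⟩ := hD k
    obtain ⟨ψ, hψ⟩ := SU_circle k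
    exact ⟨ψ.comp φ, hψ.comp hφ⟩

end Pool.Agent.MP_84d7a8_al

end
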