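import Mathlib

-- part MP_84d7a8_al.Dist
section

/-!
Distortion estimates for groups acting on the line (Kopell-type lemmas), in derivative-free form.
-/

namespace Pool.Agent.MP_84d7a8_al

open Set Filter Topology

/-- Ratios of difference quotients of `f` on `[c,d]` are bounded by `κ`. -/
def DistOn (f : ℝ → ℝ) (c d κ : ℝ) : Prop :=
  ∀ x y x' y' : ℝ, c ≤ x → x ≤ y → y ≤ d → c ≤ x' → x' ≤ y' → y' ≤ d →
    (f y - f x) * (y' - x') ≤ κ * ((f y' - f x') * (y - x))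

/-- Bounded distortion on all subintervals of `[α,β]`, exponentially small in the length. -/
def HasDist (f : ℝ → ℝ) (α β : ℝ) : Prop :=
  ∃ K : ℝ, 0 ≤ K ∧ ∀ c d : ℝ, α ≤ c → c ≤ d → d ≤ β → DistOn f c d (Real.exp (K * (d - c)))

theorem DistOn.mono_const {f : ℝ → ℝ} {c d κ κ' : ℝ} (hf : Monotone f) (h : DistOn f c d κ)
    (hk : κ ≤ κ') : DistOn f c d κ' := by
  intro x y x' y' h1 h2 h3 h4 h5 h6
  refine (h x y x' y' h1 h2 h3 h4 h5 h6).trans ?_
  apply mul_le_mul_of_nonneg_right hk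
  exact mul_nonneg (sub_nonneg.2 (hf h5)) (sub_nonneg.2 h2)

theorem DistOn.id (c d : ℝ) : DistOn (fun x => x) c d 1 := by
  intro x y x' y' _ _ _ _ _ _
  nlinarith

theorem DistOn.comp {f g : ℝ → ℝ} {c d κ₁ κ₂ : ℝ} (hf : StrictMono f) (hg : Monotone g)
    (h1 : DistOn f c d κ₁) (h2 : DistOn g (f c) (f d) κ₂) (hk2 : 0 ≤ κ₂) :
    DistOn (fun x => g (f x)) c d (κ₁ * κ₂) := by
  intro x y x' y' a1 a2 a3 a4 a5 a6
  rcases a5.eq_or_lt with rfl | a5'
  · simp
  have hA := h1 x y x' y' a1 a2 a3 a4 a5 a6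
  have hB := h2 (f x) (f y) (f x') (f y') (hf.monotone a1) (hf.monotone a2) (hf.monotone a3)
    (hf.monotone a4) (hf.monotone a5) (hf.monotone a6)
  have hpos : 0 < f y' - f x' := sub_pos.2 (hf a5')
  have hG : 0 ≤ g (f y') - g (f x') := sub_nonneg.2 (hg (hf.monotone a5))
  have hy : 0 ≤ y' - x' := sub_nonneg.2 a5
  apply le_of_mul_le_mul_right _ hpos
  calc (g (f y) - g (f x)) * (y' - x') * (f y' - f x')
      = ((g (f y) - g (f x)) * (f y' - f x')) * (y' - x') := by ring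
    _ ≤ (κ₂ * ((g (f y') - g (f x')) * (f y - f x))) * (y' - x') :=
        mul_le_mul_of_nonneg_right hB hy
    _ = (κ₂ * (g (f y') - g (f x'))) * ((f y - f x) * (y' - x')) := by ring
    _ ≤ (κ₂ * (g (f y') - g (f x'))) * (κ₁ * ((f y' - f x') * (y - x))) :=
        mul_le_mul_of_nonneg_left hA (mul_nonneg hk2 hG)
    _ = κ₁ * κ₂ * ((g (f y') - g (f x')) * (y - x)) * (f y' - f x') := by ring

/-- A map fixing both endpoints with distortion `κ` moves points by at most `(κ-1)` times the length. -/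
theorem DistOn.displacement {f : ℝ → ℝ} {c d κ : ℝ} (h : DistOn f c d κ) (hcd : c < d)
    (hk : 1 ≤ κ) (hc : f c = c) (hd : f d = d) {y : ℝ} (h1 : c ≤ y) (h2 : y ≤ d) :
    |f y - y| ≤ (κ - 1) * (d - c) := by
  have hpos : 0 < d - c := sub_pos.2 hcd
  have A := h c y c d le_rfl h1 h2 le_rfl hcd.le le_rfl
  have B := h y d c d h1 h2 le_rfl le_rfl hcd.le le_rfl
  rw [hc, hd] at A B
  have A' : f y - c ≤ κ * (y - c) := by
    apply le_of_mul_le_mul_right _ hpos
    nlinarith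
  have B' : d - f y ≤ κ * (d - y) := by
    apply le_of_mul_le_mul_right _ hpos
    nlinarith
  rw [abs_le]
  constructor <;> nlinarith

/-- Lipschitz bound through distortion. -/
theorem DistOn.lip {f : ℝ → ℝ} {c d κ : ℝ} (hf : Monotone f) (h : DistOn f c d κ) (hcd : c < d)
    {x y : ℝ} (hx1 : c ≤ x) (hx2 : x ≤ d) (hy1 : c ≤ y) (hy2 : y ≤ d) :
    |f y - f x| * (d - c) ≤ κ * ((f d - f c) * |y - x|) := by
  rcases le_total x y with hxy | hxy
  · rw [abs_of_nonneg (sub_nonneg.2 (hf hxy)), abs_of_nonneg (sub_nonneg.2 hxy)]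
    exact h x y c d hx1 hxy hy2 le_rfl hcd.le le_rfl
  · rw [abs_sub_comm (f y), abs_sub_comm y, abs_of_nonneg (sub_nonneg.2 (hf hxy)),
      abs_of_nonneg (sub_nonneg.2 hxy)]
    exact h y x c d hy1 hxy hx2 le_rfl hcd.le le_rfl

theorem HasDist.exists_lip {f : ℝ → ℝ} {α β : ℝ} (hf : Monotone f) (h : HasDist f α β) :
    ∃ L : ℝ, 1 ≤ L ∧ ∀ x y : ℝ, α ≤ x → x ≤ β → α ≤ y → y ≤ β → |f y - f x| ≤ L * |y - x| := by
  rcases lt_or_ge α β with hab | hab
  · obtain ⟨K, hK, hd⟩ := h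
    have hD := hd α β le_rfl hab.le le_rfl
    have hpos : 0 < β - α := sub_pos.2 hab
    refine ⟨max 1 (Real.exp (K * (β - α)) * (f β - f α) / (β - α)), le_max_left _ _, ?_⟩
    intro x y a1 a2 a3 a4
    have := hD.lip hf hab a1 a2 a3 a4
    calc |f y - f x| ≤ (Real.exp (K * (β - α)) * (f β - f α) / (β - α)) * |y - x| := by
          rw [div_mul_eq_mul_div, le_div_iff₀ hpos]
          linarith
      _ ≤ _ := mul_le_mul_of_nonneg_right (le_max_right _ _) (abs_nonneg _)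
  · refine ⟨1, le_rfl, ?_⟩
    intro x y a1 a2 a3 a4
    have hx : x = α := le_antisymm (a2.trans hab) a1
    have hy : y = α := le_antisymm (a4.trans hab) a3
    simp [hx, hy]

theorem sum_len_le {α β : ℝ} (hab : α ≤ β) (c d : ℕ → ℝ) (hin : ∀ n, α ≤ c n ∧ d n ≤ β)
    (hcd : ∀ n, c n ≤ d n)
    (hdisj : ∀ m n, m ≠ n → d m ≤ c n ∨ d n ≤ c m) (N : ℕ) :
    ∑ n ∈ Finset.range N, (d n - c n) ≤ β - α := by
  have h1 : MeasureTheory.volume (⋃ n ∈ Finset.range N, Ioo (c n) (d n)) =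
      ∑ n ∈ Finset.range N, MeasureTheory.volume (Ioo (c n) (d n)) := by
    apply MeasureTheory.measure_biUnion_finset
    · intro m _ n _ hmn
      simp only [Function.onFun]
      rw [Set.disjoint_left]
      intro x hx hx'
      rcases hdisj m n hmn with h | h
      · linarith [hx.2, hx'.1]
      · linarith [hx.1, hx'.2]
    · intro n _
      exact measurableSet_Ioo
  have h2 : MeasureTheory.volume (⋃ n ∈ Finset.range N, Ioo (c n) (d n)) ≤
      MeasureTheory.volume (Ioo α β) := by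
    apply MeasureTheory.measure_mono
    intro x hx
    simp only [mem_iUnion] at hx
    obtain ⟨n, _, hx⟩ := hx
    exact ⟨lt_of_le_of_lt (hin n).1 hx.1, lt_of_lt_of_le hx.2 (hin n).2⟩
  rw [h1] at h2
  simp only [Real.volume_Ioo] at h2
  rw [← ENNReal.ofReal_sum_of_nonneg (fun n _ => sub_nonneg.2 (hcd n))] at h2
  exact (ENNReal.ofReal_le_ofReal_iff (sub_nonneg.2 hab)).1 h2

section Action

variable {Γ : Type*} [Group Γ] [MulAction Γ ℝ]

/-- Standing assumptions on the action: increasing maps with bounded distortion on `[α,β]`. -/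
structure Nice (Γ : Type*) [Group Γ] [MulAction Γ ℝ] (α β : ℝ) : Prop where
  mono : ∀ γ : Γ, StrictMono (fun x : ℝ => γ • x)
  dist : ∀ γ : Γ, HasDist (fun x : ℝ => γ • x) α β

variable {α β : ℝ}

theorem Nice.lt (H : Nice Γ α β) (γ : Γ) {x y : ℝ} : γ • x < γ • y ↔ x < y :=
  (H.mono γ).lt_iff_lt

theorem Nice.le (H : Nice Γ α β) (γ : Γ) {x y : ℝ} : γ • x ≤ γ • y ↔ x ≤ y :=
  (H.mono γ).le_iff_le

theorem Nice.dist_prod (H : Nice Γ α β) (x w : ℕ → Γ) (hw0 : w 0 = 1)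
    (hw : ∀ n, w (n + 1) = w n * x n) (K : ℝ) (hK0 : 0 ≤ K)
    (hK : ∀ n c d, α ≤ c → c ≤ d → d ≤ β →
      DistOn (fun y : ℝ => x n • y) c d (Real.exp (K * (d - c))))
    (c d : ℝ) (hcd : c < d) (hin : ∀ n, α ≤ (w n)⁻¹ • c ∧ (w n)⁻¹ • d ≤ β) (S : ℝ)
    (hS : ∀ N, ∑ n ∈ Finset.range N, ((w n)⁻¹ • d - (w n)⁻¹ • c) ≤ S) (n : ℕ) :
    DistOn (fun y : ℝ => w n • y) ((w n)⁻¹ • c) ((w n)⁻¹ • d) (Real.exp (K * S)) := by
  set len : ℕ → ℝ := fun n => (w n)⁻¹ • d - (w n)⁻¹ • c with hlen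
  have hlt : ∀ n, (w n)⁻¹ • c < (w n)⁻¹ • d := fun n => (H.lt _).2 hcd
  have hlen0 : ∀ n, 0 < len n := fun n => sub_pos.2 (hlt n)
  have hD : ∀ n, DistOn (fun y : ℝ => w n • y) ((w n)⁻¹ • c) ((w n)⁻¹ • d)
      (Real.exp (K * ∑ i ∈ Finset.range (n + 1), len i)) := by
    intro n
    induction n with
    | zero =>
      have : DistOn (fun y : ℝ => w 0 • y) ((w 0)⁻¹ • c) ((w 0)⁻¹ • d) 1 := by
        simpa [hw0] using DistOn.id c d
      refine this.mono_const (H.mono _).monotone ?_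
      apply Real.one_le_exp
      apply mul_nonneg hK0
      exact Finset.sum_nonneg fun i _ => (hlen0 i).le
    | succ n ih =>
      have h1 := hK n _ _ (hin (n + 1)).1 (hlt (n + 1)).le (hin (n + 1)).2
      have e1 : x n • (w (n + 1))⁻¹ • c = (w n)⁻¹ • c := by
        rw [hw, mul_inv_rev, mul_smul, smul_inv_smul]
      have e2 : x n • (w (n + 1))⁻¹ • d = (w n)⁻¹ • d := by
        rw [hw, mul_inv_rev, mul_smul, smul_inv_smul]
      have h2 := DistOn.comp (f := fun y : ℝ => x n • y) (g := fun y : ℝ => w n • y)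
        (H.mono _) (H.mono _).monotone h1 (by simpa only [e1, e2] using ih) (Real.exp_pos _).le
      have e3 : (fun y : ℝ => w (n + 1) • y) = fun y : ℝ => w n • x n • y := by
        funext y
        rw [hw, mul_smul]
      rw [e3, Finset.sum_range_succ _ (n + 1), mul_add, Real.exp_add, mul_comm]
      exact h2
  exact (hD n).mono_const (H.mono _).monotone
    (Real.exp_le_exp.2 (mul_le_mul_of_nonneg_left (hS _) hK0))

/-- The master estimate: conjugating by a product of maps along intervals of summable length. -/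
theorem Nice.master (H : Nice Γ α β) (x w : ℕ → Γ) (hw0 : w 0 = 1)
    (hw : ∀ n, w (n + 1) = w n * x n) (K : ℝ) (hK0 : 0 ≤ K)
    (hK : ∀ n c d, α ≤ c → c ≤ d → d ≤ β →
      DistOn (fun y : ℝ => x n • y) c d (Real.exp (K * (d - c))))
    (c d : ℝ) (hcd : c < d) (hin : ∀ n, α ≤ (w n)⁻¹ • c ∧ (w n)⁻¹ • d ≤ β) (S : ℝ)
    (hS : ∀ N, ∑ n ∈ Finset.range N, ((w n)⁻¹ • d - (w n)⁻¹ • c) ≤ S) (e : Γ)
    (he : ∀ n, e • (w n)⁻¹ • c = (w n)⁻¹ • c ∧ e • (w n)⁻¹ • d = (w n)⁻¹ • d)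
    {y : ℝ} (hy1 : c ≤ y) (hy2 : y ≤ d) :
    Tendsto (fun n => (w n * e * (w n)⁻¹) • y) atTop (𝓝 y) := by
  set len : ℕ → ℝ := fun n => (w n)⁻¹ • d - (w n)⁻¹ • c with hlen
  have hlt : ∀ n, (w n)⁻¹ • c < (w n)⁻¹ • d := fun n => (H.lt _).2 hcd
  have hlen0 : ∀ n, 0 < len n := fun n => sub_pos.2 (hlt n)
  have hsum : Summable len := summable_of_sum_range_le (fun n => (hlen0 n).le) hS
  have hlim : Tendsto len atTop (𝓝 0) := hsum.tendsto_atTop_zero
  have hD := H.dist_prod x w hw0 hw K hK0 hK c d hcd hin S hS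
  obtain ⟨Ke, hKe0, hKe⟩ := H.dist e
  have hbound : ∀ n, |(w n * e * (w n)⁻¹) • y - y| ≤
      Real.exp (K * S) * (d - c) * (Real.exp (Ke * len n) - 1) := by
    intro n
    have hy1' : (w n)⁻¹ • c ≤ (w n)⁻¹ • y := (H.le _).2 hy1
    have hy2' : (w n)⁻¹ • y ≤ (w n)⁻¹ • d := (H.le _).2 hy2
    have hE := (hKe _ _ (hin n).1 (hlt n).le (hin n).2).displacement (hlt n)
      (Real.one_le_exp (mul_nonneg hKe0 (hlen0 n).le)) (he n).1 (he n).2 hy1' hy2'
    have hey1 : (w n)⁻¹ • c ≤ e • (w n)⁻¹ • y := by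
      rw [← (he n).1]; exact (H.le _).2 hy1'
    have hey2 : e • (w n)⁻¹ • y ≤ (w n)⁻¹ • d := by
      rw [← (he n).2]; exact (H.le _).2 hy2'
    have hD' := (hD n).lip (H.mono _).monotone (hlt n) hy1' hy2' hey1 hey2
    simp only [smul_inv_smul] at hD'
    rw [mul_smul, mul_smul]
    apply le_of_mul_le_mul_right _ (hlen0 n)
    refine hD'.trans ?_
    have h3 : 0 ≤ Real.exp (K * S) * (d - c) := mul_nonneg (Real.exp_pos _).le (sub_pos.2 hcd).le
    calc Real.exp (K * S) * ((d - c) * |e • (w n)⁻¹ • y - (w n)⁻¹ • y|)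
        = (Real.exp (K * S) * (d - c)) * |e • (w n)⁻¹ • y - (w n)⁻¹ • y| := by ring
      _ ≤ (Real.exp (K * S) * (d - c)) * ((Real.exp (Ke * len n) - 1) * len n) :=
          mul_le_mul_of_nonneg_left hE h3
      _ = _ := by ring
  have hto : Tendsto (fun n => Real.exp (K * S) * (d - c) * (Real.exp (Ke * len n) - 1)) atTop
      (𝓝 0) := by
    have : Tendsto (fun n => Real.exp (K * S) * (d - c) * (Real.exp (Ke * len n) - 1)) atTop
        (𝓝 (Real.exp (K * S) * (d - c) * (Real.exp (Ke * 0) - 1))) := by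
      apply Tendsto.const_mul
      apply Tendsto.sub_const
      exact (Real.continuous_exp.tendsto _).comp (hlim.const_mul Ke)
    simpa using this
  rw [tendsto_iff_dist_tendsto_zero]
  refine squeeze_zero (fun n => dist_nonneg) (fun n => ?_) hto
  rw [Real.dist_eq]
  exact hbound n

theorem Nice.continuous (H : Nice Γ α β) (γ : Γ) : Continuous (fun x : ℝ => γ • x) :=
  ((H.mono γ).orderIsoOfSurjective _ (MulAction.surjective γ)).continuous

theorem Nice.pow_fixed {e : Γ} {x : ℝ} (h : e • x = x) (n : ℕ) : e ^ n • x = x := by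
  induction n with
  | zero => simp
  | succ n ih => rw [pow_succ, mul_smul, h, ih]

theorem Nice.inv_fixed {e : Γ} {x : ℝ} (h : e • x = x) : e⁻¹ • x = x := by
  rw [inv_smul_eq_iff, h]

theorem Nice.zpow_fixed {e : Γ} {x : ℝ} (h : e • x = x) (n : ℤ) : e ^ n • x = x := by
  cases n with
  | ofNat n => simpa using Nice.pow_fixed h n
  | negSucc n => rw [zpow_negSucc]; exact Nice.inv_fixed (Nice.pow_fixed h _)

/-- A fixed point of a positive power is a fixed point. -/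
theorem Nice.fixed_of_pow (H : Nice Γ α β) {e : Γ} {x : ℝ} {n : ℕ} (hn : 0 < n)
    (h : e ^ n • x = x) : e • x = x := by
  have key : ∀ (e : Γ), x < e • x → ∀ m : ℕ, x < e ^ (m + 1) • x := by
    intro e he m
    induction m with
    | zero => simpa using he
    | succ m ih =>
      rw [pow_succ, mul_smul]
      exact ih.trans ((H.lt _).2 he)
  obtain ⟨m, rfl⟩ : ∃ m, n = m + 1 := ⟨n - 1, by omega⟩
  rcases lt_trichotomy x (e • x) with h1 | h1 | h1
  · have := key e h1 m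
    rw [h] at this
    exact absurd this (lt_irrefl _)
  · exact h1.symm
  · have h2 : x < e⁻¹ • x := by
      rw [← H.lt e, smul_inv_smul]; exact h1
    have := key e⁻¹ h2 m
    rw [inv_pow, Nice.inv_fixed h] at this
    exact absurd this (lt_irrefl _)

/-- Forward orbits of a positive element exhaust the interval. -/
theorem Nice.exists_lt_pow (H : Nice Γ α β) {e : Γ} {c d : ℝ}
    (hpos : ∀ x, c < x → x < d → x < e • x) {x y : ℝ} (hy1 : c < y)
    (hx : x < d) : ∃ n : ℕ, x < e ^ n • y := by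
  by_contra hcon
  push Not at hcon
  have hlt : ∀ n : ℕ, e ^ n • y < d := fun n => (hcon n).trans_lt hx
  have hge : ∀ n : ℕ, y ≤ e ^ n • y := by
    intro n
    induction n with
    | zero => simp
    | succ n ih =>
      rw [pow_succ', mul_smul]
      exact ih.trans (hpos _ (hy1.trans_le ih) (hlt n)).le
  have hbdd : BddAbove (range fun n : ℕ => e ^ n • y) := ⟨x, by rintro _ ⟨n, rfl⟩; exact hcon n⟩
  set L := ⨆ n : ℕ, e ^ n • y with hL
  have hLx : L ≤ x := ciSup_le hcon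
  have hLy : y ≤ L := (hge 0).trans (le_ciSup hbdd 0)
  have h1 : L < e • L := hpos L (hy1.trans_le hLy) (hLx.trans_lt hx)
  have h2 : L ≤ e⁻¹ • L := by
    apply ciSup_le
    intro n
    rw [← H.le e, smul_inv_smul, ← mul_smul, ← pow_succ']
    exact le_ciSup hbdd (n + 1)
  rw [← H.le e, smul_inv_smul] at h2
  exact absurd h1 (not_lt.2 h2)

/-- Backward orbits of a positive element exhaust the interval. -/
theorem Nice.exists_pow_lt (H : Nice Γ α β) {e : Γ} {c d : ℝ}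
    (hpos : ∀ x, c < x → x < d → x < e • x) {x y : ℝ} (hy2 : y < d)
    (hx : c < x) : ∃ n : ℕ, (e ^ n)⁻¹ • y < x := by
  by_contra hcon
  push Not at hcon
  have hlt : ∀ n : ℕ, c < (e ^ n)⁻¹ • y := fun n => hx.trans_le (hcon n)
  have hge : ∀ n : ℕ, (e ^ n)⁻¹ • y ≤ y := by
    intro n
    induction n with
    | zero => simp
    | succ n ih =>
      refine le_trans ?_ ih
      by_cases hd' : (e ^ (n + 1))⁻¹ • y < d
      · have := hpos _ (hlt (n + 1)) hd'
        rw [pow_succ, mul_inv_rev, mul_smul, smul_inv_smul] at this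
        rw [pow_succ, mul_inv_rev, mul_smul]
        exact this.le
      · exfalso
        push Not at hd'
        have h3 : (e ^ n)⁻¹ • y < (e ^ (n + 1))⁻¹ • y := (ih.trans_lt hy2).trans_le hd'
        have h4 := hpos _ (hlt n) (ih.trans_lt hy2)
        rw [pow_succ, mul_inv_rev, mul_smul, ← H.lt e, smul_inv_smul] at h3
        exact absurd h4 (not_lt.2 h3.le)
  have hbdd : BddBelow (range fun n : ℕ => (e ^ n)⁻¹ • y) :=
    ⟨x, by rintro _ ⟨n, rfl⟩; exact hcon n⟩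
  set L := ⨅ n : ℕ, (e ^ n)⁻¹ • y with hL
  have hLx : x ≤ L := le_ciInf hcon
  have hLy : L ≤ y := (ciInf_le hbdd 0).trans (hge 0)
  have h1 : L < e • L := hpos L (hx.trans_le hLx) (hLy.trans_lt hy2)
  have h2 : e • L ≤ L := by
    apply le_ciInf
    intro n
    rw [← H.le e⁻¹, inv_smul_smul, ← mul_smul, ← mul_inv_rev, ← pow_succ]
    exact ciInf_le hbdd (n + 1)
  exact absurd h1 (not_lt.2 h2)

/-- Existence of the component of the support through a point moved to the right. -/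
theorem Nice.exists_comp (H : Nice Γ α β) {e : Γ} {c₀ d₀ x : ℝ} (hc : e • c₀ = c₀)
    (hd : e • d₀ = d₀) (h1 : c₀ ≤ x) (h2 : x ≤ d₀) (hx : x < e • x) :
    ∃ c d : ℝ, c₀ ≤ c ∧ c < x ∧ x < d ∧ d ≤ d₀ ∧ e • c = c ∧ e • d = d ∧
      ∀ y, c < y → y < d → y < e • y := by
  have hcont := H.continuous e
  have hcl : IsClosed {y : ℝ | e • y = y} := isClosed_eq hcont continuous_id
  have hA : IsCompact (Icc c₀ x ∩ {y : ℝ | e • y = y}) := isCompact_Icc.inter_right hcl
  have hB : IsCompact (Icc x d₀ ∩ {y : ℝ | e • y = y}) := isCompact_Icc.inter_right hcl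
  obtain ⟨c, ⟨⟨hc1, hc2⟩, hc3⟩, hcmax⟩ := hA.exists_isGreatest ⟨c₀, ⟨le_rfl, h1⟩, hc⟩
  obtain ⟨d, ⟨⟨hd1, hd2⟩, hd3⟩, hdmin⟩ := hB.exists_isLeast ⟨d₀, ⟨h2, le_rfl⟩, hd⟩
  have hc3' : e • c = c := hc3
  have hd3' : e • d = d := hd3
  have hcx : c < x := lt_of_le_of_ne hc2 (by rintro rfl; rw [hc3'] at hx; exact lt_irrefl _ hx)
  have hxd : x < d := lt_of_le_of_ne hd1 (by rintro rfl; rw [hd3'] at hx; exact lt_irrefl _ hx)
  refine ⟨c, d, hc1, hcx, hxd, hd2, hc3', hd3', ?_⟩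
  have hne : ∀ y, c < y → y < d → e • y ≠ y := by
    intro y hy1 hy2 hy
    rcases le_total y x with h | h
    · exact absurd (hcmax ⟨⟨hc1.trans hy1.le, h⟩, hy⟩) (not_le.2 hy1)
    · exact absurd (hdmin ⟨⟨h, hy2.le.trans hd2⟩, hy⟩) (not_le.2 hy2)
  intro y hy1 hy2
  by_contra hcon
  push Not at hcon
  have hsub : Continuous (fun y : ℝ => e • y - y) := hcont.sub continuous_id
  have hmem : (0 : ℝ) ∈ uIcc (e • y - y) (e • x - x) := by
    rw [mem_uIcc]
    left
    constructor <;> linarith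
  obtain ⟨z, hz, hz0⟩ := intermediate_value_uIcc hsub.continuousOn hmem
  have hz1 : c < z := by
    rcases mem_uIcc.1 hz with h | h <;> linarith [h.1]
  have hz2 : z < d := by
    rcases mem_uIcc.1 hz with h | h <;> linarith [h.2]
  exact hne z hz1 hz2 (sub_eq_zero.1 hz0)

end Action

end Pool.Agent.MP_84d7a8_al

end

-- part MP_84d7a8_al.Kopell
section

/-!
Kopell-type lemmas.
-/

namespace Pool.Agent.MP_84d7a8_al

open Set Filter Topology

variable {Γ : Type*} [Group Γ] [MulAction Γ ℝ] {α β : ℝ}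

theorem Nice.pow_inv_le (H : Nice Γ α β) {f : Γ} {y : ℝ} (hy : y ≤ f • y) (n : ℕ) :
    (f ^ n)⁻¹ • y ≤ y := by
  induction n with
  | zero => simp
  | succ n ih =>
    refine le_trans ?_ ih
    rw [pow_succ', mul_inv_rev, mul_smul, H.le, ← H.le f, smul_inv_smul]
    exact hy

theorem Nice.le_pow (H : Nice Γ α β) {f : Γ} {y : ℝ} (hy : y ≤ f • y) (n : ℕ) :
    y ≤ f ^ n • y := by
  have := H.pow_inv_le hy n
  rwa [← H.le (f ^ n), smul_inv_smul] at this

theorem Nice.pow_in (H : Nice Γ α β) {f : Γ} {c₀ y : ℝ} (h0 : α ≤ c₀) (hc : f • c₀ = c₀)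
    (h1 : c₀ ≤ y) (hy : y < f • y) (h2 : f • y ≤ β) (n : ℕ) :
    α ≤ (f ^ n)⁻¹ • y ∧ (f ^ n)⁻¹ • f • y ≤ β := by
  constructor
  · refine h0.trans ?_
    rw [← Nice.inv_fixed (Nice.pow_fixed hc n)]
    exact (H.le _).2 h1
  · exact (H.pow_inv_le ((H.le f).2 hy.le) n).trans h2

theorem Nice.pow_sum (H : Nice Γ α β) {f : Γ} {c₀ y : ℝ} (h0 : α ≤ c₀) (hc : f • c₀ = c₀)
    (h1 : c₀ ≤ y) (hy : y < f • y) (h2 : f • y ≤ β) (N : ℕ) :
    ∑ n ∈ Finset.range N, ((f ^ n)⁻¹ • f • y - (f ^ n)⁻¹ • y) ≤ β - α := by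
  have e : ∀ n : ℕ, (f ^ n)⁻¹ • y = (f ^ (n + 1))⁻¹ • f • y := by
    intro n
    rw [pow_succ', mul_inv_rev, mul_smul, inv_smul_smul]
  have : ∑ n ∈ Finset.range N, ((f ^ n)⁻¹ • f • y - (f ^ n)⁻¹ • y) =
      ∑ n ∈ Finset.range N, ((f ^ n)⁻¹ • f • y - (f ^ (n + 1))⁻¹ • f • y) :=
    Finset.sum_congr rfl fun n _ => by rw [← e]
  rw [this, Finset.sum_range_sub' (fun n => (f ^ n)⁻¹ • f • y)]
  have h3 : α ≤ (f ^ N)⁻¹ • f • y :=
    (H.pow_in h0 hc h1 hy h2 N).1.trans ((H.le _).2 hy.le)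
  simp only [pow_zero, inv_one, one_smul]
  linarith

theorem Nice.kopell_basic (H : Nice Γ α β) {f h : Γ} {c₀ y : ℝ} (h0 : α ≤ c₀) (hc : f • c₀ = c₀)
    (h1 : c₀ ≤ y) (hy : y < f • y) (h2 : f • y ≤ β)
    (hfix : ∀ n : ℕ, h • (f ^ n)⁻¹ • y = (f ^ n)⁻¹ • y ∧ h • (f ^ n)⁻¹ • f • y = (f ^ n)⁻¹ • f • y)
    (hcomm : ∀ n : ℕ, ∀ x, y ≤ x → x ≤ f • y → (f ^ n * h * (f ^ n)⁻¹) • x = h • x)
    {x : ℝ} (hx1 : y ≤ x) (hx2 : x ≤ f • y) : h • x = x := by
  obtain ⟨K, hK0, hK⟩ := H.dist f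
  have := H.master (fun _ => f) (fun n => f ^ n) (pow_zero f) (fun n => pow_succ f n) K hK0
    (fun _ => hK) y (f • y) hy (H.pow_in h0 hc h1 hy h2) (β - α) (H.pow_sum h0 hc h1 hy h2) h hfix
    hx1 hx2
  simp only [hcomm _ x hx1 hx2] at this
  exact tendsto_nhds_unique tendsto_const_nhds this

/-- Kopell's lemma, global commutation. -/
theorem Nice.kopell (H : Nice Γ α β) {f h : Γ} {c₀ y : ℝ} (h0 : α ≤ c₀) (hc : f • c₀ = c₀)
    (h1 : c₀ ≤ y) (hy : y < f • y) (h2 : f • y ≤ β) (hcomm : Commute f h) (hfix : h • y = y)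
    {x : ℝ} (hx1 : y ≤ x) (hx2 : x ≤ f • y) : h • x = x := by
  refine H.kopell_basic h0 hc h1 hy h2 (fun n => ?_) (fun n x _ _ => ?_) hx1 hx2
  · have hc' : Commute (f ^ n)⁻¹ h := (hcomm.pow_left n).inv_left
    constructor
    · rw [← mul_smul, ← hc'.eq, mul_smul, hfix]
    · rw [← mul_smul, ← hc'.eq, mul_smul, ← mul_smul h f, ← hcomm.eq, mul_smul, hfix]
  · rw [(hcomm.pow_left n).eq, mul_inv_cancel_right]

theorem Nice.mem_Ioo (H : Nice Γ α β) {e : Γ} {c d x : ℝ} (hc : e • c = c) (hd : e • d = d)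
    (hx : x ∈ Ioo c d) : e • x ∈ Ioo c d :=
  ⟨by rw [← hc]; exact (H.lt e).2 hx.1, by rw [← hd]; exact (H.lt e).2 hx.2⟩

/-- Kopell's lemma, local commutation on a component of the support. -/
theorem Nice.kopell_local (H : Nice Γ α β) {e h : Γ} {c d y : ℝ} (h0 : α ≤ c) (h1 : d ≤ β)
    (hc : e • c = c) (hd : e • d = d) (hpos : ∀ x, c < x → x < d → x < e • x)
    (hcomm : ∀ x ∈ Ioo c d, h • e • x = e • h • x) (hy : y ∈ Ioo c d) (hfix : h • y = y)
    {x : ℝ} (hx : x ∈ Ioo c d) : h • x = x := by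
  have hpow : ∀ n : ℕ, ∀ x ∈ Ioo c d, h • e ^ n • x = e ^ n • h • x := by
    intro n
    induction n with
    | zero => simp
    | succ n ih =>
      intro x hx
      rw [pow_succ', mul_smul, mul_smul, hcomm _ (H.mem_Ioo (Nice.pow_fixed hc n)
        (Nice.pow_fixed hd n) hx), ih x hx]
  have hin : ∀ n : ℕ, ∀ x ∈ Ioo c d, (e ^ n)⁻¹ • x ∈ Ioo c d := fun n x hx =>
    H.mem_Ioo (Nice.inv_fixed (Nice.pow_fixed hc n)) (Nice.inv_fixed (Nice.pow_fixed hd n)) hx
  have hpow' : ∀ n : ℕ, ∀ x ∈ Ioo c d, h • (e ^ n)⁻¹ • x = (e ^ n)⁻¹ • h • x := by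
    intro n x hx
    rw [eq_inv_smul_iff, ← hpow n _ (hin n x hx), smul_inv_smul]
  have hey := H.mem_Ioo hc hd hy
  have hbase : ∀ x, y ≤ x → x ≤ e • y → h • x = x := by
    intro x hx1 hx2
    refine H.kopell_basic h0 hc hy.1.le (hpos y hy.1 hy.2) (hey.2.le.trans h1) (fun n => ?_)
      (fun n x hx1 hx2 => ?_) hx1 hx2
    · rw [hpow' n _ hy, hpow' n _ hey, hcomm y hy, hfix]
      exact ⟨rfl, rfl⟩
    · rw [mul_smul, mul_smul, hpow' n x ⟨hy.1.trans_le hx1, hx2.trans_lt hey.2⟩, smul_inv_smul]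
  obtain ⟨n, hn⟩ := H.exists_pow_lt hpos hy.2 hx.1
  have hn' : y < e ^ n • x := by rwa [← H.lt (e ^ n), smul_inv_smul] at hn
  have hx' : e ^ n • x ∈ Ioo c d := H.mem_Ioo (Nice.pow_fixed hc n) (Nice.pow_fixed hd n) hx
  have hex := H.exists_lt_pow hpos hy.1 hx'.2
  classical
  have hm := Nat.find_spec hex
  have hm0 : Nat.find hex ≠ 0 := by
    intro h0
    rw [h0] at hm
    simp only [pow_zero, one_smul] at hm
    exact absurd hn' (not_lt.2 hm.le)
  obtain ⟨m, hm1⟩ := Nat.exists_eq_succ_of_ne_zero hm0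
  have hmin : ¬ (e ^ n • x < e ^ m • y) := Nat.find_min hex (by omega)
  rw [hm1] at hm
  have h3 : h • (e ^ m)⁻¹ • e ^ n • x = (e ^ m)⁻¹ • e ^ n • x := by
    apply hbase
    · rw [← H.le (e ^ m), smul_inv_smul]
      exact not_lt.1 hmin
    · rw [← H.le (e ^ m), smul_inv_smul, ← mul_smul (e ^ m) e, ← pow_succ]
      exact hm.le
  rw [hpow' m _ hx', hpow n x hx] at h3
  exact smul_left_cancel _ (smul_left_cancel _ h3)

/-- Kopell's estimate: elements commuting with `E` which are `N` times smaller than `E` move points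
by `O(1/N)`. -/
theorem Nice.kopell_est (H : Nice Γ α β) {E : Γ} {c d : ℝ} (h0 : α ≤ c) (h1 : d ≤ β)
    (hc : E • c = c) (hd : E • d = d) (hpos : ∀ x, c < x → x < d → x < E • x) :
    ∃ C : ℝ, ∀ h : Γ, Commute E h → h • c = c → ∀ x ∈ Ioo c d, ∀ N : ℕ, x < h • x →
      h ^ N • x ≤ E • x → N * (h • x - x) ≤ C := by
  obtain ⟨K, hK0, hK⟩ := H.dist E
  obtain ⟨L, hL1, hL⟩ := (H.dist E).exists_lip (H.mono E).monotone
  set κ := Real.exp (K * (β - α)) with hκ
  have hκ0 : 0 < κ := Real.exp_pos _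
  refine ⟨κ * Real.exp 1 * L * |β - α|, ?_⟩
  intro h hcomm hhc x hx N hxh hN
  have hEx := H.mem_Ioo hc hd hx
  have hxE := hpos x hx.1 hx.2
  have hstep : ∀ u : Γ, Commute E u → u • c = c → x ≤ u • x → h • x ≤ E • x → u • h • x ≤ E • x →
      h • x - x ≤ κ * Real.exp 1 * L * (u • h • x - u • x) := by
    intro u hu huc hu1 hu2 hu3
    obtain ⟨Ku, hKu0, hKu⟩ := H.dist u
    have hδ : 0 < 1 / (Ku + 1) := by positivity
    obtain ⟨m, hm⟩ := H.exists_pow_lt hpos hEx.2 (x := c + 1 / (Ku + 1)) (by linarith)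
    have hD := H.dist_prod (fun _ => E) (fun n => E ^ n) (pow_zero E) (fun n => pow_succ E n) K hK0
      (fun _ => hK) x (E • x) hxE (H.pow_in h0 hc hx.1.le hxE (hEx.2.le.trans h1)) (β - α)
      (H.pow_sum h0 hc hx.1.le hxE (hEx.2.le.trans h1)) m
    set a := (E ^ m)⁻¹ • x with ha
    set b := (E ^ m)⁻¹ • h • x with hb
    set t := (E ^ m)⁻¹ • E • x with ht
    have hcu : Commute (E ^ m)⁻¹ u := (hu.pow_left m).inv_left
    have hua : u • a = (E ^ m)⁻¹ • u • x := by rw [ha, ← mul_smul, ← hcu.eq, mul_smul]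
    have hub : u • b = (E ^ m)⁻¹ • u • h • x := by rw [hb, ← mul_smul, ← hcu.eq, mul_smul]
    have hca : c < a := by
      rw [← Nice.inv_fixed (Nice.pow_fixed hc m)]; exact (H.lt _).2 hx.1
    have hab : a < b := (H.lt _).2 hxh
    have hbt : b ≤ t := (H.le _).2 hu2
    have haua : a ≤ u • a := by rw [hua]; exact (H.le _).2 hu1
    have huab : u • a < u • b := (H.lt _).2 hab
    have hubt : u • b ≤ t := by rw [hub]; exact (H.le _).2 hu3
    have htβ : t ≤ β := (H.pow_in h0 hc hx.1.le hxE (hEx.2.le.trans h1) m).2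
    have A := hD a b (u • a) (u • b) le_rfl hab.le hbt haua huab.le hubt
    have q1 : E ^ m • a = x := by rw [ha, smul_inv_smul]
    have q2 : E ^ m • b = h • x := by rw [hb, smul_inv_smul]
    have q3 : E ^ m • u • a = u • x := by rw [hua, smul_inv_smul]
    have q4 : E ^ m • u • b = u • h • x := by rw [hub, smul_inv_smul]
    simp only [q1, q2, q3, q4] at A
    have hDu := (hKu c t h0 (hca.le.trans (hab.le.trans hbt)) htβ).mono_const (H.mono _).monotone
      (κ' := Real.exp 1) (by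
        apply Real.exp_le_exp.2
        have : t - c ≤ 1 / (Ku + 1) := by linarith
        calc Ku * (t - c) ≤ Ku * (1 / (Ku + 1)) := mul_le_mul_of_nonneg_left this hKu0
          _ ≤ 1 := by
            rw [mul_one_div, div_le_one (by positivity)]
            linarith)
    have B := hDu c b a b le_rfl (hca.le.trans hab.le) hbt hca.le hab.le hbt
    simp only [huc] at B
    have hEa : t = E • a := by
      rw [ht, ha, ← mul_smul, ← mul_smul, ((Commute.refl E).pow_left m).inv_left.eq]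
    have C1 : t - c ≤ L * (a - c) := by
      have := hL c a h0 (hx.1.le.trans (hx.2.le.trans h1)) (h0.trans hca.le)
        (hab.le.trans (hbt.trans htβ))
      simp only [hc] at this
      rw [← hEa, abs_of_nonneg (sub_nonneg.2 hca.le)] at this
      exact (le_abs_self _).trans this
    have hp1 : 0 < a - c := sub_pos.2 hca
    have hp2 : 0 < u • b - u • a := sub_pos.2 huab
    have he : 0 < Real.exp 1 := Real.exp_pos 1
    have D : b - a ≤ Real.exp 1 * L * (u • b - u • a) := by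
      apply le_of_mul_le_mul_right _ hp1
      calc (b - a) * (a - c) ≤ (u • b - c) * (b - a) := by nlinarith
        _ ≤ Real.exp 1 * ((u • b - u • a) * (b - c)) := B
        _ ≤ Real.exp 1 * ((u • b - u • a) * (L * (a - c))) := by
            apply mul_le_mul_of_nonneg_left _ he.le
            apply mul_le_mul_of_nonneg_left _ hp2.le
            linarith
        _ = _ := by ring
    have hp3 : 0 ≤ u • h • x - u • x := sub_nonneg.2 ((H.le _).2 hxh.le)
    apply le_of_mul_le_mul_right _ hp2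
    calc (h • x - x) * (u • b - u • a) ≤ κ * ((u • h • x - u • x) * (b - a)) := A
      _ ≤ κ * ((u • h • x - u • x) * (Real.exp 1 * L * (u • b - u • a))) := by
          apply mul_le_mul_of_nonneg_left _ hκ0.le
          exact mul_le_mul_of_nonneg_left D hp3
      _ = _ := by ring
  have hmono : ∀ i j : ℕ, i ≤ j → h ^ i • x ≤ h ^ j • x := by
    intro i j hij
    obtain ⟨k, rfl⟩ := Nat.exists_eq_add_of_le hij
    rw [pow_add, mul_smul, H.le]
    exact H.le_pow hxh.le k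
  have hall : ∀ i ∈ Finset.range N,
      h • x - x ≤ κ * Real.exp 1 * L * (h ^ (i + 1) • x - h ^ i • x) := by
    intro i hi
    rw [Finset.mem_range] at hi
    have := hstep (h ^ i) (hcomm.pow_right i) (Nice.pow_fixed hhc i) (H.le_pow hxh.le i)
      (by simpa using (hmono 1 N (by omega)).trans hN)
      (by rw [← mul_smul, ← pow_succ]; exact (hmono _ N (by omega)).trans hN)
    rwa [← mul_smul (h ^ i) h, ← pow_succ] at this
  have hs := Finset.sum_le_sum hall
  rw [Finset.sum_const, Finset.card_range, nsmul_eq_mul, ← Finset.mul_sum,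
    Finset.sum_range_sub (fun i => h ^ i • x)] at hs
  refine hs.trans (mul_le_mul_of_nonneg_left ?_ (by positivity))
  simp only [pow_zero, one_smul]
  refine le_trans ?_ (le_abs_self _)
  linarith [hEx.2, hx.1]

end Pool.Agent.MP_84d7a8_al

end

-- part MP_84d7a8_al.Gap
section

/-!
Gaps of the fixed point set of an abelian subgroup, and their stabilisers.
-/

namespace Pool.Agent.MP_84d7a8_al

open Set Filter Topology

variable {Γ : Type*} [Group Γ] [MulAction Γ ℝ] {α β : ℝ}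

/-- The action is nice and fixes both endpoints. -/
structure NiceFix (Γ : Type*) [Group Γ] [MulAction Γ ℝ] (α β : ℝ) : Prop extends Nice Γ α β where
  left : ∀ γ : Γ, γ • α = α
  right : ∀ γ : Γ, γ • β = β

/-- `(c,d)` is a component of the complement of the fixed point set of `A`. -/
structure Gap (A : Subgroup Γ) (α β c d : ℝ) : Prop where
  lo : α ≤ c
  lt : c < d
  hi : d ≤ β
  fixc : ∀ e ∈ A, e • c = c
  fixd : ∀ e ∈ A, e • d = d
  moved : ∀ y ∈ Ioo c d, ∃ e ∈ A, e • y ≠ y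

theorem NiceFix.le_smul (H : NiceFix Γ α β) (γ : Γ) {x : ℝ} (hx : α ≤ x) : α ≤ γ • x := by
  rw [← H.left γ]; exact (H.le γ).2 hx

theorem NiceFix.smul_le (H : NiceFix Γ α β) (γ : Γ) {x : ℝ} (hx : x ≤ β) : γ • x ≤ β := by
  rw [← H.right γ]; exact (H.le γ).2 hx

theorem Nice.exists_pos_dir (H : Nice Γ α β) {f : Γ} {y : ℝ} (h : f • y ≠ y) :
    ∃ f', (f' = f ∨ f' = f⁻¹) ∧ y < f' • y := by
  rcases lt_or_gt_of_ne h with h | h
  · refine ⟨f⁻¹, Or.inr rfl, ?_⟩
    rw [← H.lt f, smul_inv_smul]; exact h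
  · exact ⟨f, Or.inl rfl, h⟩

theorem NiceFix.kopell' (H : NiceFix Γ α β) {f h : Γ} {y : ℝ} (h1 : α ≤ y) (h2 : y ≤ β)
    (hy : y < f • y) (hcomm : Commute f h) (hfix : h • y = y)
    {x : ℝ} (hx1 : y ≤ x) (hx2 : x ≤ f • y) : h • x = x :=
  H.kopell le_rfl (H.left f) h1 hy (H.smul_le f h2) hcomm hfix hx1 hx2

theorem NiceFix.exists_gap (H : NiceFix Γ α β) {A : Subgroup Γ}
    (hA : ∀ e ∈ A, ∀ e' ∈ A, Commute e e') {e : Γ} (he : e ∈ A) {x : ℝ} (h1 : α ≤ x) (h2 : x ≤ β)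
    (hx : x < e • x) :
    ∃ c d, Gap A α β c d ∧ x ∈ Ioo c d ∧ ∀ y, c < y → y < d → y < e • y := by
  obtain ⟨c, d, hc1, hc2, hd1, hd2, hc, hd, hpos⟩ := H.exists_comp (H.left e) (H.right e) h1 h2 hx
  have hfc : ∀ m ∈ A, m • c = c := by
    intro m hm
    by_contra hne
    obtain ⟨m', hm', hlt⟩ := H.exists_pos_dir hne
    have hm'A : m' ∈ A := by
      rcases hm' with rfl | rfl
      · exact hm
      · exact A.inv_mem hm
    have hz : c < min (m' • c) x := lt_min hlt hc2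
    have := H.kopell' hc1 (hc2.le.trans h2) hlt (hA _ hm'A _ he) hc hz.le (min_le_left _ _)
    have h3 := hpos _ hz ((min_le_right _ _).trans_lt hd1)
    rw [this] at h3
    exact lt_irrefl _ h3
  have hfd : ∀ m ∈ A, m • d = d := by
    intro m hm
    by_contra hne
    obtain ⟨m', hm', hlt⟩ := H.exists_pos_dir hne
    have hm'A : m' ∈ A := by
      rcases hm' with rfl | rfl
      · exact hm
      · exact A.inv_mem hm
    have h3 : m'⁻¹ • d < d := by rw [← H.lt m', smul_inv_smul]; exact hlt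
    have h4 : c < m'⁻¹ • d := by
      rw [← hfc _ (A.inv_mem hm'A)]; exact (H.lt _).2 (hc2.trans hd1)
    have h5 := hpos _ h4 h3
    rw [← mul_smul, (hA _ he _ (A.inv_mem hm'A)).eq, mul_smul, hd] at h5
    exact lt_irrefl _ h5
  exact ⟨c, d, ⟨hc1, hc2.trans hd1, hd2, hfc, hfd, fun y hy => ⟨e, he, (hpos y hy.1 hy.2).ne'⟩⟩,
    ⟨hc2, hd1⟩, hpos⟩

theorem Gap.not_mem {A : Subgroup Γ} {c d z : ℝ} (G : Gap A α β c d) (hz : ∀ e ∈ A, e • z = z) :
    z ≤ c ∨ d ≤ z := by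
  by_contra hcon
  push Not at hcon
  obtain ⟨e, he, hne⟩ := G.moved z hcon
  exact hne (hz e he)

theorem Gap.pos (H : NiceFix Γ α β) {A : Subgroup Γ} (hA : ∀ e ∈ A, ∀ e' ∈ A, Commute e e')
    {c d : ℝ} (G : Gap A α β c d) {e : Γ} (he : e ∈ A) {y : ℝ} (hy : y ∈ Ioo c d)
    (hlt : y < e • y) : ∀ x, c < x → x < d → x < e • x := by
  obtain ⟨c', d', G', hy', hpos⟩ := H.exists_gap hA he (G.lo.trans hy.1.le) (hy.2.le.trans G.hi) hlt
  have h1 : c' ≤ c := by
    rcases G.not_mem G'.fixc with h | h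
    · exact h
    · linarith [hy.2, hy'.1]
  have h2 : d ≤ d' := by
    rcases G.not_mem G'.fixd with h | h
    · linarith [hy.1, hy'.2]
    · exact h
  intro x hx1 hx2
  exact hpos x (h1.trans_lt hx1) (hx2.trans_le h2)

/-- Comparison at one point gives comparison on the whole gap. -/
theorem Gap.lt_of_lt (H : NiceFix Γ α β) {A : Subgroup Γ} (hA : ∀ e ∈ A, ∀ e' ∈ A, Commute e e')
    {c d : ℝ} (G : Gap A α β c d) {e e' : Γ} (he : e ∈ A) (he' : e' ∈ A) {y : ℝ} (hy : y ∈ Ioo c d)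
    (hlt : e • y < e' • y) : ∀ x ∈ Ioo c d, e • x < e' • x := by
  intro x hx
  have := G.pos H hA (A.mul_mem (A.inv_mem he) he') hy
    (by rw [mul_smul, ← H.lt e, smul_inv_smul]; exact hlt) x hx.1 hx.2
  rwa [mul_smul, ← H.lt e, smul_inv_smul] at this

theorem Gap.le_of_le (H : NiceFix Γ α β) {A : Subgroup Γ} (hA : ∀ e ∈ A, ∀ e' ∈ A, Commute e e')
    {c d : ℝ} (G : Gap A α β c d) {e e' : Γ} (he : e ∈ A) (he' : e' ∈ A) {y : ℝ} (hy : y ∈ Ioo c d)
    (hle : e • y ≤ e' • y) : ∀ x ∈ Ioo c d, e • x ≤ e' • x := by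
  intro x hx
  by_contra hcon
  exact absurd (G.lt_of_lt H hA he' he hx (not_le.1 hcon) y hy) (not_lt.2 hle)

omit [MulAction Γ ℝ] in
theorem conj_mem {A : Subgroup Γ} {w e : Γ} (hw : w ∈ Subgroup.normalizer (A : Set Γ))
    (he : e ∈ A) : w * e * w⁻¹ ∈ A := (Subgroup.mem_normalizer_iff.1 hw e).1 he

omit [MulAction Γ ℝ] in
theorem conj_mem' {A : Subgroup Γ} {w e : Γ} (hw : w ∈ Subgroup.normalizer (A : Set Γ))
    (he : e ∈ A) : w⁻¹ * e * w ∈ A := (Subgroup.mem_normalizer_iff''.1 hw e).1 he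

theorem fix_smul {A : Subgroup Γ} {w : Γ} (hw : w ∈ Subgroup.normalizer (A : Set Γ)) {z : ℝ}
    (hz : ∀ e ∈ A, e • z = z) : ∀ e ∈ A, e • w • z = w • z := by
  intro e he
  have := hz _ (conj_mem' hw he)
  rw [mul_smul, mul_smul, inv_smul_eq_iff] at this
  exact this

theorem Gap.smul (H : NiceFix Γ α β) {A : Subgroup Γ} {c d : ℝ} (G : Gap A α β c d) {w : Γ}
    (hw : w ∈ Subgroup.normalizer (A : Set Γ)) : Gap A α β (w • c) (w • d) where
  lo := H.le_smul w G.lo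
  lt := (H.lt w).2 G.lt
  hi := H.smul_le w G.hi
  fixc := fix_smul hw G.fixc
  fixd := fix_smul hw G.fixd
  moved := by
    intro y hy
    obtain ⟨e, he, hne⟩ := G.moved (w⁻¹ • y)
      ⟨by rw [← H.lt w, smul_inv_smul]; exact hy.1, by rw [← H.lt w, smul_inv_smul]; exact hy.2⟩
    refine ⟨w * e * w⁻¹, conj_mem hw he, fun h => hne ?_⟩
    rw [mul_smul, mul_smul, ← eq_inv_smul_iff] at h
    exact h

theorem Gap.right_eq {A : Subgroup Γ} {c d d' : ℝ} (G : Gap A α β c d) (G' : Gap A α β c d') :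
    d = d' := by
  rcases G.not_mem G'.fixd with h | h
  · linarith [G'.lt]
  rcases G'.not_mem G.fixd with h' | h'
  · linarith [G.lt]
  exact le_antisymm h h'

theorem Gap.disj {A : Subgroup Γ} {c d c' d' : ℝ} (G : Gap A α β c d) (G' : Gap A α β c' d')
    (h : c ≠ c') : d ≤ c' ∨ d' ≤ c := by
  rcases lt_or_gt_of_ne h with h | h
  · left
    rcases G.not_mem G'.fixc with h' | h'
    · linarith
    · exact h'
  · right
    rcases G'.not_mem G.fixc with h' | h'
    · linarith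
    · exact h'

theorem Gap.fix_right (H : NiceFix Γ α β) {A : Subgroup Γ} {c d : ℝ} (G : Gap A α β c d) {w : Γ}
    (hw : w ∈ Subgroup.normalizer (A : Set Γ)) (hc : w • c = c) : w • d = d := by
  have := G.smul H hw
  rw [hc] at this
  exact this.right_eq G

/-- An element commuting with an element that moves the gap, and fixing its left endpoint, is trivial
on the gap. -/
theorem Gap.trivial_of_commute (H : NiceFix Γ α β) {A : Subgroup Γ} {c d : ℝ} (G : Gap A α β c d)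
    {f z : Γ} (hf : f ∈ Subgroup.normalizer (A : Set Γ)) (hfc : f • c ≠ c) (hcomm : Commute f z)
    (hz : z • c = c) {x : ℝ} (hx1 : c ≤ x) (hx2 : x ≤ d) : z • x = x := by
  obtain ⟨f', hf', hlt⟩ := H.exists_pos_dir hfc
  have hf'N : f' ∈ Subgroup.normalizer (A : Set Γ) := by
    rcases hf' with rfl | rfl
    · exact hf
    · exact Subgroup.inv_mem _ hf
  have hc' : Commute f' z := by
    rcases hf' with rfl | rfl
    · exact hcomm
    · exact hcomm.inv_left
  have hd : d ≤ f' • c := by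
    rcases G.not_mem (fix_smul hf'N G.fixc) with h | h
    · linarith
    · exact h
  exact H.kopell' G.lo (G.lt.le.trans G.hi) hlt hc' hz hx1 (hx2.trans hd)

theorem Gap.master (H : NiceFix Γ α β) {A : Subgroup Γ} {c d : ℝ} (G : Gap A α β c d)
    (x w : ℕ → Γ) (hw0 : w 0 = 1) (hw : ∀ n, w (n + 1) = w n * x n)
    (hx : ∀ n, x n ∈ Subgroup.normalizer (A : Set Γ)) (u v : Γ) (huv : ∀ n, x n = u ∨ x n = v)
    (hinj : Function.Injective fun n => (w n)⁻¹ • c) {e : Γ} (he : e ∈ A) {y : ℝ}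
    (hy1 : c ≤ y) (hy2 : y ≤ d) :
    Tendsto (fun n => (w n * e * (w n)⁻¹) • y) atTop (𝓝 y) := by
  have hwN : ∀ n, w n ∈ Subgroup.normalizer (A : Set Γ) := by
    intro n
    induction n with
    | zero => rw [hw0]; exact Subgroup.one_mem _
    | succ n ih => rw [hw]; exact Subgroup.mul_mem _ ih (hx n)
  have hG : ∀ n, Gap A α β ((w n)⁻¹ • c) ((w n)⁻¹ • d) := fun n =>
    G.smul H (Subgroup.inv_mem _ (hwN n))
  obtain ⟨Ku, hKu0, hKu⟩ := H.dist u
  obtain ⟨Kv, hKv0, hKv⟩ := H.dist v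
  refine H.master x w hw0 hw (max Ku Kv) (hKu0.trans (le_max_left _ _)) ?_ c d G.lt
    (fun n => ⟨(hG n).lo, (hG n).hi⟩) (β - α) ?_ e
    (fun n => ⟨(hG n).fixc e he, (hG n).fixd e he⟩) hy1 hy2
  · intro n c d h1 h2 h3
    rcases huv n with h | h
    · rw [h]
      exact (hKu c d h1 h2 h3).mono_const (H.mono _).monotone
        (Real.exp_le_exp.2 (mul_le_mul_of_nonneg_right (le_max_left _ _) (sub_nonneg.2 h2)))
    · rw [h]
      exact (hKv c d h1 h2 h3).mono_const (H.mono _).monotone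
        (Real.exp_le_exp.2 (mul_le_mul_of_nonneg_right (le_max_right _ _) (sub_nonneg.2 h2)))
  · exact sum_len_le (G.lo.trans (G.lt.le.trans G.hi)) _ _ (fun n => ⟨(hG n).lo, (hG n).hi⟩)
      (fun n => (hG n).lt.le) (fun m n hmn => (hG m).disj (hG n) (fun h => hmn (hinj h)))

theorem Nice.injective_orbit (H : Nice Γ α β) {f : Γ} {c : ℝ} (hc : f • c ≠ c) :
    Function.Injective fun n : ℕ => (f ^ n)⁻¹ • c := by
  have key : ∀ i j : ℕ, i < j → (f ^ i)⁻¹ • c ≠ (f ^ j)⁻¹ • c := by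
    intro i j hij h
    obtain ⟨k, rfl⟩ := Nat.exists_eq_add_of_lt hij
    rw [add_assoc, add_comm i, pow_add, mul_inv_rev, mul_smul] at h
    have h' := smul_left_cancel _ h
    rw [eq_inv_smul_iff] at h'
    exact hc (H.fixed_of_pow (Nat.succ_pos k) h')
  intro i j h
  rcases lt_trichotomy i j with hij | hij | hij
  · exact absurd h (key i j hij)
  · exact hij
  · exact absurd h.symm (key j i hij)

/-- A Baumslag–Solitar element stabilises the gap. -/
theorem Gap.stab_of_sq (H : NiceFix Γ α β) {A : Subgroup Γ} {c d : ℝ} (G : Gap A α β c d)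
    {t a : Γ} (ht : t ∈ Subgroup.normalizer (A : Set Γ)) (ha : a ∈ A)
    (hrel : t * a * t⁻¹ = a ^ 2) {y : ℝ} (hy : y ∈ Ioo c d) (hpos : y < a • y) : t • c = c := by
  by_contra hne
  have hlim := G.master H (fun _ => t) (fun n => t ^ n) (pow_zero t) (fun n => pow_succ t n)
    (fun _ => ht) t t (fun _ => Or.inl rfl) (H.injective_orbit hne) ha hy.1.le hy.2.le
  have hpow : ∀ n : ℕ, t ^ n * a * (t ^ n)⁻¹ = a ^ (2 ^ n) := by
    intro n
    induction n with
    | zero => simp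
    | succ n ih =>
      calc t ^ (n + 1) * a * (t ^ (n + 1))⁻¹ = t * (t ^ n * a * (t ^ n)⁻¹) * t⁻¹ := by
            rw [pow_succ']; group
        _ = (t * a * t⁻¹) ^ (2 ^ n) := by rw [ih, conj_pow]
        _ = a ^ (2 ^ (n + 1)) := by rw [hrel, ← pow_mul, pow_succ']
  have hge : ∀ n : ℕ, a • y ≤ (t ^ n * a * (t ^ n)⁻¹) • y := by
    intro n
    obtain ⟨m, hm⟩ : ∃ m, 2 ^ n = m + 1 := ⟨2 ^ n - 1, by have := Nat.one_le_two_pow (n := n); omega⟩
    rw [hpow, hm, pow_succ, mul_smul]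
    exact H.le_pow ((H.le a).2 hpos.le) m
  exact absurd (ge_of_tendsto' hlim hge) (not_le.2 hpos)

/-- The averaging relation forces `v` to stabilise the gap. -/
theorem Gap.stab_of_avg (H : NiceFix Γ α β) {A : Subgroup Γ}
    (hA : ∀ e ∈ A, ∀ e' ∈ A, Commute e e') {c d : ℝ} (G : Gap A α β c d)
    {v u : Γ} (hv : v ∈ Subgroup.normalizer (A : Set Γ)) (hu : u ∈ Subgroup.normalizer (A : Set Γ))
    (huv : Commute v u) (hrel : ∀ e ∈ A, e ^ 2 = (v * e * v⁻¹) * (u * e * u⁻¹)) : v • c = c := by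
  classical
  by_contra hne
  have hy0 : (c + d) / 2 ∈ Ioo c d := ⟨by linarith [G.lt], by linarith [G.lt]⟩
  set y := (c + d) / 2 with hy
  obtain ⟨e₀, he₀, hne₀⟩ := G.moved y hy0
  obtain ⟨e, he', hlt⟩ := H.exists_pos_dir hne₀
  have he : e ∈ A := by
    rcases he' with rfl | rfl
    · exact he₀
    · exact A.inv_mem he₀
  let step : Γ → Γ := fun w =>
    if (w * e * w⁻¹) • y ≤ ((w * v) * e * (w * v)⁻¹) • y then v else u
  let w : ℕ → Γ := fun n => Nat.rec 1 (fun _ w => w * step w) n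
  have hw0 : w 0 = 1 := rfl
  have hw : ∀ n, w (n + 1) = w n * step (w n) := fun n => rfl
  have hstep : ∀ w, step w = v ∨ step w = u := by
    intro w
    by_cases h : (w * e * w⁻¹) • y ≤ ((w * v) * e * (w * v)⁻¹) • y
    · left; simp only [step, if_pos h]
    · right; simp only [step, if_neg h]
  have hstepN : ∀ w, step w ∈ Subgroup.normalizer (A : Set Γ) := by
    intro w
    rcases hstep w with h | h <;> rw [h] <;> assumption
  have hwN : ∀ n, w n ∈ Subgroup.normalizer (A : Set Γ) := by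
    intro n
    induction n with
    | zero => exact Subgroup.one_mem _
    | succ n ih => rw [hw]; exact Subgroup.mul_mem _ ih (hstepN _)
  have hwv : ∀ n, Commute v (w n) ∧ Commute u (w n) := by
    intro n
    induction n with
    | zero => exact ⟨Commute.one_right _, Commute.one_right _⟩
    | succ n ih =>
      rw [hw]
      rcases hstep (w n) with h | h <;> rw [h]
      · exact ⟨ih.1.mul_right (Commute.refl v), ih.2.mul_right huv.symm⟩
      · exact ⟨ih.1.mul_right huv, ih.2.mul_right (Commute.refl u)⟩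
  let F : ℕ → ℝ := fun n => (w n * e * (w n)⁻¹) • y
  have hF : ∀ n, (step (w n) = v ∧ F n ≤ F (n + 1)) ∨ F n < F (n + 1) := by
    intro n
    by_cases h : (w n * e * (w n)⁻¹) • y ≤ ((w n * v) * e * (w n * v)⁻¹) • y
    · left
      have hs : step (w n) = v := by simp only [step, if_pos h]
      refine ⟨hs, ?_⟩
      simp only [F, hw, hs]
      exact h
    · right
      have hs : step (w n) = u := by simp only [step, if_neg h]
      simp only [F, hw, hs]
      set f := w n * e * (w n)⁻¹ with hf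
      have hfA : f ∈ A := conj_mem (hwN n) he
      have e1 : (w n * v) * e * (w n * v)⁻¹ = v * f * v⁻¹ := by
        rw [← (hwv n).1.eq, hf]; group
      have e2 : (w n * u) * e * (w n * u)⁻¹ = u * f * u⁻¹ := by
        rw [← (hwv n).2.eq, hf]; group
      rw [e1] at h
      rw [e2]
      by_contra hcon
      have h1 := G.lt_of_lt H hA (conj_mem hv hfA) hfA hy0 (not_le.1 h)
      have h2 : (u * f * u⁻¹) • y ≤ f • y := not_lt.1 hcon
      have h3 : f • y ∈ Ioo c d := H.mem_Ioo (G.fixc f hfA) (G.fixd f hfA) hy0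
      have h4 : (f ^ 2) • y < (f ^ 2) • y := by
        calc (f ^ 2) • y = (v * f * v⁻¹) • (u * f * u⁻¹) • y := by rw [hrel f hfA, mul_smul]
          _ ≤ (v * f * v⁻¹) • f • y := (H.le _).2 h2
          _ < f • f • y := h1 _ h3
          _ = (f ^ 2) • y := by rw [pow_two, mul_smul f f]
      exact lt_irrefl _ h4
  have hFmono : Monotone F := monotone_nat_of_le_succ fun n => by
    rcases hF n with h | h
    · exact h.2
    · exact h.le
  have hinj : Function.Injective fun n => (w n)⁻¹ • c := by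
    have key : ∀ i j : ℕ, i < j → (w i)⁻¹ • c ≠ (w j)⁻¹ • c := by
      intro i j hij h
      have hz : (w j * (w i)⁻¹) • c = c := by rw [mul_smul, h, smul_inv_smul]
      have hzc : Commute v (w j * (w i)⁻¹) := (hwv j).1.mul_right (hwv i).1.inv_right
      have htriv := fun x hx1 hx2 => G.trivial_of_commute H hv hne hzc hz (x := x) hx1 hx2
      have hfA : w i * e * (w i)⁻¹ ∈ A := conj_mem (hwN i) he
      have h3 := H.mem_Ioo (G.fixc _ hfA) (G.fixd _ hfA) hy0
      have hFij : F j = F i := by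
        have e1 : w j * e * (w j)⁻¹ =
            (w j * (w i)⁻¹) * (w i * e * (w i)⁻¹) * (w j * (w i)⁻¹)⁻¹ := by group
        simp only [F]
        rw [e1, mul_smul, mul_smul, Nice.inv_fixed (htriv y hy0.1.le hy0.2.le),
          htriv _ h3.1.le h3.2.le]
      have hall : ∀ k, i + k ≤ j → w (i + k) = w i * v ^ k := by
        intro k
        induction k with
        | zero => simp
        | succ k ih =>
          intro hk
          rcases hF (i + k) with h' | h'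
          · rw [← add_assoc, hw, h'.1, ih (by omega), pow_succ, mul_assoc]
          · exfalso
            have := (hFmono (Nat.le_add_right i k)).trans_lt
              (h'.trans_le (hFmono (show i + k + 1 ≤ j by omega)))
            rw [hFij] at this
            exact lt_irrefl _ this
      obtain ⟨k, rfl⟩ := Nat.exists_eq_add_of_lt hij
      have h5 := hall (k + 1) (by omega)
      rw [← add_assoc] at h5
      rw [h5, ← ((hwv i).1.pow_left (k + 1)).eq, mul_inv_cancel_right] at hz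
      exact hne (H.fixed_of_pow (Nat.succ_pos k) hz)
    intro i j h
    rcases lt_trichotomy i j with hij | hij | hij
    · exact absurd h (key i j hij)
    · exact hij
    · exact absurd h.symm (key j i hij)
  have hlim := G.master H (fun n => step (w n)) w hw0 hw (fun n => hstepN _) v u
    (fun n => hstep _) hinj he hy0.1.le hy0.2.le
  have hge : ∀ n, e • y ≤ F n := by
    intro n
    have := hFmono (Nat.zero_le n)
    simpa [F, hw0] using this
  exact absurd (ge_of_tendsto' hlim hge) (not_le.2 hlt)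

end Pool.Agent.MP_84d7a8_al

end

-- part MP_84d7a8_al.Flat
section

/-!
A smooth function whose zeros accumulate at `p` is flat at `p`.
-/

namespace Pool.Agent.MP_84d7a8_al

open Set Filter Topology
open scoped ContDiff

theorem flat_of_zeros {a b p : ℝ} (hp : p ∈ Ioo a b) (k : ℕ) :
    ∀ φ : ℝ → ℝ, ContDiffOn ℝ ∞ φ (Ioo a b) →
      (∀ δ > 0, ∃ z, z ≠ p ∧ |z - p| < δ ∧ φ z = 0) →
      ∃ C δ : ℝ, 0 < δ ∧ 0 ≤ C ∧ ∀ x, |x - p| < δ → |φ x| ≤ C * |x - p| ^ k := by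
  have hr : 0 < min (p - a) (b - p) := lt_min (sub_pos.2 hp.1) (sub_pos.2 hp.2)
  have hin : ∀ x, |x - p| < min (p - a) (b - p) → x ∈ Ioo a b := by
    intro x hx
    have h1 := abs_lt.1 (hx.trans_le (min_le_left _ _))
    have h2 := abs_lt.1 (hx.trans_le (min_le_right _ _))
    constructor <;> linarith [h1.1, h2.2]
  have hzero : ∀ φ : ℝ → ℝ, ContDiffOn ℝ ∞ φ (Ioo a b) →
      (∀ δ > 0, ∃ z, z ≠ p ∧ |z - p| < δ ∧ φ z = 0) → φ p = 0 := by
    intro φ hφ hz
    have hc : ContinuousAt φ p := hφ.continuousOn.continuousAt (isOpen_Ioo.mem_nhds hp)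
    by_contra hne
    have hev := hc.eventually_ne hne
    obtain ⟨δ, hδ, hδ'⟩ := Metric.eventually_nhds_iff.1 hev
    obtain ⟨z, _, hz2, hz3⟩ := hz δ hδ
    exact hδ' (by rwa [Real.dist_eq]) hz3
  induction k with
  | zero =>
    intro φ hφ hz
    have hc : ContinuousAt φ p := hφ.continuousOn.continuousAt (isOpen_Ioo.mem_nhds hp)
    obtain ⟨δ, hδ, hδ'⟩ := Metric.continuousAt_iff.1 hc 1 one_pos
    refine ⟨1, δ, hδ, zero_le_one, fun x hx => ?_⟩
    have := hδ' (x := x) (by rwa [Real.dist_eq])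
    rw [hzero φ hφ hz, Real.dist_eq, sub_zero] at this
    simpa using this.le
  | succ k ih =>
    intro φ hφ hz
    have h0 := hzero φ hφ hz
    obtain ⟨hdiff, hφ'⟩ := (contDiffOn_infty_iff_deriv_of_isOpen isOpen_Ioo).1 hφ
    have hz' : ∀ δ > 0, ∃ z, z ≠ p ∧ |z - p| < δ ∧ deriv φ z = 0 := by
      intro δ hδ
      obtain ⟨z, hz1, hz2, hz3⟩ := hz (min δ (min (p - a) (b - p))) (lt_min hδ hr)
      have hzin := hin z (hz2.trans_le (min_le_right _ _))
      have hz4 := abs_lt.1 (hz2.trans_le (min_le_left _ _))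
      rcases lt_or_gt_of_ne hz1 with h | h
      · obtain ⟨ξ, hξ, hξ'⟩ := exists_deriv_eq_zero h
          (hφ.continuousOn.mono (Icc_subset_Ioo hzin.1 hp.2)) (hz3.trans h0.symm)
        refine ⟨ξ, hξ.2.ne, ?_, hξ'⟩
        rw [abs_lt]
        constructor <;> linarith [hξ.1, hξ.2, hz4.1]
      · obtain ⟨ξ, hξ, hξ'⟩ := exists_deriv_eq_zero h
          (hφ.continuousOn.mono (Icc_subset_Ioo hp.1 hzin.2)) (h0.trans hz3.symm)
        refine ⟨ξ, hξ.1.ne', ?_, hξ'⟩
        rw [abs_lt]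
        constructor <;> linarith [hξ.1, hξ.2, hz4.2]
    obtain ⟨C, δ, hδ, hC, hb⟩ := ih _ hφ' hz'
    refine ⟨C, min δ (min (p - a) (b - p)), lt_min hδ hr, hC, fun x hx => ?_⟩
    have hsub : ∀ y ∈ Metric.closedBall p |x - p|, |y - p| ≤ |x - p| := by
      intro y hy
      rwa [Metric.mem_closedBall, Real.dist_eq] at hy
    have := Convex.norm_image_sub_le_of_norm_deriv_le (𝕜 := ℝ) (f := φ)
      (s := Metric.closedBall p |x - p|) (C := C * |x - p| ^ k) (x := p) (y := x)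
      (fun y hy => hdiff.differentiableAt (isOpen_Ioo.mem_nhds
        (hin y ((hsub y hy).trans_lt (hx.trans_le (min_le_right _ _))))))
      (fun y hy => by
        refine (hb y ((hsub y hy).trans_lt (hx.trans_le (min_le_left _ _)))).trans ?_
        apply mul_le_mul_of_nonneg_left _ hC
        exact pow_le_pow_left₀ (abs_nonneg _) (hsub y hy) k)
      (convex_closedBall _ _) (Metric.mem_closedBall_self (abs_nonneg _))
      (by rw [Metric.mem_closedBall, Real.dist_eq])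
    rw [h0, sub_zero, Real.norm_eq_abs, Real.norm_eq_abs] at this
    rw [pow_succ, ← mul_assoc]
    exact this

end Pool.Agent.MP_84d7a8_al

end

-- part MP_84d7a8_al.Obstruction
section

/-!
The obstruction to smooth actions on an interval.
-/

namespace Pool.Agent.MP_84d7a8_al

open Set Filter Topology
open scoped ContDiff

variable {Γ : Type*} [Group Γ] [MulAction Γ ℝ] {α β : ℝ}

/-- Pointwise comparison on `(c,d)`. -/
def GLe (c d : ℝ) (e e' : Γ) : Prop := ∀ x ∈ Ioo c d, e • x ≤ e' • x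

theorem GLe.trans {c d : ℝ} {e e' e'' : Γ} (h : GLe c d e e') (h' : GLe c d e' e'') :
    GLe c d e e'' := fun x hx => (h x hx).trans (h' x hx)

theorem GLe.pow (H : Nice Γ α β) {c d : ℝ} {e e' : Γ} (h : GLe c d e e') (hc : e' • c = c)
    (hd : e' • d = d) (n : ℕ) : GLe c d (e ^ n) (e' ^ n) := by
  induction n with
  | zero => intro x _; simp
  | succ n ih =>
    intro x hx
    rw [pow_succ, pow_succ, mul_smul, mul_smul]
    exact ((H.le _).2 (h x hx)).trans (ih _ (H.mem_Ioo hc hd hx))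

theorem GLe.conj (H : Nice Γ α β) {c d : ℝ} {e e' w : Γ} (h : GLe c d e e') (hc : w • c = c)
    (hd : w • d = d) : GLe c d (w * e * w⁻¹) (w * e' * w⁻¹) := by
  intro x hx
  rw [mul_smul, mul_smul, mul_smul, mul_smul, H.le]
  exact h _ (H.mem_Ioo (Nice.inv_fixed hc) (Nice.inv_fixed hd) hx)

theorem Nice.pow_mono (H : Nice Γ α β) {h : Γ} {x : ℝ} (hx : x ≤ h • x) {i j : ℕ} (hij : i ≤ j) :
    h ^ i • x ≤ h ^ j • x := by
  obtain ⟨k, rfl⟩ := Nat.exists_eq_add_of_le hij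
  rw [pow_add, mul_smul, H.le]
  exact H.le_pow hx k

theorem Gap.contract (H : NiceFix Γ α β) {A : Subgroup Γ} (hA : ∀ e ∈ A, ∀ e' ∈ A, Commute e e')
    {c d : ℝ} (G : Gap A α β c d) {a σ : Γ} (ha : a ∈ A) (hpos : ∀ x, c < x → x < d → x < a • x)
    (hσ : σ ∈ Subgroup.normalizer (A : Set Γ)) (hσc : σ • c = c) {p : ℝ} (hp : p ∈ Ioo c d)
    (hσp : σ • p = p) (hexp : GLe c d (a ^ 2) (σ * a * σ⁻¹)) {y : ℝ} (hy : y ∈ Ioo c d) :
    ∃ C : ℝ, ∀ j : ℕ, |(σ ^ j)⁻¹ • y - p| ≤ C / 2 ^ j := by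
  have hσd := G.fix_right H hσ hσc
  obtain ⟨m₁, hm₁⟩ := H.exists_lt_pow hpos hp.1 hy.2
  obtain ⟨m₂, hm₂⟩ := H.exists_pow_lt hpos hp.2 hy.1
  set E := a ^ (m₁ + m₂ + 1) with hE
  have hEA : E ∈ A := A.pow_mem ha _
  have hEpos : ∀ x, c < x → x < d → x < E • x := by
    intro x h1 h2
    have h3 := hpos x h1 h2
    have := H.pow_mono h3.le (show 1 ≤ m₁ + m₂ + 1 by omega)
    rw [pow_one] at this
    exact h3.trans_le this
  have hyE : y ≤ E • p := hm₁.le.trans (H.pow_mono (hpos p hp.1 hp.2).le (by omega))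
  have hyE' : E⁻¹ • p ≤ y := by
    rw [← H.le E, smul_inv_smul]
    rw [← H.lt (a ^ m₂), smul_inv_smul] at hm₂
    exact hm₂.le.trans (H.pow_mono (hpos y hy.1 hy.2).le (by omega))
  have hE2 : GLe c d (E ^ 2) (σ * E * σ⁻¹) := by
    have := hexp.pow H.toNice (G.fixc _ (conj_mem hσ ha)) (G.fixd _ (conj_mem hσ ha)) (m₁ + m₂ + 1)
    rwa [conj_pow, ← pow_mul, mul_comm 2, pow_mul] at this
  have hσN : ∀ j : ℕ, σ ^ j ∈ Subgroup.normalizer (A : Set Γ) := fun j => Subgroup.pow_mem _ hσ j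
  let F : ℕ → Γ := fun j => (σ ^ j)⁻¹ * E * σ ^ j
  have hFA : ∀ j, F j ∈ A := fun j => conj_mem' (hσN j) hEA
  have hF : ∀ j, GLe c d (F j ^ (2 ^ j)) E := by
    intro j
    induction j with
    | zero => intro x _; simp [F]
    | succ j ih =>
      have h1 := hE2.conj H.toNice (w := (σ ^ (j + 1))⁻¹) (Nice.inv_fixed (Nice.pow_fixed hσc _))
        (Nice.inv_fixed (Nice.pow_fixed hσd _))
      have e1 : (σ ^ (j + 1))⁻¹ * E ^ 2 * (σ ^ (j + 1))⁻¹⁻¹ = F (j + 1) ^ 2 := by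
        rw [← conj_pow, inv_inv]
      have e2 : (σ ^ (j + 1))⁻¹ * (σ * E * σ⁻¹) * (σ ^ (j + 1))⁻¹⁻¹ = F j := by
        simp only [F, pow_succ']
        group
      rw [e1, e2] at h1
      have h2 := h1.pow H.toNice (G.fixc _ (hFA j)) (G.fixd _ (hFA j)) (2 ^ j)
      rw [← pow_mul, ← pow_succ'] at h2
      exact h2.trans ih
  have hFpos : ∀ j, ∀ x ∈ Ioo c d, x < F j • x := by
    intro j x hx
    have h1 := H.mem_Ioo (Nice.pow_fixed hσc j) (Nice.pow_fixed hσd j) hx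
    simp only [F]
    rw [mul_smul, mul_smul, ← H.lt (σ ^ j), smul_inv_smul]
    exact hEpos _ h1.1 h1.2
  obtain ⟨C, hC⟩ := H.kopell_est G.lo G.hi (G.fixc E hEA) (G.fixd E hEA) hEpos
  have hest : ∀ j, ∀ x ∈ Ioo c d, F j • x - x ≤ C / 2 ^ j := by
    intro j x hx
    have := hC (F j) (hA _ hEA _ (hFA j)) (G.fixc _ (hFA j)) x hx (2 ^ j) (hFpos j x hx) (hF j x hx)
    rw [le_div_iff₀ (by positivity)]
    push_cast at this
    linarith
  refine ⟨C, fun j => ?_⟩
  have hpj : σ ^ j • p = p := Nice.pow_fixed hσp j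
  rw [abs_le]
  constructor
  · have hx : (F j)⁻¹ • p ∈ Ioo c d := H.mem_Ioo (G.fixc _ (A.inv_mem (hFA j)))
      (G.fixd _ (A.inv_mem (hFA j))) hp
    have h1 := hest j _ hx
    rw [smul_inv_smul] at h1
    have h2 : (F j)⁻¹ • p ≤ (σ ^ j)⁻¹ • y := by
      simp only [F, mul_inv_rev, inv_inv, mul_smul, hpj]
      exact (H.le _).2 hyE'
    linarith
  · have h1 := hest j p hp
    have h2 : (σ ^ j)⁻¹ • y ≤ F j • p := by
      simp only [F, mul_smul, hpj]
      exact (H.le _).2 hyE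
    linarith

theorem nat_growth (m n : ℕ) : m ^ n * (m + n) ≤ m * (m + 1) ^ n := by
  induction n with
  | zero => simp
  | succ n ih =>
    calc m ^ (n + 1) * (m + (n + 1)) ≤ m ^ n * (m + n) * (m + 1) := by
          rw [pow_succ, mul_assoc, mul_assoc]
          apply Nat.mul_le_mul_left
          nlinarith
      _ ≤ m * (m + 1) ^ n * (m + 1) := Nat.mul_le_mul_right _ ih
      _ = m * (m + 1) ^ (n + 1) := by ring

theorem Gap.growth (H : NiceFix Γ α β) {A : Subgroup Γ} (hA : ∀ e ∈ A, ∀ e' ∈ A, Commute e e')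
    {c d : ℝ} (G : Gap A α β c d) {a r : Γ} (ha : a ∈ A) (hpos : ∀ x, c < x → x < d → x < a • x)
    (hr : r ∈ Subgroup.normalizer (A : Set Γ)) (hrc : r • c = c) {y : ℝ} (hy : y ∈ Ioo c d)
    (hlt : a • y < (r * a * r⁻¹) • y) :
    ∃ n : ℕ, 0 < n ∧ GLe c d (a ^ 2) (r ^ n * a * (r ^ n)⁻¹) := by
  have hrd := G.fix_right H hr hrc
  have hlt' := G.lt_of_lt H hA ha (conj_mem hr ha) hy hlt
  set δ := (r * a * r⁻¹) * a⁻¹ with hδ
  have hδA : δ ∈ A := A.mul_mem (conj_mem hr ha) (A.inv_mem ha)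
  have hδpos : ∀ x, c < x → x < d → x < δ • x := by
    intro x h1 h2
    have := hlt' _ (H.mem_Ioo (G.fixc _ (A.inv_mem ha)) (G.fixd _ (A.inv_mem ha)) ⟨h1, h2⟩)
    rwa [smul_inv_smul, ← mul_smul] at this
  have hay := H.mem_Ioo (G.fixc _ ha) (G.fixd _ ha) hy
  obtain ⟨m, hm⟩ := H.exists_lt_pow hδpos hy.1 hay.2
  have hm0 : 0 < m := by
    rcases Nat.eq_zero_or_pos m with rfl | h
    · rw [pow_zero, one_smul] at hm
      exact absurd (hpos y hy.1 hy.2) (not_lt.2 hm.le)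
    · exact h
  have h1 : GLe c d a (δ ^ m) := G.le_of_le H hA ha (A.pow_mem hδA m) hy hm.le
  have h2 : GLe c d (a ^ (m + 1)) ((r * a * r⁻¹) ^ m) := by
    have e : (r * a * r⁻¹) ^ m = δ ^ m * a ^ m := by
      rw [← (hA _ hδA _ ha).mul_pow, hδ, inv_mul_cancel_right]
    intro x hx
    rw [e, pow_succ', mul_smul, mul_smul]
    exact h1 _ (H.mem_Ioo (G.fixc _ (A.pow_mem ha m)) (G.fixd _ (A.pow_mem ha m)) hx)
  let F : ℕ → Γ := fun n => r ^ n * a * (r ^ n)⁻¹
  have hFA : ∀ n, F n ∈ A := fun n => conj_mem (Subgroup.pow_mem _ hr n) ha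
  have h3 : ∀ n, GLe c d (F n ^ (m + 1)) (F (n + 1) ^ m) := by
    intro n
    have := h2.conj H.toNice (w := r ^ n) (Nice.pow_fixed hrc n) (Nice.pow_fixed hrd n)
    rw [← conj_pow, ← conj_pow] at this
    have e : r ^ n * (r * a * r⁻¹) * (r ^ n)⁻¹ = F (n + 1) := by
      simp only [F, pow_succ]
      group
    rwa [e] at this
  have h4 : ∀ n, GLe c d (a ^ ((m + 1) ^ n)) (F n ^ (m ^ n)) := by
    intro n
    induction n with
    | zero => intro x _; simp [F]
    | succ n ih =>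
      have k1 := ih.pow H.toNice (G.fixc _ (A.pow_mem (hFA n) _)) (G.fixd _ (A.pow_mem (hFA n) _))
        (m + 1)
      have k2 := (h3 n).pow H.toNice (G.fixc _ (A.pow_mem (hFA _) _))
        (G.fixd _ (A.pow_mem (hFA _) _)) (m ^ n)
      rw [← pow_mul, ← pow_mul, ← pow_succ, mul_comm] at k1
      rw [← pow_mul, ← pow_mul, ← pow_succ'] at k2
      exact k1.trans k2
  refine ⟨m, hm0, G.le_of_le H hA (A.pow_mem ha 2) (hFA m) hy ?_⟩
  by_contra hcon
  have h5 := G.lt_of_lt H hA (hFA m) (A.pow_mem ha 2) hy (not_le.1 hcon)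
  have h6 : GLe c d (F m) (a ^ 2) := fun x hx => (h5 x hx).le
  obtain ⟨k, hk⟩ : ∃ k, m ^ m = k + 1 := ⟨m ^ m - 1, by have := pow_pos hm0 m; omega⟩
  have h7 : 2 * m ^ m ≤ (m + 1) ^ m := by
    have := nat_growth m m
    apply Nat.le_of_mul_le_mul_left _ hm0
    nlinarith
  have ha2 := A.pow_mem ha 2
  have h8 : F m ^ (m ^ m) • y < (a ^ 2) ^ (m ^ m) • y := by
    rw [hk, pow_succ, pow_succ (a ^ 2), mul_smul (F m ^ k), mul_smul ((a ^ 2) ^ k)]
    exact ((H.lt _).2 (h5 y hy)).trans_le (h6.pow H.toNice (G.fixc _ ha2) (G.fixd _ ha2) k _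
      (H.mem_Ioo (G.fixc _ ha2) (G.fixd _ ha2) hy))
  rw [← pow_mul] at h8
  have h9 := (H.pow_mono (hpos y hy.1 hy.2).le h7).trans (h4 m y hy)
  exact absurd h8 (not_lt.2 h9)

theorem Gap.exists_fixed (H : NiceFix Γ α β) {A : Subgroup Γ}
    {c d : ℝ} (G : Gap A α β c d) {a t : Γ} (ha : a ∈ A) (hpos : ∀ x, c < x → x < d → x < a • x)
    (htc : t • c = c) (htd : t • d = d) (hrel : t * a * t⁻¹ = a ^ 2) :
    ∃ p ∈ Ioo c d, t • p = p := by
  have hx : (c + d) / 2 ∈ Ioo c d := ⟨by linarith [G.lt], by linarith [G.lt]⟩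
  set x := (c + d) / 2
  have htx := H.mem_Ioo htc htd hx
  obtain ⟨k, hk⟩ := H.exists_lt_pow hpos hx.1 htx.2
  obtain ⟨k', hk'⟩ := H.exists_pow_lt hpos hx.2 htx.1
  have hrel' : ∀ n : ℕ, t * a ^ n = a ^ n * a ^ n * t := by
    intro n
    rw [← pow_add, ← two_mul, pow_mul, ← hrel, conj_pow, inv_mul_cancel_right]
  have h1 : t • (a ^ k)⁻¹ • x < (a ^ k)⁻¹ • x := by
    rw [← H.lt (a ^ k * a ^ k), ← mul_smul, ← hrel', mul_smul, mul_smul, smul_inv_smul]
    exact hk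
  have h2 : a ^ k' • x < t • a ^ k' • x := by
    rw [← mul_smul t, hrel', mul_smul, mul_smul, H.lt, ← H.lt (a ^ k')⁻¹, inv_smul_smul]
    exact hk'
  have hy1 := H.mem_Ioo (G.fixc _ (A.inv_mem (A.pow_mem ha k)))
    (G.fixd _ (A.inv_mem (A.pow_mem ha k))) hx
  have hy2 := H.mem_Ioo (G.fixc _ (A.pow_mem ha k')) (G.fixd _ (A.pow_mem ha k')) hx
  have hsub : Continuous (fun y : ℝ => t • y - y) := (H.continuous t).sub continuous_id
  have hmem : (0 : ℝ) ∈ uIcc (t • (a ^ k)⁻¹ • x - (a ^ k)⁻¹ • x) (t • a ^ k' • x - a ^ k' • x) := by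
    rw [mem_uIcc]
    left
    constructor <;> linarith
  obtain ⟨z, hz, hz0⟩ := intermediate_value_uIcc hsub.continuousOn hmem
  refine ⟨z, ⟨?_, ?_⟩, sub_eq_zero.1 hz0⟩
  · rcases mem_uIcc.1 hz with h | h <;> linarith [h.1, hy1.1, hy2.1]
  · rcases mem_uIcc.1 hz with h | h <;> linarith [h.2, hy1.2, hy2.2]

/-- Structure of the affine gadget: on a gap of `A`, the element `s` is trivial or exponentially
contracting (or expanding) at a fixed point. -/
theorem Gap.structure_affine (H : NiceFix Γ α β) {A : Subgroup Γ}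
    (hA : ∀ e ∈ A, ∀ e' ∈ A, Commute e e') {c d : ℝ} (G : Gap A α β c d) {a t s : Γ} (ha : a ∈ A)
    (hpos : ∀ x, c < x → x < d → x < a • x) (ht : t ∈ Subgroup.normalizer (A : Set Γ))
    (hs : s ∈ Subgroup.normalizer (A : Set Γ)) (hts : Commute t s) (hrel : t * a * t⁻¹ = a ^ 2) :
    s • c = c ∧ s • d = d ∧ ∃ p ∈ Ioo c d, s • p = p ∧ ((∀ y ∈ Ioo c d, s • y = y) ∨
      ∃ ρ : Γ, (ρ = s ∨ ρ = s⁻¹) ∧ ∃ n : ℕ, ∀ y ∈ Ioo c d, ∃ C : ℝ, ∀ j : ℕ,
        |ρ ^ (n * j) • y - p| ≤ C / 2 ^ j) := by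
  have hx : (c + d) / 2 ∈ Ioo c d := ⟨by linarith [G.lt], by linarith [G.lt]⟩
  set x := (c + d) / 2
  have htc : t • c = c := G.stab_of_sq H ht ha hrel hx (hpos x hx.1 hx.2)
  have htd := G.fix_right H ht htc
  have hax := H.mem_Ioo (G.fixc _ ha) (G.fixd _ ha) hx
  have hsc : s • c = c := by
    by_contra hne
    have htriv := fun y h1 h2 => G.trivial_of_commute H hs hne hts.symm htc (x := y) h1 h2
    have h1 : (t * a * t⁻¹) • x = a • x := by
      rw [mul_smul, mul_smul, Nice.inv_fixed (htriv x hx.1.le hx.2.le), htriv _ hax.1.le hax.2.le]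
    rw [hrel, pow_two, mul_smul] at h1
    exact (hpos _ hax.1 hax.2).ne' h1
  have hsd := G.fix_right H hs hsc
  obtain ⟨p, hp, htp⟩ := G.exists_fixed H ha hpos htc htd hrel
  have hsp : s • p = p := by
    obtain ⟨C, hC⟩ := G.contract H hA ha hpos ht htc hp htp (fun y _ => by rw [hrel])
      (H.mem_Ioo hsc hsd hp)
    have hfix : t • s • p = s • p := by rw [← mul_smul, hts.eq, mul_smul, htp]
    have h1 : ∀ j : ℕ, |s • p - p| ≤ C / 2 ^ j := by
      intro j
      have := hC j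
      rwa [Nice.inv_fixed (Nice.pow_fixed hfix j)] at this
    have h2 : Tendsto (fun j : ℕ => C / 2 ^ j) atTop (𝓝 0) :=
      tendsto_const_nhds.div_atTop (tendsto_pow_atTop_atTop_of_one_lt one_lt_two)
    have h3 := ge_of_tendsto' h2 h1
    exact sub_eq_zero.1 (abs_nonpos_iff.1 h3)
  refine ⟨hsc, hsd, p, hp, hsp, ?_⟩
  have hsa := conj_mem hs ha
  have key : ∀ r : Γ, r ∈ Subgroup.normalizer (A : Set Γ) → r • c = c → r • p = p →
      (∃ y ∈ Ioo c d, a • y < (r * a * r⁻¹) • y) → ∃ n : ℕ, ∀ y ∈ Ioo c d, ∃ C : ℝ, ∀ j : ℕ,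
        |r⁻¹ ^ (n * j) • y - p| ≤ C / 2 ^ j := by
    rintro r hr hrc hrp ⟨y, hy, hlt⟩
    obtain ⟨n, -, hn⟩ := G.growth H hA ha hpos hr hrc hy hlt
    refine ⟨n, fun z hz => ?_⟩
    obtain ⟨C, hC⟩ := G.contract H hA ha hpos (Subgroup.pow_mem _ hr n) (Nice.pow_fixed hrc n) hp
      (Nice.pow_fixed hrp n) hn hz
    refine ⟨C, fun j => ?_⟩
    rw [inv_pow, pow_mul]
    exact hC j
  rcases lt_trichotomy (a • x) ((s * a * s⁻¹) • x) with h | h | h
  · right
    exact ⟨s⁻¹, Or.inr rfl, key s hs hsc hsp ⟨x, hx, h⟩⟩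
  · left
    have h1 := G.le_of_le H hA ha hsa hx h.le
    have h2 := G.le_of_le H hA hsa ha hx h.ge
    intro y hy
    refine H.kopell_local G.lo G.hi (G.fixc _ ha) (G.fixd _ ha) hpos (fun z hz => ?_) hp hsp hy
    have hz' := H.mem_Ioo hsc hsd hz
    have := le_antisymm (h2 _ hz') (h1 _ hz')
    rwa [mul_smul, mul_smul, inv_smul_smul] at this
  · right
    have := key s⁻¹ (Subgroup.inv_mem _ hs) (Nice.inv_fixed hsc) (Nice.inv_fixed hsp)
      ⟨s⁻¹ • x, H.mem_Ioo (Nice.inv_fixed hsc) (Nice.inv_fixed hsd) hx, by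
        rw [inv_inv, mul_smul, mul_smul, smul_inv_smul, ← H.lt s, smul_inv_smul]
        rwa [mul_smul, mul_smul] at h⟩
    rw [inv_inv] at this
    exact ⟨s, Or.inl rfl, this⟩

/-- The displacement of `g` cannot decay faster than exponentially along the orbit of a gap. -/
theorem Gap.decay (H : NiceFix Γ α β) {M : Subgroup Γ} (hM : ∀ e ∈ M, ∀ e' ∈ M, Commute e e')
    {c d : ℝ} (G : Gap M α β c d) {g ρ v : Γ} (hg : g ∈ M)
    (hρ : ρ ∈ Subgroup.normalizer (M : Set Γ)) (hv : v ∈ Subgroup.normalizer (M : Set Γ))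
    (hvc : ∀ c d, Gap M α β c d → v • c = c)
    (hrel : (ρ⁻¹ * g * ρ) * (ρ * g * ρ⁻¹) * (v * g ^ 3 * v⁻¹) = 1) :
    ∃ C : ℝ, 1 ≤ C ∧ ∀ m : ℕ, ∀ δ : ℝ, 0 ≤ δ →
      (∀ x, ρ ^ m • c ≤ x → x ≤ ρ ^ m • d → |g • x - x| ≤ δ) →
      (∀ x, ρ ^ (m + 1) • c ≤ x → x ≤ ρ ^ (m + 1) • d → |g • x - x| ≤ δ) →
      ∀ x, c ≤ x → x ≤ d → |g • x - x| ≤ C ^ m * δ := by
  obtain ⟨L, hL1, hL⟩ := (H.dist ρ⁻¹).exists_lip (H.mono _).monotone
  obtain ⟨Lv, hLv1, hLv⟩ := (H.dist v).exists_lip (H.mono _).monotone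
  have hG : ∀ m : ℕ, Gap M α β (ρ ^ m • c) (ρ ^ m • d) := fun m =>
    G.smul H (Subgroup.pow_mem _ hρ m)
  let I : ℕ → ℝ → Prop := fun m x => ρ ^ m • c ≤ x ∧ x ≤ ρ ^ m • d
  have hI : ∀ m x, I m x → α ≤ x ∧ x ≤ β := fun m x h =>
    ⟨(hG m).lo.trans h.1, h.2.trans (hG m).hi⟩
  have hfix : ∀ m (e : Γ), e • ρ ^ m • c = ρ ^ m • c → e • ρ ^ m • d = ρ ^ m • d →
      ∀ x, I m x → I m (e • x) := by
    intro m e h1 h2 x hx
    exact ⟨by rw [← h1]; exact (H.le e).2 hx.1, by rw [← h2]; exact (H.le e).2 hx.2⟩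
  have hIM : ∀ m, ∀ e ∈ M, ∀ x, I m x → I m (e • x) := fun m e he =>
    hfix m e ((hG m).fixc e he) ((hG m).fixd e he)
  have hIv : ∀ m x, I m x → I m (v⁻¹ • x) := fun m =>
    hfix m v⁻¹ (Nice.inv_fixed (hvc _ _ (hG m)))
      (Nice.inv_fixed ((hG m).fix_right H hv (hvc _ _ (hG m))))
  have hIρ : ∀ m x, I m x → I (m + 1) (ρ • x) := by
    intro m x hx
    simp only [I, pow_succ', mul_smul]
    exact ⟨(H.le ρ).2 hx.1, (H.le ρ).2 hx.2⟩
  have hstep : ∀ m δ, 0 ≤ δ → (∀ x, I (m + 1) x → |g • x - x| ≤ δ) →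
      (∀ x, I (m + 2) x → |g • x - x| ≤ δ) → ∀ x, I m x →
      |g • x - x| ≤ L * (L + 3 * Lv) * δ := by
    intro m δ hδ h1 h2 x hx
    have hz := hIρ m x hx
    have hA2 : ρ * g * ρ⁻¹ ∈ M := conj_mem hρ hg
    have hA3 : v * g ^ 3 * v⁻¹ ∈ M := conj_mem hv (M.pow_mem hg 3)
    have hz2 := hIM _ _ hA2 _ hz
    have hz3 := hIM _ _ hA3 _ hz2
    set z := ρ • x with hzdef
    set z2 := (ρ * g * ρ⁻¹) • z with hz2def
    set z3 := (v * g ^ 3 * v⁻¹) • z2 with hz3def
    have e1 : z = (ρ⁻¹ * g * ρ) • z3 := by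
      rw [hz3def, hz2def, ← mul_smul, ← mul_smul, mul_assoc (ρ⁻¹ * g * ρ), ← (hM _ hA2 _ hA3).eq,
        ← mul_assoc (ρ⁻¹ * g * ρ), hrel, one_smul]
    have b1 : |z - z3| ≤ L * δ := by
      have hw := hIρ _ _ hz3
      have hw' := hIM _ _ hg _ hw
      have := hL (ρ • z3) (g • ρ • z3) (hI _ _ hw).1 (hI _ _ hw).2 (hI _ _ hw').1 (hI _ _ hw').2
      simp only [inv_smul_smul] at this
      rw [e1, mul_smul, mul_smul]
      exact this.trans (mul_le_mul_of_nonneg_left (h2 _ hw) (by linarith))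
    have b2 : |z3 - z2| ≤ Lv * (3 * δ) := by
      have hu := hIv _ _ hz2
      set u := v⁻¹ • z2 with hudef
      have hu1 := hIM _ _ hg _ hu
      have hu2 := hIM _ _ hg _ hu1
      have hu3 := hIM _ _ hg _ hu2
      have := hLv u (g • g • g • u) (hI _ _ hu).1 (hI _ _ hu).2 (hI _ _ hu3).1 (hI _ _ hu3).2
      have e2 : v • u = z2 := by rw [hudef, smul_inv_smul]
      have e3 : v • g • g • g • u = z3 := by
        rw [hz3def, mul_smul, mul_smul, pow_succ, pow_two, mul_smul, mul_smul]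
      simp only [e2, e3] at this
      refine this.trans (mul_le_mul_of_nonneg_left ?_ (by linarith))
      have k1 := abs_le.1 (h1 _ hu)
      have k2 := abs_le.1 (h1 _ hu1)
      have k3 := abs_le.1 (h1 _ hu2)
      rw [abs_le]
      constructor <;> linarith [k1.1, k1.2, k2.1, k2.2, k3.1, k3.2]
    have b3 := hL z z2 (hI _ _ hz).1 (hI _ _ hz).2 (hI _ _ hz2).1 (hI _ _ hz2).2
    have e4 : ρ⁻¹ • z2 = g • x := by
      rw [hz2def, hzdef, mul_smul, mul_smul, inv_smul_smul, inv_smul_smul]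
    have e5 : ρ⁻¹ • z = x := by rw [hzdef, inv_smul_smul]
    simp only [e4, e5] at b3
    refine b3.trans ?_
    rw [mul_assoc]
    apply mul_le_mul_of_nonneg_left _ (by linarith)
    have k1 := abs_le.1 b1
    have k2 := abs_le.1 b2
    rw [abs_le]
    constructor <;> linarith [k1.1, k1.2, k2.1, k2.2]
  have hC1 : 1 ≤ L * (L + 3 * Lv) := by nlinarith
  refine ⟨L * (L + 3 * Lv), hC1, ?_⟩
  intro m
  induction m with
  | zero =>
    intro δ _ h1 _ x hx1 hx2
    simpa using h1 x (by simpa using hx1) (by simpa using hx2)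
  | succ m ih =>
    intro δ hδ h1 h2 x hx1 hx2
    have k1 := hstep m δ hδ (fun x hx => h1 x hx.1 hx.2) (fun x hx => h2 x hx.1 hx.2)
    have := ih (L * (L + 3 * Lv) * δ) (by positivity) (fun x h h' => k1 x ⟨h, h'⟩)
      (fun x h h' => (h1 x h h').trans (le_mul_of_one_le_left hδ hC1)) x hx1 hx2
    rw [pow_succ, mul_assoc]
    exact this

theorem obstruction_pos (H : NiceFix Γ α β)
    (hsm : ∀ γ : Γ, ContDiffOn ℝ ∞ (fun x : ℝ => γ • x) (Ioo α β))
    {A M : Subgroup Γ} (hA : ∀ e ∈ A, ∀ e' ∈ A, Commute e e')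
    (hM : ∀ e ∈ M, ∀ e' ∈ M, Commute e e') {a t s g v u : Γ} (ha : a ∈ A)
    (ht : t ∈ Subgroup.normalizer (A : Set Γ)) (hsA : s ∈ Subgroup.normalizer (A : Set Γ))
    (hts : Commute t s) (hta : t * a * t⁻¹ = a ^ 2) (hg : g ∈ M)
    (hsM : s ∈ Subgroup.normalizer (M : Set Γ)) (hv : v ∈ Subgroup.normalizer (M : Set Γ))
    (hu : u ∈ Subgroup.normalizer (M : Set Γ)) (huv : Commute v u)
    (havg : ∀ e ∈ M, e ^ 2 = (v * e * v⁻¹) * (u * e * u⁻¹))
    (hrel : (s⁻¹ * g * s) * (s * g * s⁻¹) * (v * g ^ 3 * v⁻¹) = 1)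
    {x : ℝ} (hx1 : α ≤ x) (hx2 : x ≤ β) (hax : x < a • x) (hgx : x < g • x) : False := by
  obtain ⟨c, d, G, hx, hpos⟩ := H.exists_gap hA ha hx1 hx2 hax
  obtain ⟨c', d', G', hx', hpos'⟩ := H.exists_gap hM hg hx1 hx2 hgx
  have hvc : ∀ c d, Gap M α β c d → v • c = c := fun c d G => G.stab_of_avg H hM hv hu huv havg
  have hsc' : s • c' ≠ c' := by
    intro hsc
    have hconj : ∀ (w : Γ) (n : ℕ), w ∈ Subgroup.normalizer (M : Set Γ) → w • c' = c' →
        ∀ y ∈ Ioo c' d', y < (w * g ^ (n + 1) * w⁻¹) • y := by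
      intro w n hw hwc y hy
      have h1 := H.mem_Ioo (Nice.inv_fixed hwc) (Nice.inv_fixed (G'.fix_right H hw hwc)) hy
      rw [mul_smul, mul_smul, ← H.lt w⁻¹, inv_smul_smul]
      have h2 := hpos' _ h1.1 h1.2
      have h3 := H.pow_mono h2.le (show 1 ≤ n + 1 by omega)
      rw [pow_one] at h3
      exact h2.trans_le h3
    have k1 := hconj s⁻¹ 0 (Subgroup.inv_mem _ hsM) (Nice.inv_fixed hsc)
    have k2 := hconj s 0 hsM hsc
    have k3 := hconj v 2 hv (hvc _ _ G')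
    simp only [zero_add, pow_one, inv_inv] at k1 k2
    have hA2 : s * g * s⁻¹ ∈ M := conj_mem hsM hg
    have hA3 : v * g ^ 3 * v⁻¹ ∈ M := conj_mem hv (M.pow_mem hg 3)
    have m3 := H.mem_Ioo (G'.fixc _ hA3) (G'.fixd _ hA3) hx'
    have m2 := H.mem_Ioo (G'.fixc _ hA2) (G'.fixd _ hA2) m3
    have := (k3 x hx').trans ((k2 _ m3).trans (k1 _ m2))
    rw [← mul_smul, ← mul_smul, hrel, one_smul] at this
    exact lt_irrefl _ this
  have hnofix : ∀ z, s • z = z → z < c' ∨ d' < z := by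
    intro z hz
    by_contra hcon
    push Not at hcon
    obtain ⟨f, hf, hlt⟩ := H.exists_pos_dir hsc'
    have hfN : f ∈ Subgroup.normalizer (M : Set Γ) := by
      rcases hf with rfl | rfl
      · exact hsM
      · exact Subgroup.inv_mem _ hsM
    have hfz : f • z = z := by
      rcases hf with rfl | rfl
      · exact hz
      · exact Nice.inv_fixed hz
    have h1 : d' ≤ f • c' := by
      rcases G'.not_mem (fix_smul hfN G'.fixc) with h | h
      · linarith
      · exact h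
    have h2 : f • c' ≤ f • z := (H.le f).2 hcon.1
    have h3 : f • c' = f • z := le_antisymm h2 (by rw [hfz]; exact hcon.2.trans h1)
    have h4 := smul_left_cancel _ h3
    rw [← h4] at hz
    exact hsc' hz
  obtain ⟨hsc, hsd, p, hp, hsp, hcase⟩ := G.structure_affine H hA ha hpos ht hsA hts hta
  rcases hcase with hid | ⟨ρ, hρ, n, hexp⟩
  · rcases hnofix x (hid x hx) with h | h
    · linarith [hx'.1]
    · linarith [hx'.2]
  have hcc : c < c' := by
    rcases hnofix c hsc with h | h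
    · exact h
    · linarith [hx.1, hx'.2]
  have hdd : d' < d := by
    rcases hnofix d hsd with h | h
    · linarith [hx.2, hx'.1]
    · exact h
  have hpc : c' ≠ p := by
    rintro rfl
    exact hsc' hsp
  have hc' : c' ∈ Ioo c d := ⟨hcc, G'.lt.trans hdd⟩
  have hd' : d' ∈ Ioo c d := ⟨hcc.trans G'.lt, hdd⟩
  have hρfix : ∀ z : ℝ, s • z = z → ρ • z = z := by
    intro z hz
    rcases hρ with rfl | rfl
    · exact hz
    · exact Nice.inv_fixed hz
  have hρN : ρ ∈ Subgroup.normalizer (M : Set Γ) := by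
    rcases hρ with rfl | rfl
    · exact hsM
    · exact Subgroup.inv_mem _ hsM
  have hρrel : (ρ⁻¹ * g * ρ) * (ρ * g * ρ⁻¹) * (v * g ^ 3 * v⁻¹) = 1 := by
    rcases hρ with rfl | rfl
    · exact hrel
    · rw [inv_inv, (hM _ (conj_mem hsM hg) _ (conj_mem' hsM hg)).eq, hrel]
  obtain ⟨C, hC1, hC⟩ := G'.decay H hM hg hρN hv hvc hρrel
  obtain ⟨B1, hB1⟩ := hexp c' hc'
  obtain ⟨B2, hB2⟩ := hexp d' hd'
  obtain ⟨B3, hB3⟩ := hexp _ (H.mem_Ioo (hρfix c hsc) (hρfix d hsd) hc')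
  obtain ⟨B4, hB4⟩ := hexp _ (H.mem_Ioo (hρfix c hsc) (hρfix d hsd) hd')
  set B := max (max B1 B2) (max B3 B4) with hB
  have hdiv : ∀ (b : ℝ) (j : ℕ), b ≤ B → b / 2 ^ j ≤ B / 2 ^ j := fun b j h =>
    div_le_div_of_nonneg_right h (by positivity)
  have hin1 : ∀ (j : ℕ) y, ρ ^ (n * j) • c' ≤ y → y ≤ ρ ^ (n * j) • d' → |y - p| ≤ B / 2 ^ j := by
    intro j y h1 h2
    have k1 := abs_le.1 ((hB1 j).trans (hdiv _ j ((le_max_left _ _).trans (le_max_left _ _))))
    have k2 := abs_le.1 ((hB2 j).trans (hdiv _ j ((le_max_right _ _).trans (le_max_left _ _))))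
    rw [abs_le]
    constructor <;> linarith [k1.1, k2.2]
  have hin2 : ∀ (j : ℕ) y, ρ ^ (n * j + 1) • c' ≤ y → y ≤ ρ ^ (n * j + 1) • d' →
      |y - p| ≤ B / 2 ^ j := by
    intro j y h1 h2
    rw [pow_succ, mul_smul] at h1 h2
    have k1 := abs_le.1 ((hB3 j).trans (hdiv _ j ((le_max_left _ _).trans (le_max_right _ _))))
    have k2 := abs_le.1 ((hB4 j).trans (hdiv _ j ((le_max_right _ _).trans (le_max_right _ _))))
    rw [abs_le]
    constructor <;> linarith [k1.1, k2.2]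
  have hlimB : Tendsto (fun j : ℕ => B / 2 ^ j) atTop (𝓝 0) :=
    tendsto_const_nhds.div_atTop (tendsto_pow_atTop_atTop_of_one_lt one_lt_two)
  obtain ⟨k, hk⟩ := pow_unbounded_of_one_lt (C ^ n) (one_lt_two (α := ℝ))
  have hpαβ : p ∈ Ioo α β := ⟨G.lo.trans_lt hp.1, hp.2.trans_le G.hi⟩
  obtain ⟨Ck, δ, hδ, hCk, hflat⟩ := flat_of_zeros hpαβ k (fun y => g • y - y)
    ((hsm g).sub contDiffOn_id) (by
      intro δ hδ
      obtain ⟨j, hj⟩ := (hlimB.eventually (gt_mem_nhds hδ)).exists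
      refine ⟨ρ ^ (n * j) • c', ?_, ?_, ?_⟩
      · intro h
        rw [← Nice.pow_fixed (hρfix p hsp) (n * j)] at h
        exact hpc (smul_left_cancel _ h)
      · exact (hin1 j _ le_rfl ((H.le _).2 G'.lt.le)).trans_lt hj
      · exact sub_eq_zero.2 (fix_smul (Subgroup.pow_mem _ hρN _) G'.fixc g hg))
  have hB0 : 0 ≤ B := by
    have := (abs_nonneg _).trans (hin1 0 _ le_rfl ((H.le _).2 G'.lt.le))
    simpa using this
  have hev : ∀ᶠ j : ℕ in atTop, |g • x - x| ≤ (Ck * B ^ k) * (C ^ n / 2 ^ k) ^ j := by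
    filter_upwards [hlimB.eventually (gt_mem_nhds hδ)] with j hj
    have hb : ∀ y, |y - p| ≤ B / 2 ^ j → |g • y - y| ≤ Ck * (B / 2 ^ j) ^ k := by
      intro y hy
      refine (hflat y (hy.trans_lt hj)).trans (mul_le_mul_of_nonneg_left ?_ hCk)
      exact pow_le_pow_left₀ (abs_nonneg _) hy k
    have := hC (n * j) (Ck * (B / 2 ^ j) ^ k) (by positivity)
      (fun y h1 h2 => hb y (hin1 j y h1 h2)) (fun y h1 h2 => hb y (hin2 j y h1 h2)) x
      hx'.1.le hx'.2.le
    refine this.trans (le_of_eq ?_)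
    rw [div_pow, div_pow, ← pow_mul, ← pow_mul, ← pow_mul, mul_comm k j]
    ring
  have hlim : Tendsto (fun j : ℕ => (Ck * B ^ k) * (C ^ n / 2 ^ k) ^ j) atTop (𝓝 0) := by
    have := (tendsto_pow_atTop_nhds_zero_of_lt_one (r := C ^ n / 2 ^ k) (by positivity)
      ((div_lt_one (by positivity)).2 hk)).const_mul (Ck * B ^ k)
    simpa using this
  have := ge_of_tendsto hlim hev
  have h0 := sub_eq_zero.1 (abs_nonpos_iff.1 this)
  exact hgx.ne' h0

/-- The obstruction: in a smooth action on an interval, `a` and `g` have disjoint supports, hence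
commute. -/
theorem obstruction (H : NiceFix Γ α β)
    (hsm : ∀ γ : Γ, ContDiffOn ℝ ∞ (fun x : ℝ => γ • x) (Ioo α β))
    {A M : Subgroup Γ} (hA : ∀ e ∈ A, ∀ e' ∈ A, Commute e e')
    (hM : ∀ e ∈ M, ∀ e' ∈ M, Commute e e') {a t s g v u : Γ} (ha : a ∈ A)
    (ht : t ∈ Subgroup.normalizer (A : Set Γ)) (hsA : s ∈ Subgroup.normalizer (A : Set Γ))
    (hts : Commute t s) (hta : t * a * t⁻¹ = a ^ 2) (hg : g ∈ M)
    (hsM : s ∈ Subgroup.normalizer (M : Set Γ)) (hv : v ∈ Subgroup.normalizer (M : Set Γ))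
    (hu : u ∈ Subgroup.normalizer (M : Set Γ)) (huv : Commute v u)
    (havg : ∀ e ∈ M, e ^ 2 = (v * e * v⁻¹) * (u * e * u⁻¹))
    (hrel : (s⁻¹ * g * s) * (s * g * s⁻¹) * (v * g ^ 3 * v⁻¹) = 1)
    {x : ℝ} (hx1 : α ≤ x) (hx2 : x ≤ β) : (a * g) • x = (g * a) • x := by
  have key : ∀ y, α ≤ y → y ≤ β → a • y = y ∨ g • y = y := by
    intro y hy1 hy2
    by_contra hcon
    push Not at hcon
    obtain ⟨a', ha', hay⟩ := H.exists_pos_dir hcon.1
    obtain ⟨g', hg', hgy⟩ := H.exists_pos_dir hcon.2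
    refine obstruction_pos H hsm hA hM (a := a') (g := g') ?_ ht hsA hts ?_ ?_ hsM hv hu huv havg ?_
      hy1 hy2 hay hgy
    · rcases ha' with rfl | rfl
      · exact ha
      · exact A.inv_mem ha
    · rcases ha' with rfl | rfl
      · exact hta
      · rw [inv_pow, ← hta]; group
    · rcases hg' with rfl | rfl
      · exact hg
      · exact M.inv_mem hg
    · rcases hg' with rfl | rfl
      · exact hrel
      · have h1 : s⁻¹ * g * s ∈ M := conj_mem' hsM hg
        have h2 : s * g * s⁻¹ ∈ M := conj_mem hsM hg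
        have h3 : v * g ^ 3 * v⁻¹ ∈ M := conj_mem hv (M.pow_mem hg 3)
        have e : (s⁻¹ * g⁻¹ * s) * (s * g⁻¹ * s⁻¹) * (v * g⁻¹ ^ 3 * v⁻¹) =
            ((v * g ^ 3 * v⁻¹) * ((s * g * s⁻¹) * (s⁻¹ * g * s)))⁻¹ := by
          simp only [mul_inv_rev, inv_inv, inv_pow, mul_assoc]
        rw [e, (hM _ h3 _ (M.mul_mem h2 h1)).eq, (hM _ h2 _ h1).eq, hrel, inv_one]
  rw [mul_smul, mul_smul]
  by_cases h1 : a • x = x
  · by_cases h2 : g • x = x
    · rw [h1, h2, h1]
    · rcases key (g • x) (H.le_smul g hx1) (H.smul_le g hx2) with h | h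
      · rw [h, h1]
      · exact absurd (smul_left_cancel _ h) h2
  · rcases key x hx1 hx2 with h | h
    · exact absurd h h1
    · rcases key (a • x) (H.le_smul a hx1) (H.smul_le a hx2) with h' | h'
      · exact absurd (smul_left_cancel _ h') h1
      · rw [h, h']

end Pool.Agent.MP_84d7a8_al

end
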